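import Pool.Agent.H7.PT.P21

set_option autoImplicit false
open MeasureTheory Metric Filter ProbabilityTheory
open scoped ComplexConjugate ENNReal Topology ContDiff

/-! Versions for `k ≥ 1` of the upper bounds and of Young's inequality. -/

namespace Pool.Agent.H7.PV

open Pool.Agent.H7.PM (dl dl_pos dl_nonneg dl_tendsto)
open Pool.Agent.H7.PT hiding Zup Dup cmb_lim young
open Pool.Agent.V11128.CXL
open Pool.Agent.H306R2 (aF aF_pos)

/-- the upper bound on symmetric intervals -/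
theorem Zup {k : ℝ} (hk : 1 ≤ k) (hk4 : k ≤ 4) : ∃ C : ℝ, 0 ≤ C ∧ ∀ N : ℝ → ℕ, Adm N →
    ∀ᶠ T in atTop, nI k (-(3 * T)) (3 * T) (zc (dl (N T)) 0) ≤ C * SS k N T := by
  have hk0 : 0 < k := by linarith
  have hA := aF_pos (κ := k / 2) (by positivity)
  set A := aF (k / 2) with hAdef
  refine ⟨2 * ((A + 1) * 3) ^ (1 / k), by positivity, fun N hN => ?_⟩
  have h1 := scaled hN (c := 3) (by norm_num) (F := fun δ t => ‖zc δ 0 t‖ ^ k)
    (e := (k / 2) ^ 2) (l := A) (fun δ h2 h3 => one_lim hk0 hk4 0 δ h2 h3)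
  have h2 := bound_of_lim hk0 hN (c := 3) (by norm_num) (lt_add_one A) (by linarith) h1
  filter_upwards [h2, eventually_ge_atTop 1,
    hN.delta.eventually (gt_mem_nhds (show (0 : ℝ) < 1 / 2 by norm_num))] with T h3 h4 h5
  have hc := zc_cont h5 0
  have hS := SS_nonneg k N (show 0 ≤ T by linarith)
  have h6 : nI k 0 (3 * T) (zc (dl (N T)) 0) ≤ ((A + 1) * 3) ^ (1 / k) * SS k N T := by
    refine nI_le_of hk0 (by positivity) ?_
    rw [Real.mul_rpow (by positivity) hS, ← Real.rpow_mul (by positivity),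
      one_div_mul_cancel hk0.ne', Real.rpow_one]
    exact h3
  have h7 : nI k (-(3 * T)) 0 (zc (dl (N T)) 0) = nI k 0 (3 * T) (zc (dl (N T)) 0) := by
    have h8 := nI_reflect k 0 (3 * T) (zc (dl (N T)) 0)
    rw [neg_zero] at h8
    rw [h8]
    refine nI_congr fun t _ => ?_
    rw [zc_reflect, neg_zero]
  have h9 := nI_split hk (a := -(3 * T)) (b := 0) (c := 3 * T) (by linarith) (by linarith) hc
  rw [h7] at h9
  linarith

/-- the derivative -/
theorem Dup {k : ℝ} (hk : 1 ≤ k) (hk4 : k ≤ 4) : ∃ C : ℝ, 0 ≤ C ∧ ∀ N : ℝ → ℕ, Adm N →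
    ∀ᶠ T in atTop, dl (N T) * nI k (-(3 * T)) (3 * T)
      (fun t => deriv riemannZeta (pt (dl (N T)) t)) ≤ C * SS k N T := by
  have hk0 : 0 < k := by linarith
  set Φ : ℂ × ℂ → ℝ := fun z => ‖z.2‖ ^ k with hΦ
  have hc : Continuous Φ := continuous_snd.norm.rpow_const fun _ => Or.inr hk0.le
  have hh : Hom2 k Φ := by
    intro l a b
    simp only [hΦ]
    rw [norm_mul, Real.mul_rpow (norm_nonneg _) (norm_nonneg _)]
  set A := aF (k / 2) * ∫ p, Φ (1, q0 k p) ∂N2 with hAdef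
  have hA0 : 0 ≤ A := mul_nonneg (aF_pos (κ := k / 2) (by positivity)).le
    (integral_nonneg fun p => by simp only [hΦ]; positivity)
  refine ⟨2 * ((A + 1) * 3) ^ (1 / k), by positivity, fun N hN => ?_⟩
  have h1 := scaled hN (c := 3) (by norm_num)
    (F := fun δ t => Φ (riemannZeta (pt δ t), δ * deriv riemannZeta (pt δ t)))
    (e := (k / 2) ^ 2) (l := A) (fun δ h2 h3 => (deriv_moment h2 h3 hk0 hk4 hc hh).2)
  have h2 := bound_of_lim hk0 hN (c := 3) (by norm_num) (lt_add_one A) (by linarith) h1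
  filter_upwards [h2, eventually_ge_atTop 1, hN.pos,
    hN.delta.eventually (gt_mem_nhds (show (0 : ℝ) < 1 / 4 by norm_num))] with T h3 h4 h4' h5
  set δ := dl (N T) with hδ
  set F : ℝ → ℂ := fun t => deriv riemannZeta (pt δ t) with hF
  have hc := dz_cont h5
  have hS := SS_nonneg k N (show 0 ≤ T by linarith)
  have h6 : δ * nI k 0 (3 * T) F ≤ ((A + 1) * 3) ^ (1 / k) * SS k N T := by
    have e : δ * nI k 0 (3 * T) F = nI k 0 (3 * T) (fun t => (δ : ℂ) * F t) := by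
      rw [nI_const_mul hk0, Complex.norm_real, Real.norm_of_nonneg h4'.le]
    rw [e]
    refine nI_le_of hk0 (by positivity) ?_
    rw [Real.mul_rpow (by positivity) hS, ← Real.rpow_mul (by positivity),
      one_div_mul_cancel hk0.ne', Real.rpow_one]
    exact h3
  have h7 : nI k (-(3 * T)) 0 F = nI k 0 (3 * T) F := by
    have h8 := nI_reflect k 0 (3 * T) F
    rw [neg_zero] at h8
    rw [h8]
    refine nI_congr fun t _ => ?_
    simp only [hF]
    rw [← Complex.norm_conj, ← deriv_conj]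
    congr 2
    unfold pt
    simp only [map_add, map_mul, map_div₀, map_one, Complex.conj_ofReal, Complex.conj_I,
      Complex.conj_ofNat]
    push_cast
    ring
  have h9 := nI_split hk (a := -(3 * T)) (b := 0) (c := 3 * T) (by linarith) (by linarith) hc
  rw [h7] at h9
  have h10 := mul_le_mul_of_nonneg_left h9 h4'.le
  rw [mul_add] at h10
  calc _ ≤ _ := h10
    _ ≤ _ := by linarith

theorem cmb_lim {k : ℝ} (hk : 1 ≤ k) (hk4 : k ≤ 4) {n : ℕ} (w : Fin n → ℂ) (a : Fin n → ℝ) :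
    ∃ l : ℝ, ∀ N : ℝ → ℕ, Adm N →
      Tendsto (fun T : ℝ => nI k 0 T (cmb w a (dl (N T))) / SS k N T) atTop (𝓝 l) := by
  have hk0 : 0 < k := by linarith
  set Φ : (Fin n → ℂ) → ℝ := fun z => ‖∑ j, w j * z j‖ ^ k with hΦ
  have hc : Continuous Φ := by
    refine Continuous.rpow_const ?_ fun _ => Or.inr hk0.le
    fun_prop
  have hh : Hom k Φ := by
    intro l z
    simp only [hΦ]
    have e : ∑ j, w j * (l * z j) = l * ∑ j, w j * z j := by
      rw [Finset.mul_sum]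
      exact Finset.sum_congr rfl fun j _ => by ring
    rw [e, norm_mul, Real.mul_rpow (norm_nonneg _) (norm_nonneg _)]
  obtain ⟨l, hl⟩ := hom_lim hk0 hk4 a Φ hc hh
  refine ⟨l ^ (1 / k), fun N hN => ?_⟩
  have h1 := (hl _ hN.delta hN.L).rpow_const (p := 1 / k) (Or.inr (by positivity))
  refine h1.congr' ?_
  filter_upwards [hN.pos, eventually_gt_atTop 0] with T h2 h3
  have hI : 0 ≤ ∫ t in Set.Icc 0 T, ‖cmb w a (dl (N T)) t‖ ^ k := int_nonneg _ _ _ _
  have e : (2 * dl (N T)) ^ ((k / 2) ^ 2) / T *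
      ∫ t in Set.Icc 0 T, Φ (fun j => zc (dl (N T)) (a j) t) =
      (∫ t in Set.Icc 0 T, ‖cmb w a (dl (N T)) t‖ ^ k) /
        (T * (2 * dl (N T)) ^ (-((k / 2) ^ 2))) := by
    rw [Real.rpow_neg (by positivity)]
    have : 0 < (2 * dl (N T)) ^ ((k / 2) ^ 2) := Real.rpow_pos_of_pos (by positivity) _
    have e2 : ∫ t in Set.Icc 0 T, Φ (fun j => zc (dl (N T)) (a j) t) =
        ∫ t in Set.Icc 0 T, ‖cmb w a (dl (N T)) t‖ ^ k := rfl
    rw [e2]
    field_simp
  rw [e, Real.div_rpow hI (by positivity)]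
  rfl

lemma holder_pt1 {p : ℝ} (hp : 1 ≤ p) {A : Set ℝ} (hA : IsCompact A) {w f : ℝ → ℝ}
    (hw : Continuous w) (hw0 : ∀ ξ, 0 ≤ w ξ) (hf : Continuous f) (hf0 : ∀ ξ, 0 ≤ f ξ) :
    (∫ ξ in A, w ξ * f ξ) ^ p ≤ (∫ ξ in A, w ξ) ^ (p - 1) * ∫ ξ in A, w ξ * f ξ ^ p := by
  rcases hp.eq_or_lt with rfl | h
  · simp
  · exact holder_pt h hA hw hw0 hf hf0

/-- Young's inequality -/
theorem young {p : ℝ} (hp : 1 ≤ p) {A : Set ℝ} (hA : IsCompact A) {w f : ℝ → ℝ}
    (hw : Continuous w) (hw0 : ∀ ξ, 0 ≤ w ξ) (hf : Continuous f) (hf0 : ∀ ξ, 0 ≤ f ξ)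
    {c D : ℝ} (hD : ∀ ξ ∈ A, |c * ξ| ≤ D) (a b : ℝ) :
    nI p a b (fun t => ((∫ ξ in A, w ξ * f (t + c * ξ) : ℝ) : ℂ)) ≤
      (∫ ξ in A, w ξ) * nI p (a - D) (b + D) (fun t => (f t : ℂ)) := by
  have hp0 : 0 < p := by linarith
  set W := ∫ ξ in A, w ξ with hW
  set X := nI p (a - D) (b + D) (fun t => (f t : ℂ)) with hX
  have hW0 : 0 ≤ W := integral_nonneg hw0
  have hX0 : 0 ≤ X := nI_nonneg _ _ _ _
  refine nI_le_of hp0 (by positivity) ?_
  have hfp : Continuous fun t => f t ^ p := hf.rpow_const fun _ => Or.inr hp0.le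
  have h1 : ∀ t, ‖((∫ ξ in A, w ξ * f (t + c * ξ) : ℝ) : ℂ)‖ ^ p ≤
      W ^ (p - 1) * ∫ ξ in A, w ξ * f (t + c * ξ) ^ p := by
    intro t
    have h2 : 0 ≤ ∫ ξ in A, w ξ * f (t + c * ξ) :=
      integral_nonneg fun ξ => mul_nonneg (hw0 ξ) (hf0 _)
    rw [Complex.norm_real, Real.norm_of_nonneg h2]
    exact holder_pt1 hp hA hw hw0 (f := fun ξ => f (t + c * ξ)) (hf.comp (by fun_prop))
      fun ξ => hf0 _
  have h3 : ∫ t in Set.Icc a b, ∫ ξ in A, w ξ * f (t + c * ξ) ^ p ≤ W * X ^ p := by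
    have hint : Integrable (Function.uncurry fun (t ξ : ℝ) => w ξ * f (t + c * ξ) ^ p)
        ((volume.restrict (Set.Icc a b)).prod (volume.restrict A)) := by
      rw [Measure.prod_restrict, ← Measure.volume_eq_prod]
      have hcc : Continuous (Function.uncurry fun (t ξ : ℝ) => w ξ * f (t + c * ξ) ^ p) :=
        (hw.comp continuous_snd).mul (hfp.comp (by fun_prop))
      exact hcc.continuousOn.integrableOn_compact (isCompact_Icc.prod hA)
    rw [integral_integral_swap hint, hW, ← integral_mul_const]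
    refine setIntegral_mono_on ?_ ?_ hA.measurableSet fun ξ hξ => ?_
    · exact hint.integral_prod_right
    · exact (hw.continuousOn.integrableOn_compact hA).mul_const _
    · rw [integral_const_mul]
      refine mul_le_mul_of_nonneg_left ?_ (hw0 ξ)
      rw [int_shift (fun t => f t ^ p), hX, nI_rpow hp0]
      obtain ⟨h4, h5⟩ := abs_le.1 (hD ξ hξ)
      have h6 : ∀ t, ‖((f t : ℝ) : ℂ)‖ ^ p = f t ^ p := fun t => by
        rw [Complex.norm_real, Real.norm_of_nonneg (hf0 t)]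
      simp_rw [h6]
      exact setIntegral_mono_set (intOn hfp _ _)
        (Eventually.of_forall fun t => Real.rpow_nonneg (hf0 t) _)
        (Set.Icc_subset_Icc (by linarith) (by linarith)).eventuallyLE
  calc ∫ t in Set.Icc a b, ‖((∫ ξ in A, w ξ * f (t + c * ξ) : ℝ) : ℂ)‖ ^ p ≤
      ∫ t in Set.Icc a b, W ^ (p - 1) * ∫ ξ in A, w ξ * f (t + c * ξ) ^ p := by
        refine setIntegral_mono (intOn (cont_rpow (Complex.continuous_ofReal.comp
          (conv_cont hA hw hf c)) hp0.le) _ _) (intOn ?_ _ _) h1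
        exact continuous_const.mul (conv_cont hA hw hfp c)
    _ = W ^ (p - 1) * ∫ t in Set.Icc a b, ∫ ξ in A, w ξ * f (t + c * ξ) ^ p :=
        integral_const_mul _ _
    _ ≤ W ^ (p - 1) * (W * X ^ p) := mul_le_mul_of_nonneg_left h3 (by positivity)
    _ = (W * X) ^ p := by
        rw [Real.mul_rpow hW0 hX0, ← mul_assoc]
        congr 1
        have h7 := Real.rpow_add_one' hW0 (y := p - 1) (by linarith)
        rw [sub_add_cancel] at h7
        rw [h7]


end Pool.Agent.H7.PV
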