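import Pool.Agent.H7.PV.V9

set_option autoImplicit false
open MeasureTheory Metric Filter ProbabilityTheory
open scoped ComplexConjugate ENNReal Topology ContDiff

/-! Positivity of the constants. -/

namespace Pool.Agent.H7.PV

open Pool.Agent.H7.PM (dl dl_pos dl_nonneg dl_tendsto log_dl nat_cpow)
open Pool.Agent.H7.PT hiding Zup Dup cmb_lim young EE_small app_lin app_of
open Pool.Agent.V11128.CXL

/-- the multiplier -/
lemma exists_mult {g P : ℝ → ℂ} (hg : ContDiff ℝ ∞ g) (hgs : HasCompactSupport g)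
    (hg1 : ∀ x, 1 ≤ x → g x = 0) (hg2 : ∀ x, x ≤ -1 → g x = 0) (hP : ContDiff ℝ ∞ P)
    {r : ℝ} (hr : 0 < r) (hPr : ∀ x, |x| ≤ r → P x ≠ 0) {R : ℕ} (hR1 : 1 ≤ R)
    (hR : 2 / r ≤ R) : ∃ m hm : ℝ → ℂ, WD m hm ∧
      (∀ x, P (x / R) * m x = g x * Complex.exp (-(x : ℂ))) := by
  have hRp : (0 : ℝ) < R := by exact_mod_cast hR1
  have hne : ∀ x, |x| ≤ 2 → P (x / R) ≠ 0 := by
    intro x hx
    refine hPr _ ?_
    rw [abs_div, abs_of_pos hRp, div_le_iff₀ hRp]
    rw [div_le_iff₀ hr] at hR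
    linarith
  set m : ℝ → ℂ := fun x => g x * (Complex.exp (-(x : ℂ)) * (P (x / R))⁻¹) with hm
  have hgz : ∀ x, 1 ≤ |x| → g x = 0 := by
    intro x hx
    rcases le_abs'.1 hx with h | h
    · exact hg2 x h
    · exact hg1 x h
  have hmd : ContDiff ℝ ∞ m := by
    rw [contDiff_iff_contDiffAt]
    intro x
    rcases lt_or_ge |x| 2 with h | h
    · have h1 : ContDiffAt ℝ ∞ (fun x : ℝ => P (x / R)) x :=
        (hP.comp (contDiff_id.div_const _)).contDiffAt
      have h2 : ContDiff ℝ ∞ fun x : ℝ => Complex.exp (-(x : ℂ)) :=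
        (Complex.ofRealCLM.contDiff.neg).cexp
      exact hg.contDiffAt.mul (h2.contDiffAt.mul (h1.inv (hne x h.le)))
    · have h1 : m =ᶠ[𝓝 x] fun _ => 0 := by
        have h2 : ∀ᶠ y in 𝓝 x, 1 < |y| :=
          (continuous_abs.tendsto x).eventually (lt_mem_nhds (by linarith))
        filter_upwards [h2] with y hy
        simp only [hm]
        rw [hgz y hy.le, zero_mul]
      exact contDiffAt_const.congr_of_eventuallyEq h1
  obtain ⟨h, H⟩ := exists_WD m hmd hgs.mul_right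
  refine ⟨m, h, H, fun x => ?_⟩
  simp only [hm]
  rcases lt_or_ge |x| 2 with h1 | h1
  · have := hne x h1.le
    field_simp
  · rw [hgz x (by linarith)]
    simp

/-- the identity -/
lemma mult_id {g P m hm : ℝ → ℂ} (H : WD m hm) (hg1 : ∀ x, 1 ≤ x → g x = 0) {R : ℕ}
    (hR1 : 1 ≤ R) (hid : ∀ x, P (x / R) * m x = g x * Complex.exp (-(x : ℂ))) {b : ℝ}
    (hbR : 1 ≤ b * R) {M : ℕ} (hM : 2 ≤ M) (t : ℝ) :
    VV g M t = ∫ ξ, hm ξ * wsum b P (M ^ R) (t + (-(2 * Real.pi * dl M)) * ξ) := by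
  have hM0 : (0 : ℝ) < M := by exact_mod_cast (by omega : 0 < M)
  have hM1 : (1 : ℝ) < M := by exact_mod_cast (by omega : 1 < M)
  have hl : 0 < Real.log (M : ℝ) := Real.log_pos hM1
  have hRp : (0 : ℝ) < R := by exact_mod_cast hR1
  set K := ⌊((M ^ R : ℕ) : ℝ) ^ b⌋₊ with hK
  have hMK : M ≤ K := by
    refine Nat.le_floor ?_
    push_cast
    rw [← Real.rpow_natCast, ← Real.rpow_mul hM0.le]
    calc (M : ℝ) = (M : ℝ) ^ (1 : ℝ) := (Real.rpow_one _).symm
      _ ≤ _ := Real.rpow_le_rpow_of_exponent_le hM1.le (by linarith)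
  -- terms
  have hterm : ∀ n ∈ Finset.Icc 1 K, ∀ ξ : ℝ, P (Real.log n / Real.log ((M ^ R : ℕ) : ℝ)) *
      (n : ℂ) ^ (-(1 / 2 + ((t + (-(2 * Real.pi * dl M)) * ξ : ℝ) : ℂ) * Complex.I) : ℂ) =
      P (dl M * Real.log n / R) * (n : ℂ) ^ (-(1 / 2 + t * Complex.I) : ℂ) *
        Complex.exp (((2 * Real.pi * ξ * (dl M * Real.log n) : ℝ) : ℂ) * Complex.I) := by
    intro n hn ξ
    have hn0 : n ≠ 0 := by have := (Finset.mem_Icc.1 hn).1; omega
    have e1 : Real.log n / Real.log ((M ^ R : ℕ) : ℝ) = dl M * Real.log n / R := by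
      push_cast
      rw [Real.log_pow]
      unfold dl
      field_simp
    have e5 : Complex.exp (Real.log n *
        (-(1 / 2 + ((t + (-(2 * Real.pi * dl M)) * ξ : ℝ) : ℂ) * Complex.I))) =
        Complex.exp (Real.log n * (-(1 / 2 + (t : ℂ) * Complex.I))) *
        Complex.exp (((2 * Real.pi * ξ * (dl M * Real.log n) : ℝ) : ℂ) * Complex.I) := by
      rw [← Complex.exp_add]
      congr 1
      push_cast
      ring
    rw [e1, nat_cpow n hn0, nat_cpow n hn0, e5]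
    ring
  have hint : ∀ n ∈ Finset.Icc 1 K, Integrable fun ξ => hm ξ *
      (P (dl M * Real.log n / R) * (n : ℂ) ^ (-(1 / 2 + t * Complex.I) : ℂ) *
        Complex.exp (((2 * Real.pi * ξ * (dl M * Real.log n) : ℝ) : ℂ) * Complex.I)) := by
    intro n _
    refine H.hi.mul_bdd (c := ‖P (dl M * Real.log n / R) *
      (n : ℂ) ^ (-(1 / 2 + t * Complex.I) : ℂ)‖) ?_ (Eventually.of_forall fun ξ => ?_)
    · have : Continuous fun ξ : ℝ => P (dl M * Real.log n / R) *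
        (n : ℂ) ^ (-(1 / 2 + t * Complex.I) : ℂ) *
        Complex.exp (((2 * Real.pi * ξ * (dl M * Real.log n) : ℝ) : ℂ) * Complex.I) := by fun_prop
      exact this.aestronglyMeasurable
    · rw [norm_mul _ (Complex.exp _), Complex.norm_exp_ofReal_mul_I, mul_one]
  have e1 : (fun ξ => hm ξ * wsum b P (M ^ R) (t + (-(2 * Real.pi * dl M)) * ξ)) =
      fun ξ => ∑ n ∈ Finset.Icc 1 K, hm ξ *
      (P (dl M * Real.log n / R) * (n : ℂ) ^ (-(1 / 2 + t * Complex.I) : ℂ) *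
        Complex.exp (((2 * Real.pi * ξ * (dl M * Real.log n) : ℝ) : ℂ) * Complex.I)) := by
    funext ξ
    unfold wsum
    rw [Finset.mul_sum]
    exact Finset.sum_congr rfl fun n hn => by rw [hterm n hn ξ]
  rw [e1, integral_finsetSum _ hint]
  have e2 : ∀ n ∈ Finset.Icc 1 K, ∫ ξ, hm ξ *
      (P (dl M * Real.log n / R) * (n : ℂ) ^ (-(1 / 2 + t * Complex.I) : ℂ) *
        Complex.exp (((2 * Real.pi * ξ * (dl M * Real.log n) : ℝ) : ℂ) * Complex.I)) =
      g (dl M * Real.log n) * (n : ℂ) ^ (-(sp (dl M) t 0)) := by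
    intro n hn
    have hn0 : n ≠ 0 := by have := (Finset.mem_Icc.1 hn).1; omega
    have e3 : ∀ ξ, hm ξ * (P (dl M * Real.log n / R) * (n : ℂ) ^ (-(1 / 2 + t * Complex.I) : ℂ) *
        Complex.exp (((2 * Real.pi * ξ * (dl M * Real.log n) : ℝ) : ℂ) * Complex.I)) =
        (P (dl M * Real.log n / R) * (n : ℂ) ^ (-(1 / 2 + t * Complex.I) : ℂ)) * (hm ξ *
        Complex.exp (((2 * Real.pi * ξ * (dl M * Real.log n) : ℝ) : ℂ) * Complex.I)) :=
      fun ξ => by ring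
    simp_rw [e3]
    rw [integral_const_mul, ← H.inv]
    have e4 := hid (dl M * Real.log n)
    calc P (dl M * Real.log n / R) * (n : ℂ) ^ (-(1 / 2 + t * Complex.I) : ℂ) *
          m (dl M * Real.log n) = (P (dl M * Real.log n / R) * m (dl M * Real.log n)) *
          (n : ℂ) ^ (-(1 / 2 + t * Complex.I) : ℂ) := by ring
      _ = _ := by
          rw [e4, sp_zero, nat_cpow n hn0, nat_cpow n hn0, mul_assoc, ← Complex.exp_add]
          congr 2
          push_cast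
          ring
  rw [Finset.sum_congr rfl e2]
  have hz : ∀ n : ℕ, M ≤ n → g (dl M * Real.log n) * (n : ℂ) ^ (-(sp (dl M) t 0)) = 0 := by
    intro n hn
    rw [hg1, zero_mul]
    unfold dl
    rw [one_div, ← div_eq_inv_mul, le_div_iff₀ hl, one_mul]
    exact Real.log_le_log hM0 (by exact_mod_cast hn)
  unfold VV
  have s1 : ∑ n ∈ Finset.Icc 1 M, g (dl M * Real.log n) * (n : ℂ) ^ (-(sp (dl M) t 0)) =
      ∑ n ∈ Finset.Icc 1 (M ^ 2), g (dl M * Real.log n) * (n : ℂ) ^ (-(sp (dl M) t 0)) := by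
    refine Finset.sum_subset (Finset.Icc_subset_Icc_right (by nlinarith)) fun n hn hn' => ?_
    refine hz n ?_
    by_contra h
    exact hn' (Finset.mem_Icc.2 ⟨(Finset.mem_Icc.1 hn).1, by omega⟩)
  have s2 : ∑ n ∈ Finset.Icc 1 M, g (dl M * Real.log n) * (n : ℂ) ^ (-(sp (dl M) t 0)) =
      ∑ n ∈ Finset.Icc 1 K, g (dl M * Real.log n) * (n : ℂ) ^ (-(sp (dl M) t 0)) := by
    refine Finset.sum_subset (Finset.Icc_subset_Icc_right hMK) fun n hn hn' => ?_
    refine hz n ?_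
    by_contra h
    exact hn' (Finset.mem_Icc.2 ⟨(Finset.mem_Icc.1 hn).1, by omega⟩)
  rw [← s1, s2]

/-- **lower bound for weighted sums** -/
theorem wsum_lower {k : ℝ} (hk : 1 ≤ k) (hk4 : k ≤ 4) {b : ℝ} (hb : 0 < b) {P : ℝ → ℂ}
    (hP : ContDiff ℝ ∞ P) (hP0 : P 0 ≠ 0) : ∃ R : ℕ, 1 ≤ R ∧ ∃ c1 : ℝ, 0 < c1 ∧
    ∀ M : ℝ → ℕ, Adm M → ∀ᶠ T in atTop,
      c1 * SS k M T ≤ nI k 0 (3 * T) (wsum b P (M T ^ R)) := by
  have hk0 : 0 < k := by linarith
  obtain ⟨g, hg, hgs, hg1, hg2, c0, hc0, hlow⟩ := VV_lower hk hk4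
  -- the neighbourhood
  obtain ⟨r, hr, hPr⟩ : ∃ r : ℝ, 0 < r ∧ ∀ x, |x| ≤ r → P x ≠ 0 := by
    have h1 : ∀ᶠ x in 𝓝 (0 : ℝ), P x ≠ 0 := hP.continuous.continuousAt.eventually_ne hP0
    obtain ⟨r, hr, h2⟩ := Metric.eventually_nhds_iff.1 h1
    refine ⟨r / 2, half_pos hr, fun x hx => h2 ?_⟩
    rw [Real.dist_eq, sub_zero]
    linarith
  obtain ⟨R, hR⟩ := exists_nat_ge (1 + 2 / r + 1 / b)
  have h2r : 0 < 2 / r := by positivity
  have h1b : 0 < 1 / b := by positivity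
  have hRr : 2 / r ≤ R := by linarith
  have hRb' : 1 / b ≤ R := by linarith
  have hR1' : (1 : ℝ) ≤ R := by linarith
  have hR1 : 1 ≤ R := by exact_mod_cast hR1'
  have hbR : 1 ≤ b * R := by
    rw [div_le_iff₀ hb] at hRb'
    linarith
  obtain ⟨m, hm, H, hid⟩ := exists_mult hg hgs hg1 hg2 hP hr hPr hR1 hRr
  obtain ⟨p0, hp0, hpb⟩ := wsum_bound b hP.continuous
  set h1 : ℝ := ∫ ξ, ‖hm ξ‖ with hh1
  set h2 : ℝ := ∫ ξ, |ξ| * ‖hm ξ‖ with hh2
  have hh10 : 0 ≤ h1 := integral_nonneg fun ξ => norm_nonneg _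
  have hh20 : 0 ≤ h2 := integral_nonneg fun ξ => by positivity
  refine ⟨R, hR1, c0 / (2 * (h1 + 1)), by positivity, fun M hM => ?_⟩
  have hsm := (hM.small (R * b) 1 one_pos).const_mul (p0 * 2 * h2)
  rw [mul_zero] at hsm
  have hc04 : 0 < c0 / 4 := by positivity
  filter_upwards [hlow M hM, hsm.eventually (gt_mem_nhds hc04), SS_ge hk0 hM, hM.two,
    eventually_gt_atTop 1,
    hM.delta.eventually (gt_mem_nhds (show (0 : ℝ) < 1 / 4 by norm_num))] with T b1 b2 b3 b4 b5 b6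
  have hpi := Real.pi_pos
  have hδ := dl_pos b4
  set δ := dl (M T) with hδdef
  have hT0 : 0 < T := by linarith
  have hSS : 0 ≤ SS k M T := SS_nonneg k M hT0.le
  have hpd : 2 * Real.pi * δ ≤ 2 := by
    have := Real.pi_le_four
    nlinarith
  have hpd0 : 0 < 2 * Real.pi * δ := by positivity
  set c : ℝ := -(2 * Real.pi * δ) with hc
  set Ξ : ℝ := T / (2 * Real.pi * δ) with hΞ
  have hΞ0 : 0 < Ξ := by positivity
  have hΞT : T / 2 ≤ Ξ := by
    rw [hΞ]
    gcongr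
  have hΞc : 2 * Real.pi * δ * Ξ = T := by rw [hΞ]; field_simp
  set W : ℝ → ℂ := wsum b P (M T ^ R) with hW
  have hWc : Continuous W := wsum_cont _ _ _
  have hM1 : (1 : ℝ) ≤ M T := by exact_mod_cast (by omega : 1 ≤ M T)
  have hMR : 2 ≤ M T ^ R := by
    calc 2 ≤ M T := b4
      _ = M T ^ 1 := (pow_one _).symm
      _ ≤ M T ^ R := Nat.pow_le_pow_right (by omega) hR1
  set S : ℝ := p0 * (M T : ℝ) ^ ((R : ℝ) * b) with hS
  have hS0 : 0 ≤ S := by positivity
  have hWb : ∀ t, ‖W t‖ ≤ S := by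
    intro t
    have h3 := hpb (M T ^ R) hMR t
    rw [hS]
    refine h3.trans (le_of_eq ?_)
    congr 1
    push_cast
    rw [← Real.rpow_natCast, ← Real.rpow_mul (by linarith)]
  set A2 : Set ℝ := Set.Icc (-Ξ) Ξ with hA2
  have hA2c : IsCompact A2 := isCompact_Icc
  set F : ℝ → ℝ := fun t => ∫ ξ in A2, ‖hm ξ‖ * ‖W (t + c * ξ)‖ with hF
  have hFc : Continuous F := conv_cont hA2c H.hc.norm hWc.norm c
  have hF0 : ∀ t, 0 ≤ F t := fun t => integral_nonneg fun ξ => by positivity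
  set G : ℝ := S * (2 / T * h2) with hG
  have hG0 : 0 ≤ G := by positivity
  have n2 : nI k T (2 * T) (fun t => (F t : ℂ)) ≤ h1 * nI k 0 (3 * T) W := by
    have y := young hk (A := A2) hA2c (w := fun ξ => ‖hm ξ‖) (f := fun t => ‖W t‖)
      H.hc.norm (fun _ => norm_nonneg _) hWc.norm (fun _ => norm_nonneg _) (c := c) (D := T)
      (fun ξ hξ => by
        rw [hc, abs_mul, abs_neg, abs_of_pos hpd0]
        have h9 : |ξ| ≤ Ξ := abs_le.2 ⟨hξ.1, hξ.2⟩
        calc 2 * Real.pi * δ * |ξ| ≤ 2 * Real.pi * δ * Ξ := by gcongr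
          _ = T := hΞc) T (2 * T)
    have e1 : T - T = 0 := by ring
    have e2 : 2 * T + T = 3 * T := by ring
    rw [e1, e2] at y
    refine y.trans ?_
    have e4 : nI k 0 (3 * T) (fun t => ((‖W t‖ : ℝ) : ℂ)) = nI k 0 (3 * T) W :=
      nI_congr fun t _ => by rw [Complex.norm_real, norm_norm]
    rw [e4]
    have e5 : ∫ ξ in A2, ‖hm ξ‖ ≤ h1 :=
      setIntegral_le_integral H.hi.norm (Eventually.of_forall fun ξ => norm_nonneg _)
    exact mul_le_mul_of_nonneg_right e5 (nI_nonneg _ _ _ _)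
  have n3 : nI k T (2 * T) (fun _ => (G : ℂ)) ≤ c0 / 4 * SS k M T := by
    rw [nI_const hk0 (by linarith), Complex.norm_real, Real.norm_of_nonneg hG0]
    have e1 : 2 * T - T = T := by ring
    rw [e1]
    have e2 : G = p0 * 2 * h2 * ((M T : ℝ) ^ ((R : ℝ) * b) / T ^ (1 : ℝ)) := by
      rw [hG, hS, Real.rpow_one]
      field_simp
    rw [e2]
    calc _ ≤ c0 / 4 * T ^ (1 / k) := mul_le_mul_of_nonneg_right b2.le (by positivity)
      _ ≤ _ := mul_le_mul_of_nonneg_left b3 hc04.le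
  have hpt : ∀ t ∈ Set.Icc T (2 * T), ‖VV g (M T) t‖ ≤ ‖(F t : ℂ) + (G : ℂ)‖ := by
    intro t _
    have hR : ‖(F t : ℂ) + (G : ℂ)‖ = F t + G := by
      rw [← Complex.ofReal_add, Complex.norm_real, Real.norm_of_nonneg]
      have := hF0 t
      positivity
    rw [hR, mult_id H hg1 hR1 hid hbR b4 t]
    have hzc : Continuous fun ξ : ℝ => W (t + c * ξ) := hWc.comp (by fun_prop)
    have hzi : Integrable fun ξ => hm ξ * W (t + c * ξ) :=
      H.hi.mul_bdd (c := S) hzc.aestronglyMeasurable (Eventually.of_forall fun ξ => hWb _)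
    have hsub : (Set.univ : Set ℝ) ⊆ A2 ∪ (Set.Icc (-Ξ) Ξ)ᶜ := by
      intro ξ _
      exact em _
    calc ‖∫ ξ, hm ξ * W (t + c * ξ)‖ ≤ ∫ ξ, ‖hm ξ * W (t + c * ξ)‖ :=
          norm_integral_le_integral_norm _
      _ = ∫ ξ in Set.univ, ‖hm ξ * W (t + c * ξ)‖ := by rw [setIntegral_univ]
      _ ≤ ∫ ξ in A2 ∪ (Set.Icc (-Ξ) Ξ)ᶜ, ‖hm ξ * W (t + c * ξ)‖ :=
          setIntegral_mono_set hzi.norm.integrableOn
            (Eventually.of_forall fun ξ => norm_nonneg _) hsub.eventuallyLE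
      _ ≤ (∫ ξ in A2, ‖hm ξ * W (t + c * ξ)‖) +
          ∫ ξ in (Set.Icc (-Ξ) Ξ)ᶜ, ‖hm ξ * W (t + c * ξ)‖ :=
          union_le hzi.norm (fun ξ => norm_nonneg _) hA2c.measurableSet
            measurableSet_Icc.compl
      _ ≤ F t + G := by
          refine add_le_add (le_of_eq ?_) ?_
          · rw [hF]
            exact integral_congr_ae (Eventually.of_forall fun ξ => norm_mul _ _)
          · have hle : ∫ ξ in (Set.Icc (-Ξ) Ξ)ᶜ, ‖hm ξ * W (t + c * ξ)‖ ≤
                ∫ ξ in (Set.Icc (-Ξ) Ξ)ᶜ, S * (2 / T) * (|ξ| * ‖hm ξ‖) := by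
              refine setIntegral_mono_on hzi.norm.integrableOn
                (H.hi1.const_mul _).integrableOn measurableSet_Icc.compl fun ξ hξ => ?_
              have h21 : T / 2 ≤ |ξ| := by
                by_contra h22
                refine hξ (abs_le.1 ?_)
                linarith [not_le.1 h22]
              have h22 : 1 ≤ 2 / T * |ξ| := by
                rw [div_mul_eq_mul_div, le_div_iff₀ hT0]
                linarith
              rw [norm_mul]
              calc ‖hm ξ‖ * ‖W (t + c * ξ)‖ ≤ ‖hm ξ‖ * S :=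
                    mul_le_mul_of_nonneg_left (hWb _) (norm_nonneg _)
                _ = (‖hm ξ‖ * S) * 1 := (mul_one _).symm
                _ ≤ (‖hm ξ‖ * S) * (2 / T * |ξ|) :=
                    mul_le_mul_of_nonneg_left h22 (by positivity)
                _ = _ := by ring
            refine hle.trans ?_
            rw [integral_const_mul, hG, mul_assoc]
            refine mul_le_mul_of_nonneg_left (mul_le_mul_of_nonneg_left ?_ (by positivity)) hS0
            exact setIntegral_le_integral H.hi1 (Eventually.of_forall fun ξ => by positivity)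
  have hc3 : Continuous fun t => (F t : ℂ) := Complex.continuous_ofReal.comp hFc
  have m1 := nI_mono hk0 (VV_cont g (M T)) (addc hc3 continuous_const) hpt
  have m3 := nI_add_le hk T (2 * T) hc3 (continuous_const (y := (G : ℂ)))
  have m4 : c0 * SS k M T ≤ h1 * nI k 0 (3 * T) W + c0 / 4 * SS k M T := by linarith
  have hnW := nI_nonneg k 0 (3 * T) W
  rw [div_mul_eq_mul_div, div_le_iff₀ (by positivity)]
  nlinarith

/-- slower choices -/
lemma Adm.third {N : ℝ → ℕ} (h : Adm N) : Adm (fun T => N (T / 3)) := by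
  have h0 : Tendsto (fun T : ℝ => T / 3) atTop atTop := tendsto_id.atTop_div_const (by norm_num)
  refine ⟨h.1.comp h0, ?_⟩
  have h1 := h.2.comp h0
  refine squeeze_zero_norm' ?_ h1
  filter_upwards [(h.1.comp h0).eventually_ge_atTop 2, eventually_gt_atTop 6] with T h2 h3
  simp only [Function.comp] at h2
  have h4 : 0 < Real.log (N (T / 3)) := Real.log_pos (by exact_mod_cast h2)
  have h5 : 0 < Real.log (T / 3) := Real.log_pos (by linarith)
  have h6 : Real.log (T / 3) ≤ Real.log T := Real.log_le_log (by linarith) (by linarith)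
  have h7 : 0 < Real.log T := by linarith
  simp only [Function.comp]
  rw [Real.norm_of_nonneg (div_nonneg h4.le h7.le)]
  exact div_le_div_of_nonneg_left h4.le h5 h6

/-- **the asymptotic formula for a single weighted sum, with positive constant** -/
theorem wsum_pos {k : ℝ} (hk : 1 ≤ k) (hk4 : k ≤ 4) {b : ℝ} (hb : 0 < b) {P : ℝ → ℂ}
    (hP : ContDiff ℝ ∞ P) (hPb : 1 < k ∨ ∀ x, b ≤ x → P x = 0) (hP0 : P 0 ≠ 0) :
    ∃ c : ℝ, 0 < c ∧ ∀ ε : ℝ, 0 < ε →
    ∃ θ : ℝ, 0 < θ ∧ ∃ N0 : ℕ, ∀ N : ℕ, N0 ≤ N → ∀ T : ℝ, (N : ℝ) ^ (1 / θ) ≤ T →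
      |(1 / T * ∫ t in (0 : ℝ)..T, ‖wsum b P N t‖ ^ k) / Real.log N ^ (k ^ 2 / 4) - c| ≤ ε := by
  have hk0 : 0 < k := by linarith
  set Φ : (Fin 1 → ℂ) → ℝ := fun z => ‖z 0‖ ^ k with hΦ
  have hc : Continuous Φ := (continuous_apply 0).norm.rpow_const fun _ => Or.inr hk0.le
  have hh : Hom k Φ := by
    intro l z
    simp only [hΦ]
    rw [norm_mul, Real.mul_rpow (norm_nonneg _) (norm_nonneg _)]
  obtain ⟨c, hlim⟩ := model_seq hk hk4 (m := 1) (fun _ => wsum b P)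
    (fun _ => Or.inl ⟨b, P, hb, hP, hPb, rfl⟩) (fun _ => 0) hc hh
  have hlim' : ∀ N : ℝ → ℕ, Adm N → Tendsto (fun T => (1 / T * ∫ t in (0 : ℝ)..T,
      ‖wsum b P (N T) t‖ ^ k) / Real.log (N T) ^ (k ^ 2 / 4)) atTop (𝓝 c) := by
    intro N hN
    refine (hlim N hN).congr fun T => ?_
    simp only [hΦ, zero_div, add_zero]
  refine ⟨c, ?_, unif (fun N T => (1 / T * ∫ t in (0 : ℝ)..T, ‖wsum b P N t‖ ^ k) /
    Real.log N ^ (k ^ 2 / 4)) c hlim'⟩
  obtain ⟨R, hR1, c1, hc1, hlow⟩ := wsum_lower hk hk4 hb hP hP0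
  have hRp : (0 : ℝ) < R := by exact_mod_cast hR1
  obtain ⟨M, hM⟩ := exists_adm
  have h3 : Tendsto (fun T : ℝ => 3 * T) atTop atTop := tendsto_id.const_mul_atTop (by norm_num)
  have h4 := (hlim' _ ((Adm.third hM).pow hR1)).comp h3
  set c2 : ℝ := c1 ^ k / 3 / (2 ^ (k ^ 2 / 4) * (R : ℝ) ^ (k ^ 2 / 4)) with hc2
  have hc20 : 0 < c2 := by positivity
  refine lt_of_lt_of_le hc20 (ge_of_tendsto h4 ?_)
  filter_upwards [hlow M hM, eventually_gt_atTop 0, hM.logpos, hM.pos] with T h5 h6 h7 h8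
  simp only [Function.comp]
  have e1 : 3 * T / 3 = T := by ring
  rw [e1]
  have hS := SS_nonneg k M h6.le
  have h9 := Real.rpow_le_rpow (mul_nonneg hc1.le hS) h5 hk0.le
  rw [Real.mul_rpow hc1.le hS, nI_rpow hk0, SS_rpow hk0 M h6.le, integral_Icc_eq_integral_Ioc,
    ← intervalIntegral.integral_of_le (by linarith)] at h9
  have e2 : (2 * dl (M T)) ^ (-((k / 2) ^ 2)) =
      Real.log (M T) ^ (k ^ 2 / 4) / 2 ^ (k ^ 2 / 4) := by
    rw [Real.mul_rpow (by norm_num) h8.le]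
    unfold dl
    have e3 : (k / 2) ^ 2 = k ^ 2 / 4 := by ring
    rw [e3, one_div, Real.inv_rpow h7.le, Real.rpow_neg h7.le, inv_inv,
      Real.rpow_neg (by norm_num)]
    ring
  rw [e2] at h9
  have hL : 0 < Real.log (M T) ^ (k ^ 2 / 4) := Real.rpow_pos_of_pos h7 _
  have e4 : Real.log ((M T ^ R : ℕ) : ℝ) ^ (k ^ 2 / 4) =
      (R : ℝ) ^ (k ^ 2 / 4) * Real.log (M T) ^ (k ^ 2 / 4) := by
    push_cast
    rw [Real.log_pow, Real.mul_rpow hRp.le h7.le]
  rw [e4, le_div_iff₀ (by positivity)]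
  set I := ∫ t in (0 : ℝ)..(3 * T), ‖wsum b P (M T ^ R) t‖ ^ k with hI
  have h10 : c2 * ((R : ℝ) ^ (k ^ 2 / 4) * Real.log (M T) ^ (k ^ 2 / 4)) =
      1 / (3 * T) * (c1 ^ k * (T * (Real.log (M T) ^ (k ^ 2 / 4) / 2 ^ (k ^ 2 / 4)))) := by
    rw [hc2]
    field_simp
  rw [h10]
  exact mul_le_mul_of_nonneg_left h9 (by positivity)

end Pool.Agent.H7.PV
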