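import Pool.Agent.H7.PV.V1

set_option autoImplicit false
open MeasureTheory Metric Filter ProbabilityTheory
open scoped ComplexConjugate ENNReal Topology ContDiff

/-! Averages of shifted values of zeta. -/

namespace Pool.Agent.H7.PV

open Pool.Agent.H7.PM (dl dl_pos dl_nonneg dl_tendsto log_dl)
open Pool.Agent.H7.PT hiding Zup Dup cmb_lim young EE_small
open Pool.Agent.V11128.CXL

/-- averages -/
noncomputable def II (h : ℝ → ℂ) (δ t : ℝ) : ℂ := ∫ ξ, h ξ * riemannZeta (sp δ t ξ)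

lemma II_cont {g h : ℝ → ℂ} (H : WD g h) {δ : ℝ} (hδ : 0 < δ) (hδ1 : δ < 1 / 4) :
    Continuous (II h δ) := by
  refine continuous_iff_continuousAt.2 fun t0 => ?_
  unfold II
  refine continuousAt_of_dominated (bound := fun ξ => ‖h ξ‖ * ((5 + 2 * (1 + (|t0| + 1))) + 4 * |ξ|))
    (Eventually.of_forall fun t => (H.hc.mul (zsp_cont hδ1 t)).aestronglyMeasurable) ?_
    (integrable_poly H _ _) (Eventually.of_forall fun ξ => ?_)
  · filter_upwards [Metric.ball_mem_nhds t0 one_pos] with t ht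
    refine Eventually.of_forall fun ξ => ?_
    rw [norm_mul]
    refine mul_le_mul_of_nonneg_left ?_ (norm_nonneg _)
    have h1 := zeta_bd (s := sp δ t ξ) (by rw [sp_re]; linarith) (by rw [sp_re]; linarith)
    have h2 := sp_norm hδ hδ1 t ξ
    rw [Metric.mem_ball, Real.dist_eq] at ht
    have h3 : |t| ≤ |t0| + 1 := by
      have h4 := abs_sub_abs_le_abs_sub t t0
      linarith
    linarith
  · have h1 : ContinuousAt (fun t : ℝ => sp δ t ξ) t0 := by
      have : Continuous fun t : ℝ => sp δ t ξ := by unfold sp; fun_prop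
      exact this.continuousAt
    have h2 : ContinuousAt riemannZeta ((fun t : ℝ => sp δ t ξ) t0) :=
      (differentiableAt_riemannZeta (sp_ne hδ1 t0 ξ)).continuousAt
    exact continuousAt_const.mul (ContinuousAt.comp (f := fun t : ℝ => sp δ t ξ) h2 h1)

/-- the contribution of the pole is negligible -/
theorem EE_small {k : ℝ} (hk : 1 ≤ k) {g : ℝ → ℂ} (hg : ContDiff ℝ ∞ g)
    (hs : HasCompactSupport g) (hg2 : ∀ x, 2 ≤ x → g x = 0) {N : ℝ → ℕ} (hN : Adm N) {ε : ℝ}
    (hε : 0 < ε) : ∀ᶠ T in atTop,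
    nI k (-(2 * T)) (2 * T) (EE g (dl (N T))) ≤ ε * SS k N T := by
  have hk0 : 0 < k := by linarith
  obtain ⟨C, hC, h⟩ := EE_norm hg hs hg2
  have hsm : Tendsto (fun T : ℝ => C * (4 * ((N T : ℝ) ^ (1 : ℝ) / T ^ (1 / (2 * k))) * 2 ^ (1 / k) +
      2 * ((N T : ℝ) ^ (1 : ℝ) / T ^ (1 / 2 : ℝ)) * 2 ^ (1 / k))) atTop (𝓝 (C *
      (4 * 0 * 2 ^ (1 / k) + 2 * 0 * 2 ^ (1 / k)))) :=
    ((((hN.small 1 _ (by positivity)).const_mul 4).mul_const _).add
      (((hN.small 1 _ (by positivity)).const_mul 2).mul_const _)).const_mul C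
  have e0 : C * (4 * 0 * 2 ^ (1 / k) + 2 * 0 * 2 ^ (1 / k)) = 0 := by ring
  rw [e0] at hsm
  filter_upwards [hsm.eventually (gt_mem_nhds hε), SS_ge hk0 hN, hN.two,
    hN.delta.eventually (gt_mem_nhds (show (0 : ℝ) < 1 / 4 by norm_num)),
    eventually_ge_atTop 1] with T h1 h2 h3 h4 h5
  have hδ := dl_pos h3
  set δ := dl (N T) with hδdef
  have hN0 : (0 : ℝ) < N T := by exact_mod_cast (by omega : 0 < N T)
  have hexp : Real.exp (1 / δ) = N T := by
    rw [hδdef]
    unfold dl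
    rw [one_div_one_div, Real.exp_log hN0]
  have hT0 : 0 < T := by linarith
  set R := T ^ (1 / 2 : ℝ) with hR
  have hR0 : 0 < R := by positivity
  have hR1 : 1 ≤ R := Real.one_le_rpow h5 (by norm_num)
  have hRT : R ≤ T := by
    calc R ≤ T ^ (1 : ℝ) := Real.rpow_le_rpow_of_exponent_le h5 (by norm_num)
      _ = T := Real.rpow_one T
  have hc := EE_cont hg.continuous hs hδ
  -- bounds
  have hre : (1 - sp δ 0 0).re = 1 / 2 - δ := one_sub_re δ 0 0
  have b1 : ∀ t, ‖EE g δ t‖ ≤ 4 * C * N T := by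
    intro t
    refine (h δ hδ h4 t).trans ?_
    rw [hexp]
    have h6 : 1 / 4 ≤ ‖1 - sp δ t 0‖ := by
      have := Complex.abs_re_le_norm (1 - sp δ t 0)
      rw [one_sub_re, abs_of_pos (by linarith)] at this
      linarith
    calc C * N T / ‖1 - sp δ t 0‖ ≤ C * N T / (1 / 4) := by gcongr
      _ = _ := by ring
  have b2 : ∀ t, R ≤ |t| → ‖EE g δ t‖ ≤ C * N T / R := by
    intro t ht
    refine (h δ hδ h4 t).trans ?_
    rw [hexp]
    have h6 : R ≤ ‖1 - sp δ t 0‖ := by
      have h7 := Complex.abs_im_le_norm (1 - sp δ t 0)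
      rw [Complex.sub_im, sp_im, Complex.one_im] at h7
      have e : 0 - (t + -(2 * Real.pi * 0) * δ) = -t := by ring
      rw [e, abs_neg] at h7
      linarith
    gcongr
  have n1 := nI_le_const hk0 (a := -R) (b := R) (by linarith) hc (C := 4 * C * N T)
    fun t _ => b1 t
  have n2 := nI_le_const hk0 (a := R) (b := 2 * T) (by linarith) hc (C := C * N T / R)
    fun t ht => b2 t (ht.1.trans (le_abs_self t))
  have n3 := nI_le_const hk0 (a := -(2 * T)) (b := -R) (by linarith) hc (C := C * N T / R)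
    fun t ht => b2 t (by
      have := ht.2
      rw [abs_of_nonpos (by linarith)]
      linarith)
  have s1 := nI_split hk (a := -(2 * T)) (b := -R) (c := 2 * T) (by linarith) (by linarith) hc
  have s2 := nI_split hk (a := -R) (b := R) (c := 2 * T) (by linarith) (by linarith) hc
  have l1 : (R - -R) ^ (1 / k) = 2 ^ (1 / k) * (T ^ (1 / k) / T ^ (1 / (2 * k))) := by
    have e1 : R - -R = 2 * R := by ring
    rw [e1, Real.mul_rpow (by norm_num) hR0.le, hR, ← Real.rpow_mul hT0.le,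
      ← Real.rpow_sub hT0]
    congr 2
    field_simp
    ring
  have l2 : (2 * T - R) ^ (1 / k) ≤ 2 ^ (1 / k) * T ^ (1 / k) := by
    rw [← Real.mul_rpow (by norm_num) hT0.le]
    exact Real.rpow_le_rpow (by linarith) (by linarith) (by positivity)
  have l3 : (-R - -(2 * T)) ^ (1 / k) ≤ 2 ^ (1 / k) * T ^ (1 / k) := by
    rw [← Real.mul_rpow (by norm_num) hT0.le]
    exact Real.rpow_le_rpow (by linarith) (by linarith) (by positivity)
  have hCR : 0 ≤ C * N T / R := by positivity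
  have m2 := n2.trans (mul_le_mul_of_nonneg_left l2 hCR)
  have m3 := n3.trans (mul_le_mul_of_nonneg_left l3 hCR)
  rw [l1] at n1
  have hTk : 0 < T ^ (1 / k) := by positivity
  calc nI k (-(2 * T)) (2 * T) (EE g δ) ≤ C * N T / R * (2 ^ (1 / k) * T ^ (1 / k)) +
        (4 * C * N T * (2 ^ (1 / k) * (T ^ (1 / k) / T ^ (1 / (2 * k)))) +
        C * N T / R * (2 ^ (1 / k) * T ^ (1 / k))) := by linarith
    _ = C * (4 * ((N T : ℝ) ^ (1 : ℝ) / T ^ (1 / (2 * k))) * 2 ^ (1 / k) +
      2 * ((N T : ℝ) ^ (1 : ℝ) / R) * 2 ^ (1 / k)) * T ^ (1 / k) := by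
        rw [Real.rpow_one]; ring
    _ ≤ ε * T ^ (1 / k) := mul_le_mul_of_nonneg_right h1.le hTk.le
    _ ≤ ε * SS k N T := mul_le_mul_of_nonneg_left h2 hε.le

theorem approx_I {k : ℝ} (hk : 1 ≤ k) (hk4 : k ≤ 4) {g h : ℝ → ℂ} (H : WD g h) {ε : ℝ}
    (hε : 0 < ε) :
    ∃ (n : ℕ) (w : Fin n → ℂ) (a : Fin n → ℝ), ∀ N : ℝ → ℕ, Adm N → ∀ᶠ T in atTop,
      nI k (-(2 * T)) (2 * T) (fun t => II h (dl (N T)) t - cmb w a (dl (N T)) t) ≤
        ε * SS k N T := by
  have hk0 : 0 < k := by linarith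
  have hpi := Real.pi_pos
  obtain ⟨CZ, hCZ, HZ⟩ := Zup hk hk4
  obtain ⟨CD, hCD, HD⟩ := Dup hk hk4
  -- the choice of J
  have ht1 := tail_tendsto H.hi.norm
  have ht2 := tail_tendsto H.hi1
  obtain ⟨J, hJ1, hJ⟩ : ∃ J : ℕ, 1 ≤ J ∧
      (∫ ξ in (Set.Icc (-(J : ℝ)) J)ᶜ, ‖h ξ‖) * CZ ≤ ε / 4 := by
    have h1 := (ht1.comp tendsto_natCast_atTop_atTop).mul_const CZ
    rw [zero_mul] at h1
    obtain ⟨J, hJ, hJ1⟩ := ((h1.eventually (gt_mem_nhds (show (0 : ℝ) < ε / 4 by positivity))).and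
      (eventually_ge_atTop 1)).exists
    exact ⟨J, hJ1, hJ.le⟩
  have hJ0 : (1 : ℝ) ≤ J := by exact_mod_cast hJ1
  obtain ⟨Hb', hHb'⟩ := (isCompact_Icc (a := -(J : ℝ)) (b := J)).exists_bound_of_continuousOn
    H.hc.continuousOn
  set Hb := max Hb' 0 with hHbdef
  have hHb : ∀ ξ ∈ Set.Icc (-(J : ℝ)) J, ‖h ξ‖ ≤ Hb := fun ξ hξ =>
    (hHb' ξ hξ).trans (le_max_left _ _)
  have hHb0 : 0 ≤ Hb := le_max_right _ _
  obtain ⟨m, hm1, hm⟩ : ∃ m : ℕ, 1 ≤ m ∧
      Hb * (1 / (m : ℝ)) * (2 * Real.pi) * (2 * J) * CD ≤ ε / 4 := by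
    have h1 : Tendsto (fun m : ℕ => Hb * (1 / (m : ℝ)) * (2 * Real.pi) * (2 * J) * CD) atTop
        (𝓝 (Hb * 0 * (2 * Real.pi) * (2 * J) * CD)) :=
      ((((tendsto_one_div_atTop_nhds_zero_nat (𝕜 := ℝ)).const_mul Hb).mul_const _).mul_const
        _).mul_const _
    have e0 : Hb * 0 * (2 * Real.pi) * (2 * J) * CD = 0 := by ring
    rw [e0] at h1
    obtain ⟨m, hm, hm1⟩ := ((h1.eventually (gt_mem_nhds (show (0 : ℝ) < ε / 4 by positivity))).and
      (eventually_ge_atTop 1)).exists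
    exact ⟨m, hm1, hm.le⟩
  have hm0 : (0 : ℝ) < m := by exact_mod_cast hm1
  set x : ℕ → ℝ := fun j => -(J : ℝ) + j / m with hx
  have hxs : ∀ j, x (j + 1) = x j + 1 / m := by
    intro j
    simp only [hx]
    push_cast
    ring
  have hx0 : x 0 = -J := by simp [hx]
  have hxn : x (2 * J * m) = J := by
    simp only [hx]
    push_cast
    field_simp
    ring
  set n := 2 * J * m with hn
  refine ⟨n, fun j => ∫ ξ in (x j)..(x (j + 1)), h ξ, fun j => -(2 * Real.pi * x j),
    fun N hN => ?_⟩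
  have hsm : Tendsto (fun T : ℝ => 19 * (∫ ξ in (Set.Icc (-(T / 2)) (T / 2))ᶜ, |ξ| * ‖h ξ‖) *
      4 ^ (1 / k)) atTop (𝓝 (19 * 0 * 4 ^ (1 / k))) :=
    ((ht2.comp (tendsto_id.atTop_div_const (by norm_num : (0 : ℝ) < 2))).const_mul 19).mul_const _
  have e0 : 19 * 0 * (4 : ℝ) ^ (1 / k) = 0 := by ring
  rw [e0] at hsm
  filter_upwards [HZ N hN, HD N hN,
    hsm.eventually (gt_mem_nhds (show (0 : ℝ) < ε / 4 by positivity)), SS_ge hk0 hN, hN.two,
    hN.delta.eventually (gt_mem_nhds (show (0 : ℝ) < 1 / 4 by norm_num)),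
    eventually_ge_atTop (2 * (J : ℝ))] with T h1 h2 h4 h5 h6 h7 h8
  have hδ := dl_pos h6
  set δ := dl (N T) with hδdef
  have hT0 : 0 < T := by linarith
  have hT2 : 2 ≤ T := by linarith
  have hSS : 0 ≤ SS k N T := SS_nonneg k N hT0.le
  set w : Fin n → ℂ := fun j => ∫ ξ in (x j)..(x (j + 1)), h ξ with hw
  set a : Fin n → ℝ := fun j => -(2 * Real.pi * x j) with ha
  have hpd : 2 * Real.pi * δ ≤ 2 := by
    have := Real.pi_le_four
    nlinarith
  have hpd0 : 0 < 2 * Real.pi * δ := by positivity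
  set c : ℝ := -(2 * Real.pi * δ) with hc
  set Ξ : ℝ := T / (2 * Real.pi * δ) with hΞ
  have hΞ0 : 0 < Ξ := by positivity
  have hΞT : T / 2 ≤ Ξ := by
    rw [hΞ]
    gcongr
  have hΞc : 2 * Real.pi * δ * Ξ = T := by rw [hΞ]; field_simp
  set A2 : Set ℝ := Set.Icc (J : ℝ) Ξ ∪ Set.Icc (-Ξ) (-(J : ℝ)) with hA2
  have hA2c : IsCompact A2 := isCompact_Icc.union isCompact_Icc
  -- the functions
  set F1 : ℝ → ℝ := fun t => ∫ ξ in Set.Icc (-(J : ℝ)) J, (Hb * (1 / m) * (2 * Real.pi * δ)) *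
    ‖deriv riemannZeta (pt δ (t + c * ξ))‖ with hF1
  set F2 : ℝ → ℝ := fun t => ∫ ξ in A2, ‖h ξ‖ * ‖zc δ 0 (t + c * ξ)‖ with hF2
  set F3 : ℝ := 19 * ∫ ξ in (Set.Icc (-(T / 2)) (T / 2))ᶜ, |ξ| * ‖h ξ‖ with hF3
  have hdz : Continuous fun t => ‖deriv riemannZeta (pt δ t)‖ := (dz_cont h7).norm
  have hzz : Continuous fun t => ‖zc δ 0 t‖ := (zc_cont (by linarith) 0).norm
  have hF1c : Continuous F1 := conv_cont isCompact_Icc continuous_const hdz c
  have hF2c : Continuous F2 := conv_cont hA2c H.hc.norm hzz c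
  have hF10 : ∀ t, 0 ≤ F1 t := fun t => integral_nonneg fun ξ => by positivity
  have hF20 : ∀ t, 0 ≤ F2 t := fun t => integral_nonneg fun ξ => by positivity
  have hF30 : 0 ≤ F3 := mul_nonneg (by norm_num) (integral_nonneg fun ξ => by positivity)
  -- the norms
  have n1 : nI k (-(2 * T)) (2 * T) (fun t => (F1 t : ℂ)) ≤ ε / 4 * SS k N T := by
    have y := young hk (A := Set.Icc (-(J : ℝ)) J) isCompact_Icc
      (w := fun _ => Hb * (1 / m) * (2 * Real.pi * δ))
      (f := fun t => ‖deriv riemannZeta (pt δ t)‖) continuous_const (fun _ => by positivity) hdz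
      (fun _ => norm_nonneg _) (c := c) (D := T) (fun ξ hξ => by
        rw [hc, abs_mul, abs_neg, abs_of_pos hpd0]
        have h9 : |ξ| ≤ J := abs_le.2 hξ
        calc 2 * Real.pi * δ * |ξ| ≤ 2 * J := mul_le_mul hpd h9 (abs_nonneg _) (by norm_num)
          _ ≤ T := h8) (-(2 * T)) (2 * T)
    have e1 : -(2 * T) - T = -(3 * T) := by ring
    have e2 : 2 * T + T = 3 * T := by ring
    rw [e1, e2] at y
    refine y.trans ?_
    have e3 : ∫ _ξ in Set.Icc (-(J : ℝ)) J, Hb * (1 / m) * (2 * Real.pi * δ) =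
        2 * J * (Hb * (1 / m) * (2 * Real.pi * δ)) := by
      rw [setIntegral_const, smul_eq_mul, measureReal_def, Real.volume_Icc,
        ENNReal.toReal_ofReal (by linarith)]
      ring
    rw [e3]
    have e4 : nI k (-(3 * T)) (3 * T) (fun t => ((‖deriv riemannZeta (pt δ t)‖ : ℝ) : ℂ)) =
        nI k (-(3 * T)) (3 * T) (fun t => deriv riemannZeta (pt δ t)) :=
      nI_congr fun t _ => by rw [Complex.norm_real, norm_norm]
    rw [e4]
    calc 2 * J * (Hb * (1 / m) * (2 * Real.pi * δ)) *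
          nI k (-(3 * T)) (3 * T) (fun t => deriv riemannZeta (pt δ t)) =
          Hb * (1 / m) * (2 * Real.pi) * (2 * J) *
          (δ * nI k (-(3 * T)) (3 * T) (fun t => deriv riemannZeta (pt δ t))) := by ring
      _ ≤ Hb * (1 / m) * (2 * Real.pi) * (2 * J) * (CD * SS k N T) :=
          mul_le_mul_of_nonneg_left h2 (by positivity)
      _ = Hb * (1 / m) * (2 * Real.pi) * (2 * J) * CD * SS k N T := by ring
      _ ≤ _ := mul_le_mul_of_nonneg_right hm hSS
  have n2 : nI k (-(2 * T)) (2 * T) (fun t => (F2 t : ℂ)) ≤ ε / 4 * SS k N T := by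
    have y := young hk (A := A2) hA2c (w := fun ξ => ‖h ξ‖) (f := fun t => ‖zc δ 0 t‖)
      H.hc.norm (fun _ => norm_nonneg _) hzz (fun _ => norm_nonneg _) (c := c) (D := T)
      (fun ξ hξ => by
        rw [hc, abs_mul, abs_neg, abs_of_pos hpd0]
        have h9 : |ξ| ≤ Ξ := by
          rcases hξ with h10 | h10
          · exact abs_le.2 ⟨by linarith [h10.1], h10.2⟩
          · exact abs_le.2 ⟨h10.1, by linarith [h10.2]⟩
        calc 2 * Real.pi * δ * |ξ| ≤ 2 * Real.pi * δ * Ξ := by gcongr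
          _ = T := hΞc) (-(2 * T)) (2 * T)
    have e1 : -(2 * T) - T = -(3 * T) := by ring
    have e2 : 2 * T + T = 3 * T := by ring
    rw [e1, e2] at y
    refine y.trans ?_
    have e4 : nI k (-(3 * T)) (3 * T) (fun t => ((‖zc δ 0 t‖ : ℝ) : ℂ)) =
        nI k (-(3 * T)) (3 * T) (zc δ 0) :=
      nI_congr fun t _ => by rw [Complex.norm_real, norm_norm]
    rw [e4]
    have e5 : ∫ ξ in A2, ‖h ξ‖ ≤ ∫ ξ in (Set.Icc (-(J : ℝ)) J)ᶜ, ‖h ξ‖ := by
      have e6 : A2 ≤ᵐ[volume] (Set.Icc (-(J : ℝ)) J)ᶜ := by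
        have h11 : ∀ᵐ ξ : ℝ, ξ ∉ ({(J : ℝ), -(J : ℝ)} : Set ℝ) :=
          compl_mem_ae_iff.2 ((Set.toFinite _).measure_zero volume)
        filter_upwards [h11] with ξ hξ hA
        simp only [Set.mem_insert_iff, Set.mem_singleton_iff, not_or] at hξ
        intro h12
        rcases hA with h13 | h13
        · exact hξ.1 (le_antisymm h12.2 h13.1)
        · exact hξ.2 (le_antisymm h13.2 h12.1)
      exact setIntegral_mono_set H.hi.norm.integrableOn
        (Eventually.of_forall fun ξ => norm_nonneg _) e6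
    calc (∫ ξ in A2, ‖h ξ‖) * nI k (-(3 * T)) (3 * T) (zc δ 0) ≤
          (∫ ξ in (Set.Icc (-(J : ℝ)) J)ᶜ, ‖h ξ‖) * (CZ * SS k N T) :=
          mul_le_mul e5 h1 (nI_nonneg _ _ _ _) (integral_nonneg fun ξ => norm_nonneg _)
      _ = (∫ ξ in (Set.Icc (-(J : ℝ)) J)ᶜ, ‖h ξ‖) * CZ * SS k N T := by ring
      _ ≤ _ := mul_le_mul_of_nonneg_right hJ hSS
  have n3 : nI k (-(2 * T)) (2 * T) (fun _ => (F3 : ℂ)) ≤ ε / 4 * SS k N T := by
    rw [nI_const hk0 (by linarith), Complex.norm_real, Real.norm_of_nonneg hF30]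
    have e1 : (2 * T - -(2 * T)) ^ (1 / k) = 4 ^ (1 / k) * T ^ (1 / k) := by
      rw [← Real.mul_rpow (by norm_num) hT0.le]
      congr 1
      ring
    rw [e1, ← mul_assoc]
    calc F3 * 4 ^ (1 / k) * T ^ (1 / k) ≤ ε / 4 * T ^ (1 / k) :=
          mul_le_mul_of_nonneg_right h4.le (by positivity)
      _ ≤ _ := mul_le_mul_of_nonneg_left h5 (by positivity)
  -- pointwise
  have hcm := cmb_cont w a (show δ < 1 / 2 by linarith)
  have hpt : ∀ t ∈ Set.Icc (-(2 * T)) (2 * T),
      ‖II h δ t - cmb w a δ t‖ ≤ ‖(F1 t : ℂ) + ((F2 t : ℂ) + (F3 : ℂ))‖ := by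
    intro t ht
    have hR : ‖(F1 t : ℂ) + ((F2 t : ℂ) + (F3 : ℂ))‖ = F1 t + (F2 t + F3) := by
      rw [← Complex.ofReal_add, ← Complex.ofReal_add, Complex.norm_real, Real.norm_of_nonneg]
      have := hF10 t
      have := hF20 t
      positivity
    rw [hR]
    have e1 : II h δ t = ∫ ξ, h ξ * riemannZeta (sp δ t ξ) := rfl
    have e2 : cmb w a δ t = ∑ j ∈ Finset.range n, (∫ ξ in (x j)..(x (j + 1)), h ξ) *
        riemannZeta (sp δ t (x j)) := by
      unfold cmb
      rw [Finset.sum_range]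
      rfl
    have hzi := integrable_zeta H hδ h7 t
    have e3 : II h δ t - cmb w a δ t =
        ((∫ ξ in (x 0)..(x n), h ξ * riemannZeta (sp δ t ξ)) - cmb w a δ t) +
        ∫ ξ in (Set.Icc (-(J : ℝ)) J)ᶜ, h ξ * riemannZeta (sp δ t ξ) := by
      have h13 := integral_add_compl (μ := volume) (measurableSet_Icc (a := -(J : ℝ)) (b := J)) hzi
      have h14 : ∫ ξ in (x 0)..(x n), h ξ * riemannZeta (sp δ t ξ) =
          ∫ ξ in Set.Icc (-(J : ℝ)) J, h ξ * riemannZeta (sp δ t ξ) := by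
        rw [hx0, hxn, integral_Icc_eq_integral_Ioc, intervalIntegral.integral_of_le (by linarith)]
      rw [e1, h14, ← h13]
      ring
    rw [e3]
    refine (norm_add_le _ _).trans (add_le_add ?_ ?_)
    · rw [e2]
      have h15 := riemann_sum H.hc hδ h7 t x (1 / m) Hb (by positivity) hxs n
        (by rw [hx0, hxn]; exact hHb) hHb0
      refine h15.trans (le_of_eq ?_)
      rw [hx0, hxn, intervalIntegral.integral_of_le (by linarith), ← integral_Icc_eq_integral_Ioc,
        ← integral_const_mul, hF1]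
      simp only
      refine integral_congr_ae (Eventually.of_forall fun ξ => ?_)
      simp only
      have e5 : sp δ t ξ = pt δ (t + c * ξ) := by
        unfold sp pt
        rw [hc]
        push_cast
        ring
      rw [e5]
    · have hsub : (Set.Icc (-(J : ℝ)) J)ᶜ ⊆ A2 ∪ (Set.Icc (-Ξ) Ξ)ᶜ := by
        intro ξ hξ
        rcases le_or_gt |ξ| Ξ with h16 | h16
        · left
          obtain ⟨h17, h18⟩ := abs_le.1 h16
          rcases le_total ξ (-(J : ℝ)) with h19 | h19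
          · exact Or.inr ⟨h17, h19⟩
          · left
            refine ⟨?_, h18⟩
            by_contra h20
            exact hξ ⟨h19, (not_le.1 h20).le⟩
        · right
          intro h17
          exact absurd (abs_le.2 h17) (not_le.2 h16)
      calc ‖∫ ξ in (Set.Icc (-(J : ℝ)) J)ᶜ, h ξ * riemannZeta (sp δ t ξ)‖ ≤
            ∫ ξ in (Set.Icc (-(J : ℝ)) J)ᶜ, ‖h ξ * riemannZeta (sp δ t ξ)‖ :=
            norm_integral_le_integral_norm _
        _ ≤ ∫ ξ in A2 ∪ (Set.Icc (-Ξ) Ξ)ᶜ, ‖h ξ * riemannZeta (sp δ t ξ)‖ :=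
            setIntegral_mono_set hzi.norm.integrableOn
              (Eventually.of_forall fun ξ => norm_nonneg _) hsub.eventuallyLE
        _ ≤ (∫ ξ in A2, ‖h ξ * riemannZeta (sp δ t ξ)‖) +
            ∫ ξ in (Set.Icc (-Ξ) Ξ)ᶜ, ‖h ξ * riemannZeta (sp δ t ξ)‖ :=
            union_le hzi.norm (fun ξ => norm_nonneg _) hA2c.measurableSet
              measurableSet_Icc.compl
        _ ≤ F2 t + F3 := by
            refine add_le_add (le_of_eq ?_) ?_
            · rw [hF2]
              simp only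
              refine integral_congr_ae (Eventually.of_forall fun ξ => ?_)
              simp only
              have e5 : riemannZeta (sp δ t ξ) = zc δ 0 (t + c * ξ) := by
                unfold sp zc
                rw [hc]
                congr 3
                push_cast
                ring
              rw [norm_mul, e5]
            · rw [hF3, ← integral_const_mul]
              have hsub2 : (Set.Icc (-Ξ) Ξ)ᶜ ⊆ (Set.Icc (-(T / 2)) (T / 2))ᶜ :=
                Set.compl_subset_compl.2 (Set.Icc_subset_Icc (by linarith) hΞT)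
              refine (setIntegral_mono_set hzi.norm.integrableOn
                (Eventually.of_forall fun ξ => norm_nonneg _) hsub2.eventuallyLE).trans ?_
              refine setIntegral_mono_on hzi.norm.integrableOn
                (H.hi1.const_mul 19).integrableOn measurableSet_Icc.compl fun ξ hξ => ?_
              have h21 : T / 2 < |ξ| := by
                by_contra h22
                exact hξ (abs_le.1 (not_lt.1 h22))
              have h23 := zeta_bd (s := sp δ t ξ) (by rw [sp_re]; linarith)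
                (by rw [sp_re]; linarith)
              have h24 := sp_norm hδ h7 t ξ
              have h25 : |t| ≤ 2 * T := abs_le.2 ht
              have h26 : ‖riemannZeta (sp δ t ξ)‖ ≤ 19 * |ξ| := by linarith
              rw [norm_mul]
              calc ‖h ξ‖ * ‖riemannZeta (sp δ t ξ)‖ ≤ ‖h ξ‖ * (19 * |ξ|) :=
                    mul_le_mul_of_nonneg_left h26 (norm_nonneg _)
                _ = _ := by ring
  have hc1 : Continuous fun t => II h δ t - cmb w a δ t := (II_cont H hδ h7).sub hcm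
  have hc2 : Continuous fun t => (F1 t : ℂ) := Complex.continuous_ofReal.comp hF1c
  have hc3 : Continuous fun t => (F2 t : ℂ) := Complex.continuous_ofReal.comp hF2c
  have m1 := nI_mono hk0 hc1 (addc hc2 (addc hc3 continuous_const)) hpt
  have m2 := nI_add_le hk (-(2 * T)) (2 * T) hc2 (addc hc3 (continuous_const (y := (F3 : ℂ))))
  have m3 := nI_add_le hk (-(2 * T)) (2 * T) hc3 (continuous_const (y := (F3 : ℂ)))
  have : 0 ≤ ε / 4 * SS k N T := by positivity
  linarith


end Pool.Agent.H7.PV
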