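import Pool.Agent.H7.PV.V2

set_option autoImplicit false
open MeasureTheory Metric Filter ProbabilityTheory
open scoped ComplexConjugate ENNReal Topology ContDiff

/-! Values of zeta at other distances from the line. -/

namespace Pool.Agent.H7.PV

open Pool.Agent.H7.PM (dl dl_pos dl_nonneg dl_tendsto log_dl nat_cpow)
open Pool.Agent.H7.PT hiding Zup Dup cmb_lim young EE_small app_lin app_of
open Pool.Agent.V11128.CXL

lemma SS_big {k : ℝ} (hk : 0 < k) {N : ℝ → ℕ} (hN : Adm N) (C : ℝ) {ε : ℝ} (hε : 0 < ε) :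
    ∀ᶠ T in atTop, C * T ^ (1 / k) ≤ ε * SS k N T := by
  have hr : 0 < (k / 2) ^ 2 * (1 / k) := by positivity
  have h1 : Tendsto (fun T : ℝ => (Real.log (N T) / 2) ^ ((k / 2) ^ 2 * (1 / k))) atTop atTop := by
    refine (tendsto_rpow_atTop hr).comp ?_
    exact (Real.tendsto_log_atTop.comp (tendsto_natCast_atTop_atTop.comp hN.1)).atTop_div_const
      (by norm_num)
  filter_upwards [h1.eventually_ge_atTop (C / ε), hN.logpos, eventually_gt_atTop 0] with T h2 h3 h4
  have e : SS k N T = T ^ (1 / k) * (Real.log (N T) / 2) ^ ((k / 2) ^ 2 * (1 / k)) := by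
    unfold SS
    have e1 : 2 * dl (N T) = (Real.log (N T) / 2)⁻¹ := by
      unfold dl; field_simp
    rw [e1, Real.mul_rpow h4.le (by positivity), Real.inv_rpow (by positivity),
      Real.rpow_neg (by positivity), inv_inv, ← Real.rpow_mul (by positivity)]
  rw [e]
  have h5 : C ≤ ε * (Real.log (N T) / 2) ^ ((k / 2) ^ 2 * (1 / k)) := by
    rw [div_le_iff₀ hε] at h2
    linarith
  have h6 : 0 ≤ T ^ (1 / k) := by positivity
  calc C * T ^ (1 / k) ≤ (ε * (Real.log (N T) / 2) ^ ((k / 2) ^ 2 * (1 / k))) * T ^ (1 / k) :=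
        mul_le_mul_of_nonneg_right h5 h6
    _ = _ := by ring

lemma app_lin {k : ℝ} (hk : 1 ≤ k) {ι : Type*} (s : Finset ι) (c : ι → ℂ)
    {V : ι → ℕ → ℝ → ℂ} (hc : ∀ i N, Continuous (V i N)) (h : ∀ i, App k (V i)) :
    App k (fun N t => ∑ i ∈ s, c i * V i N t) := by
  classical
  intro ε hε
  have hk0 : 0 < k := by linarith
  set B : ℝ := ∑ i ∈ s, ‖c i‖ with hB
  have hB0 : 0 ≤ B := Finset.sum_nonneg fun i _ => norm_nonneg _
  have hε1 : 0 < ε / (B + 1) := by positivity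
  choose n w a H using fun i => h i (ε / (B + 1)) hε1
  obtain ⟨n', w', a', e⟩ : IsC (fun δ t => ∑ i ∈ s, c i * cmb (w i) (a i) δ t) :=
    isC_sum s fun i _ => isC_smul (c i) ⟨n i, w i, a i, rfl⟩
  refine ⟨n', w', a', fun N hN => ?_⟩
  have h1 : ∀ᶠ T in atTop, ∀ i ∈ s, nI k 0 T (fun t => V i (N T) t -
      cmb (w i) (a i) (dl (N T)) t) ≤ ε / (B + 1) * SS k N T :=
    (Filter.eventually_all_finset s).2 fun i _ => H i N hN
  filter_upwards [h1, eventually_ge_atTop 0,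
    hN.delta.eventually (gt_mem_nhds (show (0 : ℝ) < 1 / 2 by norm_num))] with T h1 h2 h3
  have hS := SS_nonneg k N h2
  have e1 : (fun t => ∑ i ∈ s, c i * V i (N T) t - cmb w' a' (dl (N T)) t) =
      fun t => ∑ i ∈ s, c i * (V i (N T) t - cmb (w i) (a i) (dl (N T)) t) := by
    funext t
    have e2 := congrFun (congrFun e (dl (N T))) t
    rw [← e2, ← Finset.sum_sub_distrib]
    exact Finset.sum_congr rfl fun i _ => by ring
  rw [e1]
  have hcc : ∀ i, Continuous fun t => V i (N T) t - cmb (w i) (a i) (dl (N T)) t := fun i =>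
    (hc i (N T)).sub (cmb_cont (w i) (a i) h3)
  refine (nI_sum_le hk 0 T s (fun i t => c i * (V i (N T) t -
    cmb (w i) (a i) (dl (N T)) t)) fun i _ => cmulc _ (hcc i)).trans ?_
  have h4 : ∀ i ∈ s, nI k 0 T (fun t => c i * (V i (N T) t -
      cmb (w i) (a i) (dl (N T)) t)) ≤ ‖c i‖ * (ε / (B + 1) * SS k N T) := by
    intro i hi
    rw [nI_const_mul hk0]
    exact mul_le_mul_of_nonneg_left (h1 i hi) (norm_nonneg _)
  refine (Finset.sum_le_sum h4).trans ?_
  rw [← Finset.sum_mul, ← hB, ← mul_assoc]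
  refine mul_le_mul_of_nonneg_right ?_ hS
  rw [mul_div_assoc', div_le_iff₀ (by positivity)]
  nlinarith

lemma app_of {k : ℝ} (hk : 1 ≤ k) {V : ℕ → ℝ → ℂ} (hc : ∀ N, Continuous (V N))
    (h : ∀ ε : ℝ, 0 < ε → ∃ U : ℕ → ℝ → ℂ, App k U ∧ (∀ N, Continuous (U N)) ∧
      ∀ N : ℝ → ℕ, Adm N → ∀ᶠ T in atTop,
        nI k 0 T (fun t => V (N T) t - U (N T) t) ≤ ε * SS k N T) : App k V := by
  intro ε hε
  obtain ⟨U, hU, hUc, H⟩ := h (ε / 2) (by positivity)
  obtain ⟨n, w, a, H'⟩ := hU (ε / 2) (by positivity)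
  refine ⟨n, w, a, fun N hN => ?_⟩
  filter_upwards [H N hN, H' N hN,
    hN.delta.eventually (gt_mem_nhds (show (0 : ℝ) < 1 / 2 by norm_num))] with T h1 h2 h3
  have h4 := nI_tri hk 0 T (hc (N T)) (hUc (N T)) (cmb_cont w a h3)
  linarith

theorem app_VG1 {k : ℝ} (hk : 1 ≤ k) (hk4 : k ≤ 4) {g : ℝ → ℂ} (hg : ContDiff ℝ ∞ g)
    (hs : HasCompactSupport g) (hg2 : ∀ x, 2 ≤ x → g x = 0) : App k (VV g) := by
  intro ε hε
  obtain ⟨h, H⟩ := exists_WD g hg hs
  obtain ⟨n, w, a, HI⟩ := approx_I hk hk4 H (half_pos hε)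
  refine ⟨n, w, a, fun N hN => ?_⟩
  filter_upwards [HI N hN, EE_small hk hg hs hg2 hN (half_pos hε), eventually_ge_atTop 0,
    hN.two, hN.delta.eventually (gt_mem_nhds (show (0 : ℝ) < 1 / 4 by norm_num))]
    with T h1 h2 h3 h4 h5
  have hδ := dl_pos h4
  have hk0 : 0 < k := by linarith
  have hcm := cmb_cont w a (show dl (N T) < 1 / 2 by linarith)
  have hEc := EE_cont hg.continuous hs hδ
  have hIc := II_cont H hδ h5
  have e : (fun t => VV g (N T) t - cmb w a (dl (N T)) t) =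
      fun t => (II h (dl (N T)) t - cmb w a (dl (N T)) t) + EE g (dl (N T)) t := by
    funext t
    have hNT : 1 ≤ N T ^ 2 := Nat.one_le_pow _ _ (by omega)
    have hlog2 : 2 ≤ dl (N T) * Real.log ((N T ^ 2 : ℕ) : ℝ) := by
      push_cast
      rw [Real.log_pow]
      have := log_dl h4
      push_cast
      nlinarith
    have e1 : VV g (N T) t = (∫ ξ, h ξ * riemannZeta (sp (dl (N T)) t ξ)) + EE g (dl (N T)) t :=
      smooth_eq H hg2 hδ h5 t hNT hlog2
    rw [e1]
    unfold II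
    ring
  rw [e]
  refine (nI_add_le hk 0 T (hIc.sub hcm) hEc).trans ?_
  have m1 := nI_mono_set hk0 (hIc.sub hcm) (a := 0) (b := T) (a' := -(2 * T)) (b' := 2 * T)
    (by linarith) (by linarith)
  have m2 := nI_mono_set hk0 hEc (a := 0) (b := T) (a' := -(2 * T)) (b' := 2 * T)
    (by linarith) (by linarith)
  have h1' : nI k (-(2 * T)) (2 * T) (fun t => II h (dl (N T)) t - cmb w a (dl (N T)) t) ≤
    ε / 2 * SS k N T := h1
  have m1' : nI k 0 T (fun t => II h (dl (N T)) t - cmb w a (dl (N T)) t) ≤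
    nI k (-(2 * T)) (2 * T) (fun t => II h (dl (N T)) t - cmb w a (dl (N T)) t) := m1
  calc _ ≤ ε / 2 * SS k N T + ε / 2 * SS k N T := add_le_add (m1'.trans h1') (m2.trans h2)
    _ = _ := by ring

lemma pole_int2 {g h : ℝ → ℂ} (H : WD g h) {δ : ℝ}
    (hδ1 : δ < 1 / 4) (t : ℝ) {X : ℕ} (hX : 1 ≤ X) :
    ∫ ξ, h ξ * ((X : ℂ) ^ (1 - sp δ t ξ) / (sp δ t ξ - 1)) =
      -∫ w in Set.Iic (Real.log X), Complex.exp ((1 - sp δ t 0) * (w : ℂ)) * g (δ * w) := by
  have hXn : X ≠ 0 := by omega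
  set L := Real.log X with hL
  -- the inner integral
  have h1 : ∀ ξ, (X : ℂ) ^ (1 - sp δ t ξ) / (sp δ t ξ - 1) =
      -∫ w in Set.Iic L, Complex.exp ((1 - sp δ t ξ) * (w : ℂ)) := by
    intro ξ
    rw [integral_exp_mul_complex_Iic (by rw [one_sub_re]; linarith), nat_cpow X hXn]
    have h2 : sp δ t ξ - 1 ≠ 0 := sub_ne_zero.2 (sp_ne hδ1 t ξ)
    have h3 : 1 - sp δ t ξ ≠ 0 := sub_ne_zero.2 (sp_ne hδ1 t ξ).symm
    rw [mul_comm (L : ℂ)]
    rw [← neg_sub (sp δ t ξ) 1, div_neg, neg_neg, neg_sub]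
  have h4 : ∀ ξ, h ξ * ((X : ℂ) ^ (1 - sp δ t ξ) / (sp δ t ξ - 1)) =
      -∫ w in Set.Iic L, h ξ * Complex.exp ((1 - sp δ t ξ) * (w : ℂ)) := by
    intro ξ
    rw [h1, integral_const_mul]
    ring
  simp_rw [h4]
  rw [integral_neg]
  congr 1
  -- Fubini
  have hint : Integrable (Function.uncurry fun (ξ w : ℝ) =>
      h ξ * Complex.exp ((1 - sp δ t ξ) * (w : ℂ))) (volume.prod (volume.restrict (Set.Iic L))) := by
    have h5 : Integrable (fun w : ℝ => Real.exp ((1 / 2 - δ) * w))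
        (volume.restrict (Set.Iic L)) := integrableOn_exp_mul_Iic (by linarith) L
    have h6 := H.hi.norm.mul_prod h5
    refine h6.mono' ?_ (Eventually.of_forall fun z => ?_)
    · have := sp_cont δ t
      have h7 : Continuous (Function.uncurry fun (ξ w : ℝ) =>
          h ξ * Complex.exp ((1 - sp δ t ξ) * (w : ℂ))) := by
        refine (H.hc.comp continuous_fst).mul (Complex.continuous_exp.comp ?_)
        exact (continuous_const.sub (this.comp continuous_fst)).mul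
          (Complex.continuous_ofReal.comp continuous_snd)
      exact h7.aestronglyMeasurable
    · obtain ⟨ξ, w⟩ := z
      simp only [Function.uncurry]
      rw [norm_mul, Complex.norm_exp, Complex.re_mul_ofReal, one_sub_re]
  rw [integral_integral_swap hint]
  refine integral_congr_ae (Eventually.of_forall fun w => ?_)
  beta_reduce
  have h8 : ∀ ξ, h ξ * Complex.exp ((1 - sp δ t ξ) * (w : ℂ)) =
      Complex.exp ((1 - sp δ t 0) * (w : ℂ)) *
      (h ξ * Complex.exp (((2 * Real.pi * ξ * (δ * w) : ℝ) : ℂ) * Complex.I)) := by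
    intro ξ
    have e : Complex.exp ((1 - sp δ t ξ) * (w : ℂ)) = Complex.exp ((1 - sp δ t 0) * (w : ℂ)) *
        Complex.exp (((2 * Real.pi * ξ * (δ * w) : ℝ) : ℂ) * Complex.I) := by
      rw [← Complex.exp_add]
      congr 1
      unfold sp
      push_cast
      ring
    rw [e]
    ring
  simp_rw [h8]
  rw [integral_const_mul, ← H.inv]


end Pool.Agent.H7.PV
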