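import Pool.Agent.H7.PV.V3

set_option autoImplicit false
open MeasureTheory Metric Filter ProbabilityTheory
open scoped ComplexConjugate ENNReal Topology ContDiff

/-! Values of zeta at other distances from the line, as averages. -/

namespace Pool.Agent.H7.PV

open Pool.Agent.H7.PM (dl dl_pos dl_nonneg dl_tendsto log_dl nat_cpow)
open Pool.Agent.H7.PT hiding Zup Dup cmb_lim young EE_small app_lin app_of
open Pool.Agent.V11128.CXL

/-- the step -/
noncomputable def ρs (x : ℝ) : ℝ := Real.smoothTransition (x + 1)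

lemma ρs_one {x : ℝ} (h : 0 ≤ x) : ρs x = 1 := Real.smoothTransition.one_of_one_le (by linarith)

lemma ρs_zero {x : ℝ} (h : x ≤ -1) : ρs x = 0 :=
  Real.smoothTransition.zero_of_nonpos (by linarith)

lemma ρs_nonneg (x : ℝ) : 0 ≤ ρs x := Real.smoothTransition.nonneg _

lemma ρs_le (x : ℝ) : ρs x ≤ 1 := Real.smoothTransition.le_one _

lemma ρs_smooth : ContDiff ℝ ∞ ρs :=
  Real.smoothTransition.contDiff.comp (contDiff_id.add contDiff_const)

/-- the exponential on the positive half-line -/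
noncomputable def ga (a x : ℝ) : ℂ := ((Real.exp (-(a * x)) * ρs x : ℝ) : ℂ)

lemma ga_cont (a : ℝ) : Continuous (ga a) := by
  unfold ga
  have := ρs_smooth.continuous
  fun_prop

lemma ga_eq {a x : ℝ} (h : 0 ≤ x) : ga a x = (Real.exp (-(a * x)) : ℝ) := by
  unfold ga
  rw [ρs_one h, mul_one]

lemma ga_norm {a : ℝ} (ha : 0 < a) (x : ℝ) : ‖ga a x‖ ≤ Real.exp a := by
  unfold ga
  rw [Complex.norm_real, Real.norm_of_nonneg (mul_nonneg (Real.exp_pos _).le (ρs_nonneg _))]
  rcases le_or_gt x (-1) with h | h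
  · rw [ρs_zero h, mul_zero]; exact (Real.exp_pos _).le
  · calc Real.exp (-(a * x)) * ρs x ≤ Real.exp a * 1 := by
          refine mul_le_mul (Real.exp_le_exp.2 ?_) (ρs_le x) (ρs_nonneg x) (Real.exp_pos _).le
          nlinarith
      _ = _ := mul_one _

/-- a compactly supported piece -/
noncomputable def ba (a x : ℝ) : ℂ := ((Real.exp (-(a * x)) * (ρs x - ρs (x - 1)) : ℝ) : ℂ)

lemma ba_eq (a x : ℝ) : ba a x = ga a x - (Real.exp (-a) : ℝ) * ga a (x - 1) := by
  unfold ba ga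
  rw [← Complex.ofReal_mul, ← Complex.ofReal_sub]
  congr 1
  have : Real.exp (-(a * x)) = Real.exp (-a) * Real.exp (-(a * (x - 1))) := by
    rw [← Real.exp_add]; congr 1; ring
  rw [mul_sub, this]
  ring

lemma ba_smooth (a : ℝ) : ContDiff ℝ ∞ (ba a) := by
  unfold ba
  refine Complex.ofRealCLM.contDiff.comp (ContDiff.mul ?_ ?_)
  · exact ((contDiff_const.mul contDiff_id).neg).exp
  · exact ρs_smooth.sub (ρs_smooth.comp (contDiff_id.sub contDiff_const))

lemma ba_supp (a : ℝ) : HasCompactSupport (ba a) := by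
  refine HasCompactSupport.intro (isCompact_Icc (a := (-1 : ℝ)) (b := 1)) fun x hx => ?_
  unfold ba
  rcases le_or_gt x (-1) with h | h
  · rw [ρs_zero h, ρs_zero (by linarith)]; simp
  · have h1 : 1 < x := by
      by_contra h2
      exact hx ⟨h.le, not_lt.1 h2⟩
    rw [ρs_one (by linarith), ρs_one (by linarith)]; simp

/-- the phase -/
noncomputable def qa (a ξ : ℝ) : ℂ := Complex.exp (-((a : ℂ) + ((2 * Real.pi * ξ : ℝ) : ℂ) * Complex.I))

lemma qa_norm (a ξ : ℝ) : ‖qa a ξ‖ = Real.exp (-a) := by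
  unfold qa
  rw [Complex.norm_exp]
  congr 1
  simp

lemma qa_cont (a : ℝ) : Continuous (qa a) := by
  unfold qa
  fun_prop

lemma qa_ne (a ξ : ℝ) : 1 - Real.exp (-a) ≤ ‖1 - qa a ξ‖ := by
  have h := norm_sub_norm_le (1 : ℂ) (qa a ξ)
  rw [norm_one, qa_norm] at h
  exact h

lemma one_sub_pos' {a : ℝ} (ha : 0 < a) : 0 < 1 - Real.exp (-a) := by
  have : Real.exp (-a) < 1 := by
    have := Real.exp_lt_exp.2 (show -a < 0 by linarith)
    rwa [Real.exp_zero] at this
  linarith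

/-- multiplying by bounded continuous functions -/
lemma wd_bounds {g h0 : ℝ → ℂ} (H : WD g h0) {m : ℝ → ℂ} (hm : Continuous m) {C : ℝ}
    (hC : ∀ ξ, ‖m ξ‖ ≤ C) : Continuous (fun ξ => m ξ * h0 ξ) ∧
      Integrable (fun ξ => m ξ * h0 ξ) ∧ Integrable (fun ξ => |ξ| * ‖m ξ * h0 ξ‖) ∧
      ∃ C : ℝ, 0 ≤ C ∧ ∀ ξ, |ξ| ^ 4 * ‖m ξ * h0 ξ‖ ≤ C := by
  have hC0 : 0 ≤ C := (norm_nonneg _).trans (hC 0)
  refine ⟨hm.mul H.hc, ?_, ?_, ?_⟩
  · refine (H.hi.norm.const_mul C).mono' (hm.mul H.hc).aestronglyMeasurable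
      (Eventually.of_forall fun ξ => ?_)
    rw [norm_mul]
    exact mul_le_mul_of_nonneg_right (hC ξ) (norm_nonneg _)
  · refine (H.hi1.const_mul C).mono' ?_ (Eventually.of_forall fun ξ => ?_)
    · exact (continuous_abs.mul (hm.mul H.hc).norm).aestronglyMeasurable
    · rw [norm_mul, norm_norm, norm_mul, Real.norm_eq_abs, abs_abs]
      calc |ξ| * (‖m ξ‖ * ‖h0 ξ‖) ≤ |ξ| * (C * ‖h0 ξ‖) := by
            gcongr; exact hC ξ
        _ = _ := by ring
  · obtain ⟨D, hD, h1⟩ := H.dec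
    refine ⟨C * D, by positivity, fun ξ => ?_⟩
    rw [norm_mul]
    calc |ξ| ^ 4 * (‖m ξ‖ * ‖h0 ξ‖) ≤ |ξ| ^ 4 * (C * ‖h0 ξ‖) := by
          gcongr; exact hC ξ
      _ = C * (|ξ| ^ 4 * ‖h0 ξ‖) := by ring
      _ ≤ C * D := mul_le_mul_of_nonneg_left (h1 ξ) hC0

/-- the Fourier data of the exponential -/
theorem exists_WDa {a : ℝ} (ha : 0 < a) : ∃ h : ℝ → ℂ, WD (ga a) h := by
  obtain ⟨h0, H⟩ := exists_WD (ba a) (ba_smooth a) (ba_supp a)
  have h1 := one_sub_pos' ha
  have hne : ∀ ξ, 1 - qa a ξ ≠ 0 := fun ξ => norm_pos_iff.1 (h1.trans_le (qa_ne a ξ))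
  set m : ℝ → ℂ := fun ξ => (1 - qa a ξ)⁻¹ with hm
  have hmc : Continuous m := (continuous_const.sub (qa_cont a)).inv₀ hne
  have hmb : ∀ ξ, ‖m ξ‖ ≤ (1 - Real.exp (-a))⁻¹ := fun ξ => by
    rw [hm, norm_inv]
    exact inv_anti₀ h1 (qa_ne a ξ)
  obtain ⟨b1, b2, b3, b4⟩ := wd_bounds H hmc hmb
  refine ⟨fun ξ => m ξ * h0 ξ, b1, b2, b3, b4, ?_⟩
  set e : ℝ → ℝ → ℂ := fun x ξ => Complex.exp (((2 * Real.pi * ξ * x : ℝ) : ℂ) * Complex.I) with he
  have hen : ∀ x ξ, ‖e x ξ‖ = 1 := fun x ξ => by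
    rw [he]; exact Complex.norm_exp_ofReal_mul_I _
  have hec : ∀ x, Continuous (e x) := fun x => by rw [he]; fun_prop
  set F : ℝ → ℂ := fun x => ∫ ξ, m ξ * h0 ξ * e x ξ with hF
  have hint : ∀ x, Integrable fun ξ => m ξ * h0 ξ * e x ξ := fun x => by
    refine b2.mul_bdd (c := 1) (hec x).aestronglyMeasurable (Eventually.of_forall fun ξ => ?_)
    rw [hen]
  set D : ℝ → ℂ := fun x => ga a x - F x with hD
  have hrec : ∀ x, D x = (Real.exp (-a) : ℝ) * D (x - 1) := by
    intro x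
    have e1 : F x - (Real.exp (-a) : ℝ) * F (x - 1) = ba a x := by
      rw [H.inv x, hF]
      simp only
      rw [← integral_const_mul, ← integral_sub (hint x) ((hint (x - 1)).const_mul _)]
      refine integral_congr_ae (Eventually.of_forall fun ξ => ?_)
      simp only
      have e2 : ((Real.exp (-a) : ℝ) : ℂ) * e (x - 1) ξ = qa a ξ * e x ξ := by
        rw [he]
        unfold qa
        simp only
        rw [Complex.ofReal_exp, ← Complex.exp_add, ← Complex.exp_add]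
        congr 1
        push_cast
        ring
      have e3 : m ξ * h0 ξ * e x ξ - ((Real.exp (-a) : ℝ) : ℂ) * (m ξ * h0 ξ * e (x - 1) ξ) =
          m ξ * (1 - qa a ξ) * (h0 ξ * e x ξ) := by
        linear_combination (-(m ξ * h0 ξ)) * e2
      rw [e3, hm]
      simp only
      rw [inv_mul_cancel₀ (hne ξ), one_mul]
    rw [ba_eq] at e1
    simp only [hD]
    linear_combination -e1
  have hrecJ : ∀ (J : ℕ) x, D x = ((Real.exp (-a)) ^ J : ℝ) * D (x - J) := by
    intro J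
    induction J with
    | zero => intro x; simp
    | succ J ih =>
      intro x
      rw [ih x, hrec (x - J)]
      have : x - ((J + 1 : ℕ) : ℝ) = x - J - 1 := by push_cast; ring
      rw [this]
      push_cast
      ring
  set C : ℝ := Real.exp a + ∫ ξ, ‖m ξ * h0 ξ‖ with hC
  have hDb : ∀ x, ‖D x‖ ≤ C := by
    intro x
    refine (norm_sub_le _ _).trans (add_le_add (ga_norm ha x) ?_)
    refine (norm_integral_le_integral_norm _).trans (le_of_eq ?_)
    refine integral_congr_ae (Eventually.of_forall fun ξ => ?_)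
    simp only
    rw [norm_mul (m ξ * h0 ξ), hen, mul_one]
  intro x
  have hz : ‖D x‖ ≤ 0 := by
    have hlim : Tendsto (fun J : ℕ => (Real.exp (-a)) ^ J * C) atTop (𝓝 (0 * C)) :=
      (tendsto_pow_atTop_nhds_zero_of_lt_one (Real.exp_pos _).le (by linarith)).mul_const C
    rw [zero_mul] at hlim
    refine ge_of_tendsto' hlim fun J => ?_
    rw [hrecJ J x, norm_mul, Complex.norm_real, Real.norm_of_nonneg (by positivity)]
    exact mul_le_mul_of_nonneg_left (hDb _) (by positivity)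
  have h2 := norm_le_zero_iff.1 hz
  simp only [hD] at h2
  have h3 := sub_eq_zero.1 h2
  rw [h3]

end Pool.Agent.H7.PV
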