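import Pool.Agent.H7.PV.V4

set_option autoImplicit false
open MeasureTheory Metric Filter ProbabilityTheory
open scoped ComplexConjugate ENNReal Topology ContDiff

/-! Values of zeta at other distances from the line are approximated by combinations. -/

namespace Pool.Agent.H7.PV

open Pool.Agent.H7.PM (dl dl_pos dl_nonneg dl_tendsto log_dl nat_cpow)
open Pool.Agent.H7.PT hiding Zup Dup cmb_lim young EE_small app_lin app_of
open Pool.Agent.V11128.CXL

/-- the part of the pole term over the negative half-line -/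
noncomputable def PP (g : ℝ → ℂ) (δ t : ℝ) : ℂ :=
  ∫ w in Set.Iic (0 : ℝ), Complex.exp ((1 - sp δ t 0) * (w : ℂ)) * g (δ * w)

lemma pp_int {g : ℝ → ℂ} (hgc : Continuous g) {C : ℝ} (hgb : ∀ x, ‖g x‖ ≤ C) {δ : ℝ}
    (hδ1 : δ < 1 / 4) (t L : ℝ) :
    IntegrableOn (fun w : ℝ => Complex.exp ((1 - sp δ t 0) * (w : ℂ)) * g (δ * w))
      (Set.Iic L) := by
  have h5 : Integrable (fun w : ℝ => Real.exp ((1 / 2 - δ) * w) * C)
      (volume.restrict (Set.Iic L)) := (integrableOn_exp_mul_Iic (by linarith) L).mul_const _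
  refine h5.mono' ?_ (Eventually.of_forall fun w => ?_)
  · have h1 : Continuous fun w : ℝ => Complex.exp ((1 - sp δ t 0) * (w : ℂ)) * g (δ * w) := by
      fun_prop
    exact h1.aestronglyMeasurable
  · rw [norm_mul, Complex.norm_exp, Complex.re_mul_ofReal, one_sub_re]
    exact mul_le_mul_of_nonneg_left (hgb _) (Real.exp_pos _).le

lemma PP_norm {g : ℝ → ℂ} {C : ℝ} (hgb : ∀ x, ‖g x‖ ≤ C) {δ : ℝ} (hδ1 : δ < 1 / 4) (t : ℝ) :
    ‖PP g δ t‖ ≤ 4 * C := by
  have hC0 : 0 ≤ C := (norm_nonneg _).trans (hgb 0)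
  have h5 : Integrable (fun w : ℝ => Real.exp ((1 / 2 - δ) * w) * C)
      (volume.restrict (Set.Iic 0)) := (integrableOn_exp_mul_Iic (by linarith) 0).mul_const _
  unfold PP
  refine (norm_integral_le_of_norm_le h5 (Eventually.of_forall fun w => ?_)).trans ?_
  · rw [norm_mul, Complex.norm_exp, Complex.re_mul_ofReal, one_sub_re]
    exact mul_le_mul_of_nonneg_left (hgb _) (Real.exp_pos _).le
  · rw [integral_mul_const, integral_exp_mul_Iic (by linarith), mul_zero, Real.exp_zero]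
    refine mul_le_mul_of_nonneg_right ?_ hC0
    rw [div_le_iff₀ (by linarith)]
    linarith

/-- the shifted point -/
noncomputable def sa (a δ t : ℝ) : ℂ := 1 / 2 + ((1 + a) * δ : ℝ) + t * Complex.I

lemma sa_re (a δ t : ℝ) : (sa a δ t).re = 1 / 2 + (1 + a) * δ := by
  unfold sa
  simp

lemma sa_eq (a δ t : ℝ) : sa a δ t = sp δ t 0 + ((a * δ : ℝ) : ℂ) := by
  unfold sa
  rw [sp_zero]
  push_cast
  ring

/-- **values of zeta as averages** -/
theorem zeta_avg {a : ℝ} (ha : 0 < a) {g h : ℝ → ℂ} (H : WD g h) (hgc : Continuous g) {C : ℝ}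
    (hgb : ∀ x, ‖g x‖ ≤ C) (hge : ∀ x, 0 ≤ x → g x = (Real.exp (-(a * x)) : ℝ)) {δ : ℝ}
    (hδ : 0 < δ) (hδ1 : δ < 1 / 4) (hδa : (1 + a) * δ ≤ 1 / 4) (t : ℝ) :
    riemannZeta (sa a δ t) = II h δ t - 1 / (1 - sa a δ t) + PP g δ t := by
  set s' := sa a δ t with hs'
  have hre : s'.re = 1 / 2 + (1 + a) * δ := sa_re a δ t
  have haδ : 0 < (1 + a) * δ := by positivity
  have hs1 : s' ≠ 1 := by
    intro h1
    have := congrArg Complex.re h1
    rw [hre, Complex.one_re] at this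
    linarith
  have hne : 1 - s' ≠ 0 := sub_ne_zero.2 hs1.symm
  set E : ℂ := riemannZeta s' + 1 / (1 - s') - PP g δ t - II h δ t with hE
  have key : ∀ X : ℕ, 1 ≤ X → E = (∫ ξ, h ξ * RX X (sp δ t ξ)) - RX X s' := by
    intro X hX
    have hX0 : (1 : ℝ) ≤ X := by exact_mod_cast hX
    have hL : 0 ≤ Real.log X := Real.log_nonneg hX0
    have i1 : Integrable fun ξ => ∑ n ∈ Finset.Icc 1 X, h ξ * (n : ℂ) ^ (-(sp δ t ξ)) :=
      integrable_finsetSum _ fun n hn =>
        integrable_n H δ t n (by have := (Finset.mem_Icc.1 hn).1; omega)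
    have i2 := integrable_pole H hδ1 t hX
    have i3 := integrable_zeta H hδ hδ1 t
    have i12 : Integrable fun ξ => ∑ n ∈ Finset.Icc 1 X, h ξ * (n : ℂ) ^ (-(sp δ t ξ)) +
        h ξ * ((X : ℂ) ^ (1 - sp δ t ξ) / (sp δ t ξ - 1)) := i1.add i2
    -- the sum
    have h2 : ∫ ξ, ∑ n ∈ Finset.Icc 1 X, h ξ * (n : ℂ) ^ (-(sp δ t ξ)) =
        ∑ n ∈ Finset.Icc 1 X, (n : ℂ) ^ (-s') := by
      rw [integral_finsetSum]
      · refine Finset.sum_congr rfl fun n hn => ?_
        have hn1 := (Finset.mem_Icc.1 hn).1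
        have hn0 : n ≠ 0 := by omega
        have hlog : 0 ≤ Real.log n := Real.log_nonneg (by exact_mod_cast hn1)
        rw [int_n H δ t n hn0, hge _ (mul_nonneg hδ.le hlog), hs', sa_eq, nat_cpow n hn0,
          nat_cpow n hn0, Complex.ofReal_exp, ← Complex.exp_add]
        congr 1
        push_cast
        ring
      · intro n hn
        exact integrable_n H δ t n (by have := (Finset.mem_Icc.1 hn).1; omega)
    -- the pole
    have h3 := pole_int2 H hδ1 t hX
    have h4 : ∫ w in Set.Iic (Real.log X), Complex.exp ((1 - sp δ t 0) * (w : ℂ)) * g (δ * w) =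
        PP g δ t + ((X : ℂ) ^ (1 - s') - 1) / (1 - s') := by
      have hu : Set.Iic (Real.log X) = Set.Iic 0 ∪ Set.Ioc 0 (Real.log X) :=
        (Set.Iic_union_Ioc_eq_Iic hL).symm
      have hdisj : Disjoint (Set.Iic (0 : ℝ)) (Set.Ioc 0 (Real.log X)) :=
        Set.Iic_disjoint_Ioc le_rfl
      have hi2 : IntegrableOn (fun w : ℝ => Complex.exp ((1 - sp δ t 0) * (w : ℂ)) * g (δ * w))
          (Set.Ioc 0 (Real.log X)) :=
        (pp_int hgc hgb hδ1 t (Real.log X)).mono_set Set.Ioc_subset_Iic_self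
      rw [hu, setIntegral_union hdisj measurableSet_Ioc (pp_int hgc hgb hδ1 t 0) hi2]
      congr 1
      have e1 : ∫ w in Set.Ioc 0 (Real.log X), Complex.exp ((1 - sp δ t 0) * (w : ℂ)) *
          g (δ * w) = ∫ w in Set.Ioc 0 (Real.log X), Complex.exp ((1 - s') * (w : ℂ)) := by
        refine setIntegral_congr_fun measurableSet_Ioc fun w hw => ?_
        rw [hge _ (mul_nonneg hδ.le hw.1.le), Complex.ofReal_exp, ← Complex.exp_add, hs', sa_eq]
        congr 1
        push_cast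
        ring
      rw [e1, ← intervalIntegral.integral_of_le hL, integral_exp_mul_complex hne,
        nat_cpow X (by omega)]
      simp only [Complex.ofReal_zero, mul_zero, Complex.exp_zero]
      rw [mul_comm (Real.log X : ℂ)]
    have h5 := zeta_form hX (s := s') (by rw [hre]; linarith) hs1
    have h6 : (∫ ξ, ∑ n ∈ Finset.Icc 1 X, h ξ * (n : ℂ) ^ (-(sp δ t ξ))) +
        (∫ ξ, h ξ * ((X : ℂ) ^ (1 - sp δ t ξ) / (sp δ t ξ - 1))) - II h δ t =
        ∫ ξ, h ξ * RX X (sp δ t ξ) := by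
      unfold II
      rw [← integral_add i1 i2, ← integral_sub i12 i3]
      refine integral_congr_ae (Eventually.of_forall fun ξ => ?_)
      beta_reduce
      rw [zeta_form hX (s := sp δ t ξ) (by rw [sp_re]; linarith) (sp_ne hδ1 t ξ),
        ← Finset.mul_sum]
      ring
    rw [h2, h3, h4] at h6
    rw [← h6, hE, h5]
    have e2 : (X : ℂ) ^ (1 - s') / (s' - 1) = -((X : ℂ) ^ (1 - s') / (1 - s')) := by
      rw [← neg_sub s' 1, div_neg, neg_neg]
    rw [e2, sub_div]
    ring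
  -- the limit
  have hlim : Tendsto (fun X : ℕ => ((2 * ∫ ξ, ‖h ξ‖ * ((1 + |t|) + 2 * |ξ|)) + 2 * ‖s'‖) *
      (X : ℝ) ^ (-(1 / 2) : ℝ)) atTop (𝓝 0) := by
    have h5 : Tendsto (fun X : ℕ => (X : ℝ) ^ (-(1 / 2) : ℝ)) atTop (𝓝 0) :=
      (tendsto_rpow_neg_atTop (by norm_num : (0 : ℝ) < 1 / 2)).comp tendsto_natCast_atTop_atTop
    have := h5.const_mul ((2 * ∫ ξ, ‖h ξ‖ * ((1 + |t|) + 2 * |ξ|)) + 2 * ‖s'‖)
    rwa [mul_zero] at this
  have h6 : ‖E‖ ≤ 0 := by
    refine ge_of_tendsto hlim ?_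
    filter_upwards [eventually_ge_atTop 1] with X hX
    rw [key X hX, add_mul]
    refine (norm_sub_le _ _).trans (add_le_add ?_ (RX_norm hX (by rw [hre]; linarith)))
    rw [mul_right_comm, ← integral_const_mul]
    refine norm_integral_le_of_norm_le ?_ (Eventually.of_forall fun ξ => ?_)
    · exact (integrable_poly H (1 + |t|) 2).const_mul _
    · rw [norm_mul]
      have h7 := RX_norm hX (s := sp δ t ξ) (by rw [sp_re]; linarith)
      have h8 := sp_norm hδ hδ1 t ξ
      have h9 : 0 ≤ (X : ℝ) ^ (-(1 / 2) : ℝ) := by positivity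
      calc ‖h ξ‖ * ‖RX X (sp δ t ξ)‖ ≤ ‖h ξ‖ * (2 * ((1 + |t|) + 2 * |ξ|) *
            (X : ℝ) ^ (-(1 / 2) : ℝ)) := by
            refine mul_le_mul_of_nonneg_left (h7.trans ?_) (norm_nonneg _)
            gcongr
        _ = _ := by ring
  have h10 := norm_le_zero_iff.1 h6
  rw [hE] at h10
  linear_combination h10

/-- zeta at distance `(1 + a) / log N` -/
noncomputable def ZV (a : ℝ) (N : ℕ) (t : ℝ) : ℂ := riemannZeta (sa a (dl N) t)

lemma ZV_cont {a : ℝ} {N : ℕ} (hδa : (1 + a) * dl N ≤ 1 / 4) : Continuous (ZV a N) := by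
  unfold ZV
  have h2 : ContinuousOn riemannZeta {1}ᶜ := fun s hs =>
    (differentiableAt_riemannZeta hs).continuousAt.continuousWithinAt
  have h3 : Continuous fun t : ℝ => sa a (dl N) t := by unfold sa; fun_prop
  refine h2.comp_continuous h3 fun t h1 => ?_
  have := congrArg Complex.re h1
  rw [sa_re, Complex.one_re] at this
  linarith

lemma bd_small {k : ℝ} (hk : 0 < k) {N : ℝ → ℕ} (hN : Adm N) (C : ℝ) {ε : ℝ} (hε : 0 < ε) :
    ∀ᶠ T in atTop, ∀ F : ℝ → ℂ, Continuous F → (∀ t, ‖F t‖ ≤ C) →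
      nI k 0 T F ≤ ε * SS k N T := by
  filter_upwards [SS_big hk hN C hε, eventually_ge_atTop 0] with T h1 h2 F hF hC
  have h3 := nI_le_const hk h2 hF (C := C) fun t _ => hC t
  rw [sub_zero] at h3
  exact h3.trans h1

theorem app_ZV {k : ℝ} (hk : 1 ≤ k) (hk4 : k ≤ 4) {a : ℝ} (ha : 0 < a) : App k (ZV a) := by
  intro ε hε
  have hk0 : 0 < k := by linarith
  obtain ⟨h, H⟩ := exists_WDa ha
  obtain ⟨n, w, a', HI⟩ := approx_I hk hk4 H (half_pos hε)
  refine ⟨n, w, a', fun N hN => ?_⟩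
  have hda : Tendsto (fun T => (1 + a) * dl (N T)) atTop (𝓝 0) := by
    have := hN.delta.const_mul (1 + a)
    rwa [mul_zero] at this
  filter_upwards [HI N hN, bd_small hk0 hN (4 + 4 * Real.exp a) (half_pos hε),
    eventually_ge_atTop 0, hN.two,
    hN.delta.eventually (gt_mem_nhds (show (0 : ℝ) < 1 / 4 by norm_num)),
    hda.eventually (gt_mem_nhds (show (0 : ℝ) < 1 / 4 by norm_num))]
    with T h1 h2 h3 h4 h5 h6
  have hδ := dl_pos h4
  have hcm := cmb_cont w a' (show dl (N T) < 1 / 2 by linarith)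
  have hIc := II_cont H hδ h5
  have hZc := ZV_cont h6.le
  have e : (fun t => ZV a (N T) t - cmb w a' (dl (N T)) t) =
      fun t => (II h (dl (N T)) t - cmb w a' (dl (N T)) t) +
        (ZV a (N T) t - II h (dl (N T)) t) := by
    funext t
    ring
  rw [e]
  refine (nI_add_le hk 0 T (hIc.sub hcm) (hZc.sub hIc)).trans ?_
  have m1 := nI_mono_set hk0 (hIc.sub hcm) (a := 0) (b := T) (a' := -(2 * T)) (b' := 2 * T)
    (by linarith) (by linarith)
  have m1' : nI k 0 T (fun t => II h (dl (N T)) t - cmb w a' (dl (N T)) t) ≤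
    nI k (-(2 * T)) (2 * T) (fun t => II h (dl (N T)) t - cmb w a' (dl (N T)) t) := m1
  have m2 := h2 (fun t => ZV a (N T) t - II h (dl (N T)) t) (hZc.sub hIc) fun t => by
    unfold ZV
    rw [zeta_avg ha H (ga_cont a) (ga_norm ha) (fun x hx => ga_eq hx) hδ h5 h6.le t]
    have e2 : II h (dl (N T)) t - 1 / (1 - sa a (dl (N T)) t) + PP (ga a) (dl (N T)) t -
        II h (dl (N T)) t = PP (ga a) (dl (N T)) t - 1 / (1 - sa a (dl (N T)) t) := by ring
    rw [e2]
    refine (norm_sub_le _ _).trans ?_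
    have h7 := PP_norm (ga_norm ha) h5 t
    have h8 : ‖1 / (1 - sa a (dl (N T)) t)‖ ≤ 4 := by
      have h9 := Complex.abs_re_le_norm (1 - sa a (dl (N T)) t)
      rw [Complex.sub_re, sa_re, Complex.one_re, abs_of_nonneg (by linarith)] at h9
      rw [norm_div, norm_one, div_le_iff₀ (by linarith)]
      linarith
    linarith
  calc _ ≤ ε / 2 * SS k N T + ε / 2 * SS k N T := add_le_add (m1'.trans h1) m2
    _ = _ := by ring

end Pool.Agent.H7.PV
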