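import Pool.Agent.H7.PV.V5

set_option autoImplicit false
open MeasureTheory Metric Filter ProbabilityTheory
open scoped ComplexConjugate ENNReal Topology ContDiff

/-! Homogeneous functions of families which are approximated by shifted zeta values, `k ≥ 1`. -/

namespace Pool.Agent.H7.PV

open Pool.Agent.H7.PM (dl dl_pos dl_nonneg dl_tendsto)
open Pool.Agent.H7.PT hiding Zup Dup cmb_lim young EE_small app_lin app_of
open Pool.Agent.V11128.CXL
open Pool.Agent.H306R2 (aF aF_pos)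

lemma SS_delay1 {k : ℝ} (hk : 1 ≤ k) (N : ℝ → ℕ) {T : ℝ} (hT : 1 ≤ T) :
    SS k (fun T => N (T - 1)) (T + 1) ≤ 2 * SS k N T := by
  have hk0 : 0 < k := by linarith
  have hX : 0 ≤ (2 * dl (N T)) ^ (-((k / 2) ^ 2)) := Real.rpow_nonneg (by
    have := dl_nonneg (N T); positivity) _
  unfold SS
  simp only [add_sub_cancel_right]
  have h1 : (T + 1) * (2 * dl (N T)) ^ (-((k / 2) ^ 2)) ≤
      2 * (T * (2 * dl (N T)) ^ (-((k / 2) ^ 2))) := by
    nlinarith
  refine (Real.rpow_le_rpow (by positivity) h1 (by positivity)).trans ?_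
  rw [Real.mul_rpow (by norm_num) (by positivity)]
  refine mul_le_mul_of_nonneg_right ?_ (by positivity)
  calc (2 : ℝ) ^ (1 / k) ≤ 2 ^ (1 : ℝ) := Real.rpow_le_rpow_of_exponent_le (by norm_num) (by
        rw [div_le_one hk0]; exact hk)
    _ = 2 := Real.rpow_one 2

/-- shifting a function to the right costs nothing -/
lemma shift_le1 {k : ℝ} (hk : 1 ≤ k) {N : ℝ → ℕ} (hN : Adm N) {F : ℕ → ℝ → ℂ}
    (hF : ∀ᶠ n in atTop, Continuous (F n)) {u C : ℝ} (hu : 0 ≤ u) (hC : 0 ≤ C)
    (h : ∀ N : ℝ → ℕ, Adm N → ∀ᶠ T in atTop, nI k 0 T (F (N T)) ≤ C * SS k N T) :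
    ∀ᶠ T in atTop, nI k 0 T (fun t => F (N T) (t + u * dl (N T))) ≤ 2 * C * SS k N T := by
  have hk0 : 0 < k := by linarith
  have h1 := ev_shift (h _ hN.delay)
  have h2 : Tendsto (fun T => u * dl (N T)) atTop (𝓝 0) := by
    have := hN.delta.const_mul u
    rwa [mul_zero] at this
  filter_upwards [h1, h2.eventually (gt_mem_nhds one_pos), hN.1.eventually hF,
    eventually_ge_atTop 1] with T h3 h4 h5 h6
  have e : T + 1 - 1 = T := by ring
  rw [e] at h3
  rw [nI_shift k 0 T (u * dl (N T)) (F (N T))]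
  have h7 : 0 ≤ u * dl (N T) := mul_nonneg hu (dl_nonneg _)
  calc nI k (0 + u * dl (N T)) (T + u * dl (N T)) (F (N T)) ≤ nI k 0 (T + 1) (F (N T)) :=
        nI_mono_set hk0 h5 (by linarith) (by linarith)
    _ ≤ C * SS k (fun T => N (T - 1)) (T + 1) := h3
    _ ≤ C * (2 * SS k N T) := mul_le_mul_of_nonneg_left (SS_delay1 hk N h6) hC
    _ = _ := by ring

lemma app_up1 {k : ℝ} (hk : 1 ≤ k) (hk4 : k ≤ 4) {V : ℕ → ℝ → ℂ} (hc : ∀ᶠ N in atTop, Continuous (V N))
    (h : App k V) : ∃ C : ℝ, 0 < C ∧ ∀ N : ℝ → ℕ, Adm N →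
    ∀ᶠ T in atTop, nI k 0 T (V (N T)) ≤ C * SS k N T := by
  have hk0 : 0 < k := by linarith
  obtain ⟨n, w, a, H⟩ := h 1 one_pos
  obtain ⟨l, hl⟩ := cmb_lim hk hk4 w a
  refine ⟨|l| + 2, by positivity, fun N hN => ?_⟩
  filter_upwards [H N hN, (hl N hN).eventually (gt_mem_nhds (show l < |l| + 1 by
    have := le_abs_self l; linarith)), SS_pos hk0 hN, hN.1.eventually hc,
    hN.delta.eventually (gt_mem_nhds (show (0 : ℝ) < 1 / 2 by norm_num))] with T h1 h2 h3 hcT h4
  rw [div_lt_iff₀ h3] at h2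
  have h5 := nI_sub_le hk 0 T hcT (cmb_cont w a h4)
  linarith

theorem hom_seqV1 {k : ℝ} (hk : 1 ≤ k) (hk4 : k ≤ 4) {m : ℕ} {V : Fin m → ℕ → ℝ → ℂ}
    (hVc : ∀ j, ∀ᶠ N in atTop, Continuous (V j N)) (hV : ∀ j, App k (V j)) {u : Fin m → ℝ}
    (hu : ∀ j, 0 ≤ u j) {Φ : (Fin m → ℂ) → ℝ} (hc : Continuous Φ) (hh : Hom k Φ) :
    ∃ l : ℝ, ∀ N : ℝ → ℕ, Adm N →
    Tendsto (fun T : ℝ => (2 * dl (N T)) ^ ((k / 2) ^ 2) / T *
      ∫ t in Set.Icc 0 T, Φ (fun j => V j (N T) (t + u j * dl (N T)))) atTop (𝓝 l) := by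
  have hk0 : 0 < k := by linarith
  choose D0 hD0 hupD using fun j => app_up1 hk hk4 (hVc j) (hV j)
  set C0 : ℝ := 1 + ∑ j, D0 j with hC0def
  have hDC : ∀ j, D0 j ≤ C0 := fun j => by
    have := Finset.single_le_sum (f := D0) (fun i _ => (hD0 i).le) (Finset.mem_univ j)
    linarith
  have hC0 : 0 < C0 := by
    have : 0 ≤ ∑ j, D0 j := Finset.sum_nonneg fun i _ => (hD0 i).le
    linarith
  refine two_seq (fun N T => (2 * dl (N T)) ^ ((k / 2) ^ 2) / T *
      ∫ t in Set.Icc 0 T, Φ (fun j => V j (N T) (t + u j * dl (N T)))) fun ε hε => ?_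
  -- parameters
  set η : ℝ := ε / (2 * (m * (2 * C0) ^ k + 1)) with hη
  have hη0 : 0 < η := by positivity
  obtain ⟨K, hK, H⟩ := hom_mod hk0 hc hh hη0
  set ε1 : ℝ := (ε / (2 * (K * m + 1))) ^ (1 / k) / 2 with hε1
  have hε10 : 0 < ε1 := by positivity
  have hε1k : (2 * ε1) ^ k = ε / (2 * (K * m + 1)) := by
    rw [hε1, mul_div_cancel₀ _ (two_ne_zero' ℝ), ← Real.rpow_mul (by positivity),
      one_div_mul_cancel hk0.ne', Real.rpow_one]
  choose n w a Hn using fun j => hV j ε1 hε10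
  -- the limit for the combinations
  set e := (finSigmaFinEquiv : (i : Fin m) × Fin (n i) ≃ Fin (∑ i, n i)) with he
  set g : ((i : Fin m) × Fin (n i)) → ℝ := fun s => a s.1 s.2 + u s.1 with hg
  set a' : Fin (∑ i, n i) → ℝ := fun q => g (e.symm q) with ha'
  have ha'e : ∀ s, a' (e s) = g s := fun s => congrArg g (e.symm_apply_apply s)
  set Ψ : (Fin (∑ i, n i) → ℂ) → ℝ := fun z => Φ (fun j => ∑ i, w j i * z (e ⟨j, i⟩)) with hΨ
  have hΨc : Continuous Ψ := hc.comp (continuous_pi fun j =>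
    continuous_finsetSum _ fun i _ => continuous_const.mul (continuous_apply _))
  have hΨh : Hom k Ψ := by
    intro l z
    have h1 := hh l (fun j => ∑ i, w j i * z (e ⟨j, i⟩))
    simp only [hΨ]
    rw [← h1]
    congr 1
    funext j
    rw [Finset.mul_sum]
    exact Finset.sum_congr rfl fun i _ => by ring
  obtain ⟨l, hl⟩ := hom_lim hk0 hk4 a' Ψ hΨc hΨh
  refine ⟨l, fun N hN => ⟨_, hl _ hN.delta hN.L, ?_⟩⟩
  have g1 : ∀ j : Fin m, ∀ᶠ T in atTop,
      nI k 0 T (fun t => V j (N T) (t + u j * dl (N T))) ≤ 2 * C0 * SS k N T := fun j => by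
    have h1 := shift_le1 hk hN (F := V j) (hVc j) (hu j) (hD0 j).le (hupD j)
    filter_upwards [h1, eventually_ge_atTop 0] with T h2 h3
    refine h2.trans (mul_le_mul_of_nonneg_right ?_ (SS_nonneg k N h3))
    linarith [hDC j]
  have g2 : ∀ j : Fin m, ∀ᶠ T in atTop,
      nI k 0 T (fun t => V j (N T) (t + u j * dl (N T)) -
        cmb (w j) (fun i => a j i + u j) (dl (N T)) t) ≤ 2 * ε1 * SS k N T := fun j => by
    have h1 := shift_le1 hk hN (F := fun n t => V j n t - cmb (w j) (a j) (dl n) t)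
      (by
        filter_upwards [hVc j, dl_tendsto.eventually
          (gt_mem_nhds (show (0 : ℝ) < 1 / 2 by norm_num))] with n h1 h2
        exact h1.sub (cmb_cont (w j) (a j) h2)) (hu j) hε10.le (Hn j)
    filter_upwards [h1] with T h2
    simp_rw [cmb_shift] at h2
    exact h2
  filter_upwards [eventually_all.2 g1, eventually_all.2 g2, SS_pos hk0 hN, hN.pos,
    hN.delta.eventually (gt_mem_nhds (show (0 : ℝ) < 1 / 2 by norm_num)),
    eventually_gt_atTop 0, eventually_all.2 fun j => hN.1.eventually (hVc j)]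
    with T h1 h2 h3 h4 h5 h6 hcT
  have e1 : (fun t => Ψ (fun q => zc (dl (N T)) (a' q) t)) =
      fun t => Φ (fun j => cmb (w j) (fun i => a j i + u j) (dl (N T)) t) := by
    funext t
    simp only [hΨ, ha'e]
    rfl
  rw [e1, ← mul_sub, abs_mul, abs_sub_comm]
  have h7 := int_hom_sub hk0 hc H (X := fun j t => V j (N T) (t + u j * dl (N T)))
    (Y := fun j t => cmb (w j) (fun i => a j i + u j) (dl (N T)) t)
    (fun j => (hcT j).comp (continuous_id.add continuous_const))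
    (fun j => cmb_cont (w j) _ h5) T
  have hS0 := h3.le
  have h8 : ∑ j : Fin m, nI k 0 T (fun t => V j (N T) (t + u j * dl (N T))) ^ k ≤
      m * ((2 * C0) ^ k * SS k N T ^ k) := by
    calc _ ≤ ∑ _j : Fin m, (2 * C0) ^ k * SS k N T ^ k := by
          refine Finset.sum_le_sum fun j _ => ?_
          rw [← Real.mul_rpow (by positivity) hS0]
          exact Real.rpow_le_rpow (nI_nonneg _ _ _ _) (h1 j) hk0.le
      _ = _ := by rw [Finset.sum_const, Finset.card_univ, Fintype.card_fin, nsmul_eq_mul]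
  have h9 : ∑ j : Fin m, nI k 0 T (fun t => cmb (w j) (fun i => a j i + u j) (dl (N T)) t -
      V j (N T) (t + u j * dl (N T))) ^ k ≤ m * ((2 * ε1) ^ k * SS k N T ^ k) := by
    calc _ ≤ ∑ _j : Fin m, (2 * ε1) ^ k * SS k N T ^ k := by
          refine Finset.sum_le_sum fun j _ => ?_
          rw [← Real.mul_rpow (by positivity) hS0, nI_sub_comm]
          exact Real.rpow_le_rpow (nI_nonneg _ _ _ _) (h2 j) hk0.le
      _ = _ := by rw [Finset.sum_const, Finset.card_univ, Fintype.card_fin, nsmul_eq_mul]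
  have h10 : |(∫ t in Set.Icc 0 T, Φ (fun j => cmb (w j) (fun i => a j i + u j) (dl (N T)) t)) -
      ∫ t in Set.Icc 0 T, Φ (fun j => V j (N T) (t + u j * dl (N T)))| ≤ ε * SS k N T ^ k := by
    refine h7.trans ?_
    have hSk : 0 ≤ SS k N T ^ k := Real.rpow_nonneg hS0 _
    have a1 := mul_le_mul_of_nonneg_left h8 hη0.le
    have a2 := mul_le_mul_of_nonneg_left h9 hK.le
    rw [hε1k] at a2
    have a3 : η * (m * ((2 * C0) ^ k * SS k N T ^ k)) ≤ ε / 2 * SS k N T ^ k := by
      rw [← mul_assoc, ← mul_assoc]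
      refine mul_le_mul_of_nonneg_right ?_ hSk
      rw [hη, div_mul_eq_mul_div, div_mul_eq_mul_div, div_le_div_iff₀ (by positivity) (by norm_num)]
      have : 0 ≤ (m : ℝ) * (2 * C0) ^ k := by positivity
      nlinarith
    have a4 : K * (m * (ε / (2 * (K * m + 1)) * SS k N T ^ k)) ≤ ε / 2 * SS k N T ^ k := by
      rw [← mul_assoc, ← mul_assoc]
      refine mul_le_mul_of_nonneg_right ?_ hSk
      rw [mul_div_assoc', div_le_div_iff₀ (by positivity) (by norm_num)]
      have : 0 ≤ K * m := by positivity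
      nlinarith
    linarith
  rw [SS_rpow hk0 N h6.le] at h10
  have hp : 0 < (2 * dl (N T)) ^ ((k / 2) ^ 2) := Real.rpow_pos_of_pos (by positivity) _
  rw [abs_of_pos (div_pos hp h6), abs_sub_comm]
  rw [abs_sub_comm] at h10
  rw [Real.rpow_neg (by positivity)] at h10
  calc (2 * dl (N T)) ^ ((k / 2) ^ 2) / T * _ ≤
        (2 * dl (N T)) ^ ((k / 2) ^ 2) / T * (ε * (T * ((2 * dl (N T)) ^ ((k / 2) ^ 2))⁻¹)) :=
        mul_le_mul_of_nonneg_left h10 (by positivity)
    _ = ε := by field_simp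


/-- advanced choices are admissible -/
lemma Adm.adv {N : ℝ → ℕ} (h : Adm N) : Adm (fun T => N (T + 1)) := by
  have h0 : Tendsto (fun T : ℝ => T + 1) atTop atTop := tendsto_atTop_add_const_right _ 1 tendsto_id
  refine ⟨h.1.comp h0, ?_⟩
  have h1 := (h.2.comp h0).const_mul 2
  rw [mul_zero] at h1
  refine squeeze_zero_norm' ?_ h1
  filter_upwards [(h.1.comp h0).eventually_ge_atTop 2, eventually_gt_atTop 3] with T h2 h3
  simp only [Function.comp] at h2
  have h4 : 0 < Real.log (N (T + 1)) := Real.log_pos (by exact_mod_cast h2)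
  have h5 : 0 < Real.log T := Real.log_pos (by linarith)
  have h6 : Real.log (T + 1) ≤ 2 * Real.log T := by
    have : Real.log (T + 1) ≤ Real.log (T ^ 2) := Real.log_le_log (by linarith) (by nlinarith)
    rwa [Real.log_pow, Nat.cast_ofNat] at this
  have h7 : 0 < Real.log (T + 1) := Real.log_pos (by linarith)
  simp only [Function.comp]
  rw [Real.norm_of_nonneg (div_nonneg h4.le h5.le), div_le_iff₀ h5, mul_div_assoc', div_mul_eq_mul_div,
    le_div_iff₀ h7]
  nlinarith

lemma zc_short {k : ℝ} (hk : 1 ≤ k) (hk4 : k ≤ 4) (a : ℝ) {N : ℝ → ℕ} (hN : Adm N) {ε : ℝ}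
    (hε : 0 < ε) : ∀ᶠ T in atTop, nI k (T - 1) (T + 1) (zc (dl (N T)) a) ≤ ε * SS k N T := by
  have hk0 : 0 < k := by linarith
  have gen := fun (N : ℝ → ℕ) (hN : Adm N) => one_lim hk0 hk4 a _ hN.delta hN.L
  have t1 : Tendsto (fun T : ℝ => T + 1) atTop atTop := tendsto_atTop_add_const_right _ 1 tendsto_id
  have t2 : Tendsto (fun T : ℝ => T - 1) atTop atTop := tendsto_atTop_add_const_right _ (-1) tendsto_id
  have h1 := (gen _ hN.delay).comp t1
  have h2 := (gen _ (Adm.adv hN)).comp t2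
  have r1 : Tendsto (fun T : ℝ => (T + 1) / T) atTop (𝓝 1) := by
    have : Tendsto (fun T : ℝ => 1 + T⁻¹) atTop (𝓝 (1 + 0)) :=
      tendsto_inv_atTop_zero.const_add 1
    rw [add_zero] at this
    refine this.congr' ?_
    filter_upwards [eventually_gt_atTop 0] with T hT
    field_simp
  have r2 : Tendsto (fun T : ℝ => (T - 1) / T) atTop (𝓝 1) := by
    have : Tendsto (fun T : ℝ => 1 - T⁻¹) atTop (𝓝 (1 - 0)) :=
      tendsto_inv_atTop_zero.const_sub 1
    rw [sub_zero] at this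
    refine this.congr' ?_
    filter_upwards [eventually_gt_atTop 0] with T hT
    field_simp
  have h3 := (h1.mul r1).sub (h2.mul r2)
  rw [sub_self] at h3
  have hεk : 0 < ε ^ k := Real.rpow_pos_of_pos hε k
  filter_upwards [h3.eventually (gt_mem_nhds hεk), hN.pos, eventually_gt_atTop 2,
    hN.delta.eventually (gt_mem_nhds (show (0 : ℝ) < 1 / 2 by norm_num))] with T h4 h5 h6 h7
  simp only [Function.comp, add_sub_cancel_right, sub_add_cancel] at h4
  have hT0 : 0 < T := by linarith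
  refine nI_le_of hk0 (mul_nonneg hε.le (SS_nonneg k N hT0.le)) ?_
  rw [Real.mul_rpow hε.le (SS_nonneg k N hT0.le), SS_rpow hk0 N hT0.le,
    Real.rpow_neg (by positivity)]
  have hc := cont_rpow (zc_cont h7 a) hk0.le
  have e1 : ∫ t in Set.Icc (T - 1) (T + 1), ‖zc (dl (N T)) a t‖ ^ k =
      (∫ t in Set.Icc 0 (T + 1), ‖zc (dl (N T)) a t‖ ^ k) -
        ∫ t in Set.Icc 0 (T - 1), ‖zc (dl (N T)) a t‖ ^ k := by
    simp only [integral_Icc_eq_integral_Ioc]
    rw [← intervalIntegral.integral_of_le (by linarith), ← intervalIntegral.integral_of_le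
      (by linarith), ← intervalIntegral.integral_of_le (by linarith)]
    have := intervalIntegral.integral_add_adjacent_intervals (hc.intervalIntegrable 0 (T - 1))
      (hc.intervalIntegrable (μ := volume) (T - 1) (T + 1))
    linarith
  rw [e1]
  set I1 := ∫ t in Set.Icc 0 (T + 1), ‖zc (dl (N T)) a t‖ ^ k with hI1
  set I2 := ∫ t in Set.Icc 0 (T - 1), ‖zc (dl (N T)) a t‖ ^ k with hI2
  have h8 : 0 < (2 * dl (N T)) ^ ((k / 2) ^ 2) := Real.rpow_pos_of_pos (by positivity) _
  have h9 : (2 * dl (N T)) ^ ((k / 2) ^ 2) / T * (I1 - I2) < ε ^ k := by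
    refine lt_of_eq_of_lt ?_ h4
    have : T - 1 ≠ 0 := by linarith
    have : T + 1 ≠ 0 := by linarith
    field_simp
  have h10 : (2 * dl (N T)) ^ ((k / 2) ^ 2) / T * (I1 - I2) =
      (I1 - I2) / (T * ((2 * dl (N T)) ^ ((k / 2) ^ 2))⁻¹) := by field_simp
  rw [h10, div_lt_iff₀ (by positivity)] at h9
  exact h9.le

lemma app_short {k : ℝ} (hk : 1 ≤ k) (hk4 : k ≤ 4) {V : ℕ → ℝ → ℂ}
    (hc : ∀ᶠ N in atTop, Continuous (V N)) (h : App k V) {N : ℝ → ℕ} (hN : Adm N) {ε : ℝ}
    (hε : 0 < ε) : ∀ᶠ T in atTop, nI k (T - 1) (T + 1) (V (N T)) ≤ ε * SS k N T := by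
  have hk0 : 0 < k := by linarith
  obtain ⟨n, w, a, H⟩ := h (ε / 4) (by positivity)
  set W : ℝ := ∑ i, ‖w i‖ with hW
  have hW0 : 0 ≤ W := Finset.sum_nonneg fun i _ => norm_nonneg _
  have h1 := ev_shift (H _ hN.delay)
  have h2 : ∀ᶠ T in atTop, ∀ i : Fin n, nI k (T - 1) (T + 1) (zc (dl (N T)) (a i)) ≤
      ε / (2 * (W + 1)) * SS k N T :=
    eventually_all.2 fun i => zc_short hk hk4 (a i) hN (by positivity)
  filter_upwards [h1, h2, hN.1.eventually hc, eventually_ge_atTop 1,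
    hN.delta.eventually (gt_mem_nhds (show (0 : ℝ) < 1 / 2 by norm_num))] with T h3 h4 h5 h6 h7
  have e : T + 1 - 1 = T := by ring
  rw [e] at h3
  have hS := SS_nonneg k N (show 0 ≤ T by linarith)
  have hcm := cmb_cont w a h7
  have m1 := nI_sub_le hk (T - 1) (T + 1) h5 hcm
  have m2 : nI k (T - 1) (T + 1) (fun t => V (N T) t - cmb w a (dl (N T)) t) ≤
      nI k 0 (T + 1) (fun t => V (N T) t - cmb w a (dl (N T)) t) :=
    nI_mono_set hk0 (h5.sub hcm) (by linarith) le_rfl
  have m3 := SS_delay1 hk N h6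
  have m4 : nI k (T - 1) (T + 1) (cmb w a (dl (N T))) ≤ ε / 2 * SS k N T := by
    unfold cmb
    refine (nI_sum_le hk _ _ Finset.univ (fun i t => w i * zc (dl (N T)) (a i) t)
      fun i _ => cmulc _ (zc_cont h7 _)).trans ?_
    calc _ ≤ ∑ i, ‖w i‖ * (ε / (2 * (W + 1)) * SS k N T) := by
          refine Finset.sum_le_sum fun i _ => ?_
          rw [nI_const_mul hk0]
          exact mul_le_mul_of_nonneg_left (h4 i) (norm_nonneg _)
      _ = W * (ε / (2 * (W + 1))) * SS k N T := by rw [← Finset.sum_mul, ← hW]; ring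
      _ ≤ _ := by
          refine mul_le_mul_of_nonneg_right ?_ hS
          rw [mul_div_assoc', div_le_div_iff₀ (by positivity) (by norm_num)]
          nlinarith
  have m5 : ε / 4 * SS k (fun T => N (T - 1)) (T + 1) ≤ ε / 4 * (2 * SS k N T) :=
    mul_le_mul_of_nonneg_left m3 (by positivity)
  linarith

/-- all real shifts -/
theorem hom_seqR1 {k : ℝ} (hk : 1 ≤ k) (hk4 : k ≤ 4) {m : ℕ} {V : Fin m → ℕ → ℝ → ℂ}
    (hVc : ∀ j, ∀ᶠ N in atTop, Continuous (V j N)) (hV : ∀ j, App k (V j))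
    (hVb : ∀ j, ∃ B : ℝ, 0 ≤ B ∧ ∀ᶠ N : ℕ in atTop, ∀ t ∈ Set.Icc (-1 : ℝ) 1, ‖V j N t‖ ≤ B * N)
    (u : Fin m → ℝ) {Φ : (Fin m → ℂ) → ℝ} (hc : Continuous Φ) (hh : Hom k Φ) :
    ∃ l : ℝ, ∀ N : ℝ → ℕ, Adm N →
    Tendsto (fun T : ℝ => (2 * dl (N T)) ^ ((k / 2) ^ 2) / T *
      ∫ t in Set.Icc 0 T, Φ (fun j => V j (N T) (t + u j * dl (N T)))) atTop (𝓝 l) := by
  have hk0 : 0 < k := by linarith
  set U : ℝ := ∑ j, |u j| with hU
  have hU0 : 0 ≤ U := Finset.sum_nonneg fun j _ => abs_nonneg _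
  have huU' : ∀ j, |u j| ≤ U := fun j =>
    Finset.single_le_sum (f := fun j => |u j|) (fun i _ => abs_nonneg _) (Finset.mem_univ j)
  have huU : ∀ j, 0 ≤ u j + U := fun j => by
    have h1 := huU' j
    have h2 := neg_abs_le (u j)
    linarith
  obtain ⟨l, hl⟩ := hom_seqV1 hk hk4 hVc hV (u := fun j => u j + U) huU hc hh
  obtain ⟨C0, hC0, hbd⟩ := hom_bound hk0 hc hh
  choose B hB hVB using hVb
  set S : ℝ := C0 * ∑ j, B j ^ k with hS
  have hS0 : 0 ≤ S := mul_nonneg hC0 (Finset.sum_nonneg fun j _ => Real.rpow_nonneg (hB j) _)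
  refine ⟨l, fun N hN => ?_⟩
  -- the two error terms
  have hsm := (hN.small k 1 one_pos).const_mul (U * S)
  rw [mul_zero] at hsm
  have hrat : ∀ j, Tendsto (fun T => nI k (T - 1) (T + 1) (V j (N T)) / SS k N T) atTop (𝓝 0) := by
    intro j
    rw [Metric.tendsto_nhds]
    intro ε hε
    filter_upwards [app_short hk hk4 (hVc j) (hV j) hN (half_pos hε), SS_pos hk0 hN] with T h1 h2
    rw [Real.dist_eq, sub_zero, abs_of_nonneg (div_nonneg (nI_nonneg _ _ _ _) h2.le),
      div_lt_iff₀ h2]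
    nlinarith
  have hratS : Tendsto (fun T => C0 * ∑ j, (nI k (T - 1) (T + 1) (V j (N T)) / SS k N T) ^ k)
      atTop (𝓝 0) := by
    have h1 : Tendsto (fun T => C0 * ∑ j, (nI k (T - 1) (T + 1) (V j (N T)) / SS k N T) ^ k)
        atTop (𝓝 (C0 * ∑ _j : Fin m, (0 : ℝ) ^ k)) :=
      (tendsto_finsetSum _ fun j _ => (hrat j).rpow_const (Or.inr hk0.le)).const_mul C0
    rwa [Real.zero_rpow hk0.ne', Finset.sum_const_zero, mul_zero] at h1
  have hsum := hsm.add hratS
  rw [add_zero] at hsum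
  have hUδ' : Tendsto (fun T => 2 * (U + 1) * dl (N T)) atTop (𝓝 0) := by
    have := hN.delta.const_mul (2 * (U + 1))
    rwa [mul_zero] at this
  have key : Tendsto (fun T : ℝ => (2 * dl (N T)) ^ ((k / 2) ^ 2) / T *
      (∫ t in Set.Icc 0 T, Φ (fun j => V j (N T) (t + u j * dl (N T)))) -
      (2 * dl (N T)) ^ ((k / 2) ^ 2) / T *
      ∫ t in Set.Icc 0 T, Φ (fun j => V j (N T) (t + (u j + U) * dl (N T)))) atTop (𝓝 0) := by
    refine squeeze_zero_norm' ?_ hsum
    filter_upwards [hN.pos, eventually_gt_atTop 1,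
      hN.delta.eventually (gt_mem_nhds (show (0 : ℝ) < 1 / 2 by norm_num)),
      hUδ'.eventually (gt_mem_nhds one_pos), SS_pos hk0 hN,
      eventually_all.2 fun j => hN.1.eventually (hVc j),
      eventually_all.2 fun j => hN.1.eventually (hVB j)] with T h1 h2 h3 h4 h5 hcT hBT
    have hT0 : 0 < T := by linarith
    set δ := dl (N T) with hδ
    set F : ℝ → ℝ := fun t => Φ (fun j => V j (N T) (t + u j * δ)) with hF
    have hFc : Continuous F := hc.comp (continuous_pi fun j =>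
      (hcT j).comp (continuous_id.add continuous_const))
    have hUδ : 0 ≤ U * δ := mul_nonneg hU0 h1.le
    have hUδ2 : 2 * (U * δ) ≤ 1 := by nlinarith
    have huδ : ∀ j, |u j * δ| ≤ U * δ := fun j => by
      rw [abs_mul, abs_of_pos h1]
      exact mul_le_mul_of_nonneg_right (huU' j) h1.le
    have hFb : ∀ t ∈ Set.uIoc 0 (U * δ), ‖F t‖ ≤ S * (N T : ℝ) ^ k := by
      intro t ht
      rw [Set.uIoc_of_le hUδ] at ht
      rw [Real.norm_eq_abs]
      refine (hbd _).trans ?_
      rw [hS, mul_assoc, Finset.sum_mul]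
      refine mul_le_mul_of_nonneg_left (Finset.sum_le_sum fun j _ => ?_) hC0
      rw [← Real.mul_rpow (hB j) (Nat.cast_nonneg _)]
      have h6 := abs_le.1 (huδ j)
      exact Real.rpow_le_rpow (norm_nonneg _) (hBT j _ ⟨by linarith [ht.1, h6.1],
        by linarith [ht.2, h6.2]⟩) hk0.le
    have e1 : ∫ t in Set.Icc 0 T, Φ (fun j => V j (N T) (t + (u j + U) * δ)) =
        ∫ t in (U * δ)..(T + U * δ), F t := by
      have e2 : (fun t => Φ (fun j => V j (N T) (t + (u j + U) * δ))) =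
          fun t => F (t + U * δ) := by
        funext t
        simp only [hF]
        congr 1
        funext j
        congr 1
        ring
      rw [e2, integral_Icc_eq_integral_Ioc, ← intervalIntegral.integral_of_le hT0.le,
        intervalIntegral.integral_comp_add_right, zero_add]
    have e3 : ∫ t in Set.Icc 0 T, F t = ∫ t in (0 : ℝ)..T, F t := by
      rw [integral_Icc_eq_integral_Ioc, ← intervalIntegral.integral_of_le hT0.le]
    rw [← mul_sub, e1]
    change ‖(2 * δ) ^ ((k / 2) ^ 2) / T * ((∫ t in Set.Icc 0 T, F t) -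
      ∫ t in (U * δ)..(T + U * δ), F t)‖ ≤ _
    rw [e3]
    have hi : ∀ x y, IntervalIntegrable F volume x y := fun x y => hFc.intervalIntegrable x y
    have e4 : (∫ t in (0 : ℝ)..T, F t) - ∫ t in (U * δ)..(T + U * δ), F t =
        (∫ t in (0 : ℝ)..(U * δ), F t) - ∫ t in T..(T + U * δ), F t := by
      have a1 := intervalIntegral.integral_add_adjacent_intervals (hi 0 (U * δ))
        (hi (U * δ) (T + U * δ))
      have a2 := intervalIntegral.integral_add_adjacent_intervals (hi 0 T) (hi T (T + U * δ))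
      linarith
    rw [e4]
    have b1 := intervalIntegral.norm_integral_le_of_norm_le_const (a := 0) (b := U * δ)
      (f := F) (C := S * (N T : ℝ) ^ k) hFb
    rw [sub_zero, abs_of_nonneg hUδ] at b1
    -- the second interval
    have b2 : ‖∫ t in T..(T + U * δ), F t‖ ≤
        C0 * ∑ j, nI k (T - 1) (T + 1) (V j (N T)) ^ k := by
      have hle : T ≤ T + U * δ := by linarith
      refine (intervalIntegral.norm_integral_le_integral_norm hle).trans ?_
      have c1 : ∀ j, Continuous fun t => ‖V j (N T) (t + u j * δ)‖ ^ k := fun j =>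
        cont_rpow ((hcT j).comp (continuous_id.add continuous_const)) hk0.le
      have c2 : ∫ t in T..(T + U * δ), ‖F t‖ ≤
          ∫ t in T..(T + U * δ), C0 * ∑ j, ‖V j (N T) (t + u j * δ)‖ ^ k := by
        refine intervalIntegral.integral_mono_on hle (hFc.norm.intervalIntegrable _ _)
          ((continuous_const.mul (continuous_finsetSum _ fun j _ => c1 j)).intervalIntegrable _ _)
          fun t _ => ?_
        rw [Real.norm_eq_abs]
        exact hbd _
      refine c2.trans ?_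
      rw [intervalIntegral.integral_const_mul,
        intervalIntegral.integral_finsetSum fun j _ => (c1 j).intervalIntegrable _ _]
      refine mul_le_mul_of_nonneg_left (Finset.sum_le_sum fun j _ => ?_) hC0
      have h6 := abs_le.1 (huδ j)
      rw [nI_rpow hk0, intervalIntegral.integral_comp_add_right
        (fun t => ‖V j (N T) t‖ ^ k), integral_Icc_eq_integral_Ioc,
        intervalIntegral.integral_of_le (by linarith)]
      refine setIntegral_mono_set ?_ (Eventually.of_forall fun t => by positivity)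
        (Set.Ioc_subset_Ioc (by linarith [h6.1]) (by linarith [h6.2])).eventuallyLE
      exact (intOn (cont_rpow (hcT j) hk0.le) _ _).mono_set Set.Ioc_subset_Icc_self
    have hp0 : 0 < (2 * δ) ^ ((k / 2) ^ 2) := Real.rpow_pos_of_pos (by positivity) _
    have hp1 : (2 * δ) ^ ((k / 2) ^ 2) ≤ 1 :=
      Real.rpow_le_one (by positivity) (by linarith) (sq_nonneg _)
    have hSk : SS k N T ^ k = T * ((2 * δ) ^ ((k / 2) ^ 2))⁻¹ := by
      rw [SS_rpow hk0 N hT0.le, Real.rpow_neg (by positivity)]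
    rw [norm_mul, norm_div, Real.norm_of_nonneg hp0.le, Real.norm_of_nonneg hT0.le]
    have hSN : 0 ≤ S * (N T : ℝ) ^ k := by positivity
    have b3 : ‖∫ t in (0 : ℝ)..(U * δ), F t‖ ≤ U * S * (N T : ℝ) ^ k := by
      refine b1.trans ?_
      have b4 : S * (N T : ℝ) ^ k * (U * δ) ≤ S * (N T : ℝ) ^ k * (U * 1) :=
        mul_le_mul_of_nonneg_left (mul_le_mul_of_nonneg_left (by linarith) hU0) hSN
      linarith
    have b5 : (2 * δ) ^ ((k / 2) ^ 2) / T * ‖(∫ t in (0 : ℝ)..(U * δ), F t) -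
        ∫ t in T..(T + U * δ), F t‖ ≤ (2 * δ) ^ ((k / 2) ^ 2) / T * (U * S * (N T : ℝ) ^ k) +
        (2 * δ) ^ ((k / 2) ^ 2) / T * (C0 * ∑ j, nI k (T - 1) (T + 1) (V j (N T)) ^ k) := by
      rw [← mul_add]
      exact mul_le_mul_of_nonneg_left ((norm_sub_le _ _).trans (add_le_add b3 b2)) (by positivity)
    refine b5.trans (add_le_add ?_ (le_of_eq ?_))
    · calc (2 * δ) ^ ((k / 2) ^ 2) / T * (U * S * (N T : ℝ) ^ k) ≤
            1 / T * (U * S * (N T : ℝ) ^ k) := by
            refine mul_le_mul_of_nonneg_right ?_ (by positivity)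
            gcongr
        _ = U * S * ((N T : ℝ) ^ k / T ^ (1 : ℝ)) := by
            rw [Real.rpow_one]; ring
    · have e5 : ∑ j, (nI k (T - 1) (T + 1) (V j (N T)) / SS k N T) ^ k =
          (∑ j, nI k (T - 1) (T + 1) (V j (N T)) ^ k) / SS k N T ^ k := by
        rw [Finset.sum_div]
        exact Finset.sum_congr rfl fun j _ => Real.div_rpow (nI_nonneg _ _ _ _) h5.le _
      rw [e5, hSk]
      field_simp
  have h2 := key.add (hl N hN)
  rw [zero_add] at h2
  refine h2.congr fun T => ?_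
  ring

end Pool.Agent.H7.PV
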