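import Pool.Agent.H7.PV.V6

set_option autoImplicit false
open MeasureTheory Metric Filter ProbabilityTheory
open scoped ComplexConjugate ENNReal Topology ContDiff

/-! Weighted sums and values of zeta, `k ≥ 1`. -/

namespace Pool.Agent.H7.PV

open Pool.Agent.H7.PM (dl dl_pos dl_nonneg dl_tendsto log_dl nat_cpow)
open Pool.Agent.H7.PT hiding Zup Dup cmb_lim young EE_small app_lin app_of
open Pool.Agent.V11128.CXL

/-- smooth weighted sums -/
lemma WS_VV {b : ℝ} (hb : 0 < b) (hb2 : b ≤ 1 / 2) {P : ℝ → ℂ} (hP0 : ∀ x, b ≤ x → P x = 0)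
    {N : ℕ} (hN : 2 ≤ N) (t : ℝ) : WS b P N t = VV (fun x => P x * Complex.exp (x : ℂ)) N t := by
  have hN1 : 1 ≤ N := by omega
  have hdN := dl_pos hN
  have hN0 : (0 : ℝ) < N := by exact_mod_cast hN1
  have hle : fl b N ≤ N ^ 2 := by
    have h1 := fl_sq_le hb2 hN1
    have h2 : fl b N ≤ N := by
      rcases Nat.eq_zero_or_pos (fl b N) with h | h
      · omega
      · nlinarith
    nlinarith
  unfold WS VV
  rw [← Finset.sum_subset (Finset.Icc_subset_Icc_right hle)]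
  · refine Finset.sum_congr rfl fun n hn => ?_
    have hn0 : n ≠ 0 := by have := (Finset.mem_Icc.1 hn).1; omega
    rw [sp_zero, nat_cpow n hn0, nat_cpow n hn0, mul_assoc, ← Complex.exp_add]
    congr 2
    push_cast
    ring
  · intro n hn hn'
    obtain ⟨h1, h2⟩ := Finset.mem_Icc.1 hn
    have h3 : fl b N < n := by
      by_contra h
      exact hn' (Finset.mem_Icc.2 ⟨h1, not_lt.1 h⟩)
    have h4 : (N : ℝ) ^ b < n := (Nat.floor_lt (Real.rpow_nonneg hN0.le _)).1 h3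
    have h5 : b * Real.log N ≤ Real.log n := by
      rw [← Real.log_rpow hN0]
      exact Real.log_le_log (Real.rpow_pos_of_pos hN0 _) h4.le
    have h6 : b ≤ dl N * Real.log n := by
      have h7 : 0 < Real.log (N : ℝ) := Real.log_pos (by exact_mod_cast (by omega : 1 < N))
      unfold dl
      rw [one_div, ← div_eq_inv_mul, le_div_iff₀ h7]
      exact h5
    beta_reduce
    rw [hP0 _ h6]
    simp

lemma app_WS1 {k : ℝ} (hk : 1 ≤ k) (hk4 : k ≤ 4) {b : ℝ} (hb : 0 < b) (hb2 : b ≤ 1 / 2)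
    {P : ℝ → ℂ} (hP : ContDiff ℝ ∞ P) (hPs : HasCompactSupport P)
    (hP0 : 1 < k ∨ ∀ x, b ≤ x → P x = 0) : App k (WS b P) := by
  rcases hP0 with h | h
  · exact app_WS h hk4 hb hb2 hP hPs
  · have h1 : App k (VV (fun x => P x * Complex.exp (x : ℂ))) :=
      app_VG1 hk hk4 (hP.mul (Complex.ofRealCLM.contDiff.cexp)) hPs.mul_right fun x hx => by
        rw [h x (by linarith), zero_mul]
    intro ε hε
    obtain ⟨n, w, a, H⟩ := h1 ε hε
    refine ⟨n, w, a, fun N hN => ?_⟩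
    filter_upwards [H N hN, hN.two] with T h2 h3
    have e : (fun t => WS b P (N T) t - cmb w a (dl (N T)) t) =
        fun t => VV (fun x => P x * Complex.exp (x : ℂ)) (N T) t - cmb w a (dl (N T)) t := by
      funext t
      rw [WS_VV hb hb2 h h3]
    rw [e]
    exact h2

/-- shifted values of zeta -/
noncomputable def zsh (c : ℝ) (N : ℕ) (t : ℝ) : ℂ :=
  riemannZeta (1 / 2 + (c / Real.log N : ℝ) + t * Complex.I)

/-- the families which are allowed -/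
def IsModel (k : ℝ) (X : ℕ → ℝ → ℂ) : Prop :=
  (∃ (b : ℝ) (P : ℝ → ℂ), 0 < b ∧ ContDiff ℝ ∞ P ∧ (1 < k ∨ ∀ x, b ≤ x → P x = 0) ∧
    X = wsum b P) ∨ ∃ c : ℝ, 0 < c ∧ X = zsh c

lemma model_data {k : ℝ} (hk : 1 ≤ k) (hk4 : k ≤ 4) {X : ℕ → ℝ → ℂ} (hX : IsModel k X) :
    ∃ R0 : ℕ, ∀ R : ℕ, R0 ≤ R → 1 ≤ R → ∃ V : ℕ → ℝ → ℂ, App k V ∧
      (∀ᶠ N in atTop, Continuous (V N)) ∧
      (∃ B : ℝ, 0 ≤ B ∧ ∀ᶠ N : ℕ in atTop, ∀ t ∈ Set.Icc (-1 : ℝ) 1, ‖V N t‖ ≤ B * N) ∧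
      ∀ N : ℕ, 2 ≤ N → ∀ u t : ℝ, X N (t + u / Real.log N) =
        V (N ^ R) (t + (R * u) * dl (N ^ R)) := by
  rcases hX with ⟨b, P, hb, hP, hP0, rfl⟩ | ⟨c, hc, rfl⟩
  · obtain ⟨R0, hR0⟩ := exists_nat_ge (2 * b)
    refine ⟨R0, fun R hR hR1 => ?_⟩
    have hRp : (0 : ℝ) < R := by exact_mod_cast hR1
    have hbR : 0 < b / R := div_pos hb hRp
    have hbR2 : b / R ≤ 1 / 2 := by
      rw [div_le_div_iff₀ hRp (by norm_num)]
      have : (R0 : ℝ) ≤ R := by exact_mod_cast hR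
      linarith
    obtain ⟨B, hB, hB'⟩ := WS_bound hbR hbR2 (Pr_smooth R hP) (Pr_supp R P)
    refine ⟨WS (b / R) (Pr R P), app_WS1 hk hk4 hbR hbR2 (Pr_smooth R hP) (Pr_supp R P) ?_,
      Eventually.of_forall fun N => WS_cont _ _ N,
      ⟨B, hB, Eventually.of_forall fun N t _ => hB' N t⟩,
      fun N hN u t => wsum_eq hR1 hbR2 P hN u t⟩
    refine hP0.imp_right fun h x hx => ?_
    unfold Pr
    rw [h, mul_zero]
    rw [div_le_iff₀ hRp] at hx
    linarith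
  · obtain ⟨R0, hR0⟩ := exists_nat_gt (1 / c)
    refine ⟨R0, fun R hR hR1 => ?_⟩
    have hRp : (0 : ℝ) < R := by exact_mod_cast hR1
    have hcR : 1 < c * R := by
      have h1 : (R0 : ℝ) ≤ R := by exact_mod_cast hR
      have h2 : 1 / c < R := by linarith
      rw [div_lt_iff₀ hc] at h2
      linarith
    have ha : 0 < c * R - 1 := by linarith
    have hlim : Tendsto (fun N : ℕ => (1 + (c * R - 1)) * dl N) atTop (𝓝 0) := by
      have := dl_tendsto.const_mul (1 + (c * R - 1))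
      rwa [mul_zero] at this
    have hev := hlim.eventually (gt_mem_nhds (show (0 : ℝ) < 1 / 4 by norm_num))
    refine ⟨ZV (c * R - 1), app_ZV hk hk4 ha, ?_, ⟨9, by norm_num, ?_⟩, fun N hN u t => ?_⟩
    · filter_upwards [hev] with N hN using ZV_cont hN.le
    · filter_upwards [hev, eventually_ge_atTop 1] with N hN hN1 t ht
      have hN1r : (1 : ℝ) ≤ N := by exact_mod_cast hN1
      have hd : 0 ≤ (1 + (c * R - 1)) * dl N :=
        mul_nonneg (by linarith) (dl_nonneg N)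
      have h1 : ‖riemannZeta (sa (c * R - 1) (dl N) t)‖ ≤ 5 + 2 * ‖sa (c * R - 1) (dl N) t‖ :=
        zeta_bd (by rw [sa_re]; linarith) (by rw [sa_re]; linarith)
      have h2 : ‖sa (c * R - 1) (dl N) t‖ ≤ 2 := by
        refine (Complex.norm_le_abs_re_add_abs_im _).trans ?_
        have him : (sa (c * R - 1) (dl N) t).im = t := by unfold sa; simp
        rw [sa_re, him, abs_of_nonneg (by linarith)]
        have := abs_le.2 ⟨ht.1, ht.2⟩
        linarith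
      unfold ZV
      linarith
    · have hl : 0 < Real.log (N : ℝ) := Real.log_pos (by exact_mod_cast (by omega : 1 < N))
      unfold zsh ZV sa
      have e1 : t + (R * u) * dl (N ^ R) = t + u / Real.log N := by
        rw [dl_pow]; field_simp
      have e2 : (1 + (c * R - 1)) * dl (N ^ R) = c / Real.log N := by
        rw [dl_pow]; field_simp; ring
      rw [e1, e2]

theorem model_seq {k : ℝ} (hk : 1 ≤ k) (hk4 : k ≤ 4) {m : ℕ} (X : Fin m → ℕ → ℝ → ℂ)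
    (hX : ∀ j, IsModel k (X j)) (u : Fin m → ℝ)
    {Φ : (Fin m → ℂ) → ℝ} (hc : Continuous Φ) (hh : Hom k Φ) : ∃ c : ℝ, ∀ N : ℝ → ℕ, Adm N →
    Tendsto (fun T => (1 / T * ∫ t in (0 : ℝ)..T,
      Φ (fun j => X j (N T) (t + u j / Real.log (N T)))) / Real.log (N T) ^ (k ^ 2 / 4))
      atTop (𝓝 c) := by
  have hk0 : 0 < k := by linarith
  choose R0 hR0 using fun j => model_data hk hk4 (hX j)
  set R : ℕ := 1 + ∑ j, R0 j with hR
  have hR1 : 1 ≤ R := by omega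
  have hRj : ∀ j, R0 j ≤ R := fun j => by
    have := Finset.single_le_sum (f := R0) (fun i _ => Nat.zero_le _) (Finset.mem_univ j)
    omega
  have hRp : (0 : ℝ) < R := by exact_mod_cast hR1
  choose V hVA hVc hVb hVe using fun j => hR0 j R (hRj j) hR1
  obtain ⟨l, hl⟩ := hom_seqR1 hk hk4 hVc hVA hVb (fun j => R * u j) hc hh
  refine ⟨l * (R : ℝ) ^ (k ^ 2 / 4) / 2 ^ (k ^ 2 / 4), fun N hN => ?_⟩
  have h0 := ((hl _ (hN.pow hR1)).mul_const ((R : ℝ) ^ (k ^ 2 / 4))).div_const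
    ((2 : ℝ) ^ (k ^ 2 / 4))
  refine h0.congr' ?_
  filter_upwards [hN.two, eventually_gt_atTop 0, hN.logpos] with T h1 h2 h4
  rw [intervalIntegral.integral_of_le h2.le, ← integral_Icc_eq_integral_Ioc]
  have e0 : ∀ t, (fun j => X j (N T) (t + u j / Real.log (N T))) =
      fun j => V j (N T ^ R) (t + (R * u j) * dl (N T ^ R)) := fun t =>
    funext fun j => hVe j (N T) h1 (u j) t
  simp_rw [e0]
  have e1 : (2 * dl (N T ^ R)) ^ ((k / 2) ^ 2) =
      2 ^ (k ^ 2 / 4) / ((R : ℝ) ^ (k ^ 2 / 4) * Real.log (N T) ^ (k ^ 2 / 4)) := by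
    have e2 : (k / 2) ^ 2 = k ^ 2 / 4 := by ring
    rw [e2, dl_pow, mul_one_div, Real.div_rpow (by norm_num) (by positivity),
      Real.mul_rpow hRp.le h4.le]
  rw [e1]
  have h5 : 0 < Real.log (N T) ^ (k ^ 2 / 4) := Real.rpow_pos_of_pos h4 _
  have h6 : (0 : ℝ) < 2 ^ (k ^ 2 / 4) := by positivity
  have h7 : (0 : ℝ) < (R : ℝ) ^ (k ^ 2 / 4) := by positivity
  generalize (∫ t in Set.Icc 0 T, Φ fun j => V j (N T ^ R) (t + (R * u j) * dl (N T ^ R))) = I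
  field_simp

/-- **the uniform theorem** -/
theorem model_unif {k : ℝ} (hk : 1 ≤ k) (hk4 : k ≤ 4) {m : ℕ} (X : Fin m → ℕ → ℝ → ℂ)
    (hX : ∀ j, IsModel k (X j)) (u : Fin m → ℝ)
    {Φ : (Fin m → ℂ) → ℝ} (hc : Continuous Φ) (hh : Hom k Φ) : ∃ c : ℝ, ∀ ε : ℝ, 0 < ε →
    ∃ θ : ℝ, 0 < θ ∧ ∃ N0 : ℕ, ∀ N : ℕ, N0 ≤ N → ∀ T : ℝ, (N : ℝ) ^ (1 / θ) ≤ T →
      |(1 / T * ∫ t in (0 : ℝ)..T, Φ (fun j => X j N (t + u j / Real.log N))) /
        Real.log N ^ (k ^ 2 / 4) - c| ≤ ε := by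
  obtain ⟨c, hc'⟩ := model_seq hk hk4 X hX u hc hh
  exact ⟨c, unif (fun N T => (1 / T * ∫ t in (0 : ℝ)..T,
    Φ (fun j => X j N (t + u j / Real.log N))) / Real.log N ^ (k ^ 2 / 4)) c hc'⟩

end Pool.Agent.H7.PV
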