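import Pool.Agent.H7.PV.V7

set_option autoImplicit false
open MeasureTheory Metric Filter ProbabilityTheory
open scoped ComplexConjugate ENNReal Topology ContDiff

/-! A smooth sum whose moments have the right order. -/

namespace Pool.Agent.H7.PV

open Pool.Agent.H7.PM (dl dl_pos dl_nonneg dl_tendsto log_dl nat_cpow)
open Pool.Agent.H7.PT hiding Zup Dup cmb_lim young EE_small app_lin app_of
open Pool.Agent.V11128.CXL
open Pool.Agent.H306R2 (aF aF_pos)

lemma wd_sub {g h g' h' : ℝ → ℂ} (H : WD g h) (H' : WD g' h') :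
    WD (fun x => g x - g' x) (fun ξ => h ξ - h' ξ) := by
  obtain ⟨C, hC, hd⟩ := H.dec
  obtain ⟨C', hC', hd'⟩ := H'.dec
  have hc := H.hc.sub H'.hc
  refine ⟨hc, H.hi.sub H'.hi, ?_, ⟨C + C', by positivity, fun ξ => ?_⟩, fun x => ?_⟩
  · refine (H.hi1.add H'.hi1).mono' (continuous_abs.mul hc.norm).aestronglyMeasurable
      (Eventually.of_forall fun ξ => ?_)
    rw [Real.norm_of_nonneg (by positivity)]
    have := norm_sub_le (h ξ) (h' ξ)
    have h1 := abs_nonneg ξ
    simp only [Pi.add_apply]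
    nlinarith
  · have := norm_sub_le (h ξ) (h' ξ)
    have h1 : 0 ≤ |ξ| ^ 4 := by positivity
    have h2 := hd ξ
    have h3 := hd' ξ
    nlinarith
  · have he : ∀ (f : ℝ → ℂ), Continuous f → Integrable f → Integrable fun ξ =>
        f ξ * Complex.exp (((2 * Real.pi * ξ * x : ℝ) : ℂ) * Complex.I) := fun f _ hf => by
      refine hf.mul_bdd (c := 1) (by fun_prop : Continuous fun ξ : ℝ =>
        Complex.exp (((2 * Real.pi * ξ * x : ℝ) : ℂ) * Complex.I)).aestronglyMeasurable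
        (Eventually.of_forall fun ξ => ?_)
      rw [Complex.norm_exp_ofReal_mul_I]
    rw [H.inv x, H'.inv x, ← integral_sub (he h H.hc H.hi) (he h' H'.hc H'.hi)]
    exact integral_congr_ae (Eventually.of_forall fun ξ => by simp only; ring)

lemma wd_scale {g h : ℝ → ℂ} (H : WD g h) {l : ℝ} (hl : 0 < l) :
    WD (fun x => g (l * x)) (fun ξ => (l⁻¹ : ℝ) * h (ξ / l)) := by
  obtain ⟨C, hC, hd⟩ := H.dec
  have hn : ‖((l⁻¹ : ℝ) : ℂ)‖ = l⁻¹ := by
    rw [Complex.norm_real, Real.norm_of_nonneg (inv_pos.2 hl).le]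
  refine ⟨continuous_const.mul (H.hc.comp (continuous_id.div_const l)),
    (H.hi.comp_div hl.ne').const_mul _, ?_, ⟨l ^ 3 * C, by positivity, fun ξ => ?_⟩, fun x => ?_⟩
  · refine (H.hi1.comp_div hl.ne').congr (Eventually.of_forall fun ξ => ?_)
    simp only
    rw [norm_mul, hn, abs_div, abs_of_pos hl]
    field_simp
  · rw [norm_mul, hn]
    have h1 := hd (ξ / l)
    rw [abs_div, abs_of_pos hl] at h1
    calc |ξ| ^ 4 * (l⁻¹ * ‖h (ξ / l)‖) = l ^ 3 * ((|ξ| / l) ^ 4 * ‖h (ξ / l)‖) := by field_simp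
      _ ≤ l ^ 3 * C := mul_le_mul_of_nonneg_left h1 (by positivity)
  · have h1 := Measure.integral_comp_div (fun η : ℝ => (l⁻¹ : ℝ) *
      (h η * Complex.exp (((2 * Real.pi * η * (l * x) : ℝ) : ℂ) * Complex.I))) l
    have h2 : ∫ η : ℝ, ((l⁻¹ : ℝ) : ℂ) *
        (h η * Complex.exp (((2 * Real.pi * η * (l * x) : ℝ) : ℂ) * Complex.I)) =
        ((l⁻¹ : ℝ) : ℂ) * g (l * x) := by
      rw [integral_const_mul, ← H.inv]
    rw [h2, abs_of_pos hl, Complex.real_smul, ← mul_assoc,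
      ← Complex.ofReal_mul, mul_inv_cancel₀ hl.ne', Complex.ofReal_one, one_mul] at h1
    rw [← h1]
    refine integral_congr_ae (Eventually.of_forall fun ξ => ?_)
    simp only
    have e : 2 * Real.pi * (ξ / l) * (l * x) = 2 * Real.pi * ξ * x := by field_simp
    rw [e]
    ring

lemma norm_scale {h : ℝ → ℂ} {l : ℝ} (hl : 0 < l) :
    ∫ ξ, ‖((l⁻¹ : ℝ) : ℂ) * h (ξ / l)‖ = ∫ ξ, ‖h ξ‖ := by
  have hn : ‖((l⁻¹ : ℝ) : ℂ)‖ = l⁻¹ := by
    rw [Complex.norm_real, Real.norm_of_nonneg (inv_pos.2 hl).le]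
  simp_rw [norm_mul, hn]
  rw [integral_const_mul, Measure.integral_comp_div (fun η : ℝ => ‖h η‖) l, abs_of_pos hl,
    smul_eq_mul]
  field_simp

/-- translation -/
lemma wd_trans {g h : ℝ → ℂ} (H : WD g h) (c y : ℝ) :
    WD (fun x => (c : ℂ) * g (x - y)) (fun ξ => (c : ℂ) *
      Complex.exp (((-(2 * Real.pi * ξ * y) : ℝ) : ℂ) * Complex.I) * h ξ) := by
  have hm : Continuous fun ξ : ℝ => (c : ℂ) *
      Complex.exp (((-(2 * Real.pi * ξ * y) : ℝ) : ℂ) * Complex.I) := by fun_prop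
  obtain ⟨b1, b2, b3, b4⟩ := wd_bounds H hm (C := |c|) fun ξ => by
    rw [norm_mul, Complex.norm_exp_ofReal_mul_I, Complex.norm_real, Real.norm_eq_abs, mul_one]
  refine ⟨b1, b2, b3, b4, fun x => ?_⟩
  rw [H.inv (x - y), ← integral_const_mul]
  refine integral_congr_ae (Eventually.of_forall fun ξ => ?_)
  simp only
  have e : Complex.exp (((2 * Real.pi * ξ * (x - y) : ℝ) : ℂ) * Complex.I) =
      Complex.exp (((-(2 * Real.pi * ξ * y) : ℝ) : ℂ) * Complex.I) *
      Complex.exp (((2 * Real.pi * ξ * x : ℝ) : ℂ) * Complex.I) := by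
    rw [← Complex.exp_add]
    congr 1
    push_cast
    ring
  rw [e]
  ring

/-- norms of averages -/
theorem II_bound {k : ℝ} (hk : 1 ≤ k) (hk4 : k ≤ 4) : ∃ CZ : ℝ, 0 ≤ CZ ∧
    ∀ (g h : ℝ → ℂ), WD g h → ∀ ε : ℝ, 0 < ε → ∀ N : ℝ → ℕ, Adm N → ∀ᶠ T in atTop,
      nI k (-(2 * T)) (2 * T) (II h (dl (N T))) ≤ (CZ * (∫ ξ, ‖h ξ‖) + ε) * SS k N T := by
  have hk0 : 0 < k := by linarith
  have hpi := Real.pi_pos
  obtain ⟨CZ, hCZ, HZ⟩ := Zup hk hk4
  refine ⟨CZ, hCZ, fun g h H ε hε N hN => ?_⟩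
  have ht2 := tail_tendsto H.hi1
  have hsm : Tendsto (fun T : ℝ => 19 * (∫ ξ in (Set.Icc (-(T / 2)) (T / 2))ᶜ, |ξ| * ‖h ξ‖) *
      4 ^ (1 / k)) atTop (𝓝 (19 * 0 * 4 ^ (1 / k))) :=
    ((ht2.comp (tendsto_id.atTop_div_const (by norm_num : (0 : ℝ) < 2))).const_mul 19).mul_const _
  have e0 : 19 * 0 * (4 : ℝ) ^ (1 / k) = 0 := by ring
  rw [e0] at hsm
  filter_upwards [HZ N hN, hsm.eventually (gt_mem_nhds hε), SS_ge hk0 hN, hN.two,
    hN.delta.eventually (gt_mem_nhds (show (0 : ℝ) < 1 / 4 by norm_num)),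
    eventually_ge_atTop 2] with T h1 h4 h5 h6 h7 h8
  have hδ := dl_pos h6
  set δ := dl (N T) with hδdef
  have hT0 : 0 < T := by linarith
  have hSS : 0 ≤ SS k N T := SS_nonneg k N hT0.le
  have hpd : 2 * Real.pi * δ ≤ 2 := by
    have := Real.pi_le_four
    nlinarith
  have hpd0 : 0 < 2 * Real.pi * δ := by positivity
  set c : ℝ := -(2 * Real.pi * δ) with hc
  set Ξ : ℝ := T / (2 * Real.pi * δ) with hΞ
  have hΞ0 : 0 < Ξ := by positivity
  have hΞT : T / 2 ≤ Ξ := by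
    rw [hΞ]
    gcongr
  have hΞc : 2 * Real.pi * δ * Ξ = T := by rw [hΞ]; field_simp
  set A2 : Set ℝ := Set.Icc (-Ξ) Ξ with hA2
  have hA2c : IsCompact A2 := isCompact_Icc
  set F2 : ℝ → ℝ := fun t => ∫ ξ in A2, ‖h ξ‖ * ‖zc δ 0 (t + c * ξ)‖ with hF2
  set F3 : ℝ := 19 * ∫ ξ in (Set.Icc (-(T / 2)) (T / 2))ᶜ, |ξ| * ‖h ξ‖ with hF3
  have hzz : Continuous fun t => ‖zc δ 0 t‖ := (zc_cont (by linarith) 0).norm
  have hF2c : Continuous F2 := conv_cont hA2c H.hc.norm hzz c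
  have hF20 : ∀ t, 0 ≤ F2 t := fun t => integral_nonneg fun ξ => by positivity
  have hF30 : 0 ≤ F3 := mul_nonneg (by norm_num) (integral_nonneg fun ξ => by positivity)
  have n2 : nI k (-(2 * T)) (2 * T) (fun t => (F2 t : ℂ)) ≤ CZ * (∫ ξ, ‖h ξ‖) * SS k N T := by
    have y := young hk (A := A2) hA2c (w := fun ξ => ‖h ξ‖) (f := fun t => ‖zc δ 0 t‖)
      H.hc.norm (fun _ => norm_nonneg _) hzz (fun _ => norm_nonneg _) (c := c) (D := T)
      (fun ξ hξ => by
        rw [hc, abs_mul, abs_neg, abs_of_pos hpd0]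
        have h9 : |ξ| ≤ Ξ := abs_le.2 ⟨hξ.1, hξ.2⟩
        calc 2 * Real.pi * δ * |ξ| ≤ 2 * Real.pi * δ * Ξ := by gcongr
          _ = T := hΞc) (-(2 * T)) (2 * T)
    have e1 : -(2 * T) - T = -(3 * T) := by ring
    have e2 : 2 * T + T = 3 * T := by ring
    rw [e1, e2] at y
    refine y.trans ?_
    have e4 : nI k (-(3 * T)) (3 * T) (fun t => ((‖zc δ 0 t‖ : ℝ) : ℂ)) =
        nI k (-(3 * T)) (3 * T) (zc δ 0) :=
      nI_congr fun t _ => by rw [Complex.norm_real, norm_norm]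
    rw [e4]
    have e5 : ∫ ξ in A2, ‖h ξ‖ ≤ ∫ ξ, ‖h ξ‖ :=
      setIntegral_le_integral H.hi.norm (Eventually.of_forall fun ξ => norm_nonneg _)
    calc (∫ ξ in A2, ‖h ξ‖) * nI k (-(3 * T)) (3 * T) (zc δ 0) ≤
          (∫ ξ, ‖h ξ‖) * (CZ * SS k N T) :=
          mul_le_mul e5 h1 (nI_nonneg _ _ _ _) (integral_nonneg fun ξ => norm_nonneg _)
      _ = _ := by ring
  have n3 : nI k (-(2 * T)) (2 * T) (fun _ => (F3 : ℂ)) ≤ ε * SS k N T := by
    rw [nI_const hk0 (by linarith), Complex.norm_real, Real.norm_of_nonneg hF30]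
    have e1 : (2 * T - -(2 * T)) ^ (1 / k) = 4 ^ (1 / k) * T ^ (1 / k) := by
      rw [← Real.mul_rpow (by norm_num) hT0.le]
      congr 1
      ring
    rw [e1, ← mul_assoc]
    calc F3 * 4 ^ (1 / k) * T ^ (1 / k) ≤ ε * T ^ (1 / k) :=
          mul_le_mul_of_nonneg_right h4.le (by positivity)
      _ ≤ _ := mul_le_mul_of_nonneg_left h5 hε.le
  have hpt : ∀ t ∈ Set.Icc (-(2 * T)) (2 * T), ‖II h δ t‖ ≤ ‖(F2 t : ℂ) + (F3 : ℂ)‖ := by
    intro t ht
    have hR : ‖(F2 t : ℂ) + (F3 : ℂ)‖ = F2 t + F3 := by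
      rw [← Complex.ofReal_add, Complex.norm_real, Real.norm_of_nonneg]
      have := hF20 t
      positivity
    rw [hR]
    have hzi := integrable_zeta H hδ h7 t
    have hsub : (Set.univ : Set ℝ) ⊆ A2 ∪ (Set.Icc (-Ξ) Ξ)ᶜ := by
      intro ξ _
      exact em _
    unfold II
    calc ‖∫ ξ, h ξ * riemannZeta (sp δ t ξ)‖ ≤ ∫ ξ, ‖h ξ * riemannZeta (sp δ t ξ)‖ :=
          norm_integral_le_integral_norm _
      _ = ∫ ξ in Set.univ, ‖h ξ * riemannZeta (sp δ t ξ)‖ := by rw [setIntegral_univ]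
      _ ≤ ∫ ξ in A2 ∪ (Set.Icc (-Ξ) Ξ)ᶜ, ‖h ξ * riemannZeta (sp δ t ξ)‖ :=
          setIntegral_mono_set hzi.norm.integrableOn
            (Eventually.of_forall fun ξ => norm_nonneg _) hsub.eventuallyLE
      _ ≤ (∫ ξ in A2, ‖h ξ * riemannZeta (sp δ t ξ)‖) +
          ∫ ξ in (Set.Icc (-Ξ) Ξ)ᶜ, ‖h ξ * riemannZeta (sp δ t ξ)‖ :=
          union_le hzi.norm (fun ξ => norm_nonneg _) hA2c.measurableSet
            measurableSet_Icc.compl
      _ ≤ F2 t + F3 := by
          refine add_le_add (le_of_eq ?_) ?_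
          · rw [hF2]
            simp only
            refine integral_congr_ae (Eventually.of_forall fun ξ => ?_)
            simp only
            have e5 : riemannZeta (sp δ t ξ) = zc δ 0 (t + c * ξ) := by
              unfold sp zc
              rw [hc]
              congr 3
              push_cast
              ring
            rw [norm_mul, e5]
          · rw [hF3, ← integral_const_mul]
            have hsub2 : (Set.Icc (-Ξ) Ξ)ᶜ ⊆ (Set.Icc (-(T / 2)) (T / 2))ᶜ :=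
              Set.compl_subset_compl.2 (Set.Icc_subset_Icc (by linarith) hΞT)
            refine (setIntegral_mono_set hzi.norm.integrableOn
              (Eventually.of_forall fun ξ => norm_nonneg _) hsub2.eventuallyLE).trans ?_
            refine setIntegral_mono_on hzi.norm.integrableOn
              (H.hi1.const_mul 19).integrableOn measurableSet_Icc.compl fun ξ hξ => ?_
            have h21 : T / 2 < |ξ| := by
              by_contra h22
              exact hξ (abs_le.1 (not_lt.1 h22))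
            have h23 := zeta_bd (s := sp δ t ξ) (by rw [sp_re]; linarith)
              (by rw [sp_re]; linarith)
            have h24 := sp_norm hδ h7 t ξ
            have h25 : |t| ≤ 2 * T := abs_le.2 ht
            have h26 : ‖riemannZeta (sp δ t ξ)‖ ≤ 19 * |ξ| := by linarith
            rw [norm_mul]
            calc ‖h ξ‖ * ‖riemannZeta (sp δ t ξ)‖ ≤ ‖h ξ‖ * (19 * |ξ|) :=
                  mul_le_mul_of_nonneg_left h26 (norm_nonneg _)
              _ = _ := by ring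
  have hc3 : Continuous fun t => (F2 t : ℂ) := Complex.continuous_ofReal.comp hF2c
  have m1 := nI_mono hk0 (II_cont H hδ h7) (addc hc3 continuous_const) hpt
  have m3 := nI_add_le hk (-(2 * T)) (2 * T) hc3 (continuous_const (y := (F3 : ℂ)))
  linarith

/-- lower bound for zeta on `[T, 2T]` -/
lemma ZV_lower {k : ℝ} (hk : 1 ≤ k) (hk4 : k ≤ 4) {a : ℝ} (ha : 0 < a) {N : ℝ → ℕ} (hN : Adm N) :
    ∀ᶠ T in atTop, (aF (k / 2) / 2) ^ (1 / k) * (1 + a) ^ (-((k / 2) ^ 2 * (1 / k))) *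
      SS k N T ≤ nI k T (2 * T) (ZV a (N T)) := by
  have hk0 : 0 < k := by linarith
  set A := aF (k / 2) with hA
  have hA0 : 0 < A := aF_pos (κ := k / 2) (by positivity)
  set e := (k / 2) ^ 2 with he
  have h1a : 0 < 1 + a := by linarith
  set l : ℝ := (1 + a) ^ (-e) * A with hl
  have hl0 : 0 < l := by positivity
  have hF : ∀ δ : ℝ → ℝ, Tendsto δ atTop (𝓝 0) →
      Tendsto (fun T : ℝ => δ T * Real.log T) atTop atTop →
      Tendsto (fun T : ℝ => (2 * δ T) ^ e / T * ∫ t in Set.Icc 0 T,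
        (fun δ t => ‖zc ((1 + a) * δ) 0 t‖ ^ k) (δ T) t) atTop (𝓝 l) := by
    intro δ h1 h2
    have h3 := one_lim hk0 hk4 0 (fun T => (1 + a) * δ T)
      (by have := h1.const_mul (1 + a); rwa [mul_zero] at this)
      (by
        have := h2.const_mul_atTop h1a
        refine this.congr fun T => ?_
        ring)
    have h4 := h3.const_mul ((1 + a) ^ (-e))
    refine h4.congr' ?_
    have hpos : ∀ᶠ T in atTop, 0 < δ T := by
      filter_upwards [h2.eventually_gt_atTop 0, eventually_gt_atTop 1] with T h5 h6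
      by_contra h7
      have := Real.log_pos h6
      nlinarith
    filter_upwards [hpos] with T h5
    have e1 : (2 * ((1 + a) * δ T)) ^ e = (1 + a) ^ e * (2 * δ T) ^ e := by
      rw [← Real.mul_rpow h1a.le (by positivity)]
      congr 1
      ring
    rw [e1, Real.rpow_neg h1a.le]
    have : (1 + a) ^ e ≠ 0 := (Real.rpow_pos_of_pos h1a _).ne'
    field_simp
  have s1 := scaled hN (c := 2) (by norm_num) (F := fun δ t => ‖zc ((1 + a) * δ) 0 t‖ ^ k)
    (e := e) (l := l) hF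
  have s2 := scaled hN (c := 1) (by norm_num) (F := fun δ t => ‖zc ((1 + a) * δ) 0 t‖ ^ k)
    (e := e) (l := l) hF
  have s3 := (s1.const_mul 2).sub s2
  have hlt : l / 2 < 2 * l - l := by linarith
  have hda : Tendsto (fun T => (1 + a) * dl (N T)) atTop (𝓝 0) := by
    have := hN.delta.const_mul (1 + a)
    rwa [mul_zero] at this
  filter_upwards [s3.eventually (lt_mem_nhds hlt), eventually_gt_atTop 0, hN.pos,
    hda.eventually (gt_mem_nhds (show (0 : ℝ) < 1 / 4 by norm_num))] with T h1 h2 h3 h4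
  have hc := cont_rpow (ZV_cont h4.le) hk0.le
  have hZ : ∀ t, ‖zc ((1 + a) * dl (N T)) 0 t‖ = ‖ZV a (N T) t‖ := by
    intro t
    unfold zc ZV sa
    congr 2
    push_cast
    ring
  simp only [hZ, one_mul] at h1
  have e1 : ∫ t in Set.Icc T (2 * T), ‖ZV a (N T) t‖ ^ k =
      (∫ t in Set.Icc 0 (2 * T), ‖ZV a (N T) t‖ ^ k) -
        ∫ t in Set.Icc 0 T, ‖ZV a (N T) t‖ ^ k := by
    simp only [integral_Icc_eq_integral_Ioc]
    rw [← intervalIntegral.integral_of_le (by linarith), ← intervalIntegral.integral_of_le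
      (by linarith), ← intervalIntegral.integral_of_le (by linarith)]
    have := intervalIntegral.integral_add_adjacent_intervals (hc.intervalIntegrable 0 T)
      (hc.intervalIntegrable (μ := volume) T (2 * T))
    linarith
  have hS := SS_nonneg k N h2.le
  have h6 : 0 < (2 * dl (N T)) ^ e := Real.rpow_pos_of_pos (by positivity) _
  have h7 : l / 2 * SS k N T ^ k ≤ nI k T (2 * T) (ZV a (N T)) ^ k := by
    rw [nI_rpow hk0, e1, SS_rpow hk0 N h2.le, ← he, Real.rpow_neg (by positivity)]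
    set I1 := ∫ t in Set.Icc 0 (2 * T), ‖ZV a (N T) t‖ ^ k with hI1
    set I2 := ∫ t in Set.Icc 0 T, ‖ZV a (N T) t‖ ^ k with hI2
    have h8 : 2 * ((2 * dl (N T)) ^ e / (2 * T) * I1) - (2 * dl (N T)) ^ e / T * I2 =
        (I1 - I2) / (T * ((2 * dl (N T)) ^ e)⁻¹) := by field_simp
    rw [h8, lt_div_iff₀ (by positivity)] at h1
    exact h1.le
  have h8 := Real.rpow_le_rpow (by positivity) h7 (show 0 ≤ 1 / k by positivity)
  rw [← Real.rpow_mul (nI_nonneg _ _ _ _), mul_one_div_cancel hk0.ne', Real.rpow_one,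
    Real.mul_rpow (by positivity) (by positivity), ← Real.rpow_mul hS,
    mul_one_div_cancel hk0.ne', Real.rpow_one] at h8
  refine le_trans (le_of_eq ?_) h8
  congr 1
  have e2 : l / 2 = A / 2 * (1 + a) ^ (-e) := by rw [hl]; ring
  rw [e2, Real.mul_rpow (by positivity) (by positivity), ← Real.rpow_mul h1a.le]
  congr 2
  ring

end Pool.Agent.H7.PV
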