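import Pool.Agent.H7.PV.V8

set_option autoImplicit false
open MeasureTheory Metric Filter ProbabilityTheory
open scoped ComplexConjugate ENNReal Topology ContDiff

/-! Lower bounds for weighted sums. -/

namespace Pool.Agent.H7.PV

open Pool.Agent.H7.PM (dl dl_pos dl_nonneg dl_tendsto log_dl nat_cpow)
open Pool.Agent.H7.PT hiding Zup Dup cmb_lim young EE_small app_lin app_of
open Pool.Agent.V11128.CXL
open Pool.Agent.H306R2 (aF aF_pos)

lemma ga_smooth (a : ℝ) : ContDiff ℝ ∞ (ga a) := by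
  unfold ga
  refine Complex.ofRealCLM.contDiff.comp (ContDiff.mul ?_ ρs_smooth)
  exact ((contDiff_const.mul contDiff_id).neg).exp

lemma ga_zero {a x : ℝ} (h : x ≤ -1) : ga a x = 0 := by
  unfold ga
  rw [ρs_zero h]
  simp

/-- a smooth sum with moments of the right order -/
theorem VV_lower {k : ℝ} (hk : 1 ≤ k) (hk4 : k ≤ 4) : ∃ g : ℝ → ℂ, ContDiff ℝ ∞ g ∧
    HasCompactSupport g ∧ (∀ x, 1 ≤ x → g x = 0) ∧ (∀ x, x ≤ -1 → g x = 0) ∧
    ∃ c0 : ℝ, 0 < c0 ∧ ∀ N : ℝ → ℕ, Adm N → ∀ᶠ T in atTop,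
      c0 * SS k N T ≤ nI k T (2 * T) (VV g (N T)) := by
  have hk0 : 0 < k := by linarith
  obtain ⟨CZ, hCZ, HB⟩ := II_bound hk hk4
  obtain ⟨h, H⟩ := exists_WDa one_pos
  set h1 : ℝ := ∫ ξ, ‖h ξ‖ with hh1
  have hh10 : 0 ≤ h1 := integral_nonneg fun ξ => norm_nonneg _
  set A0 : ℝ := (aF (k / 2) / 2) ^ (1 / k) with hA0
  have hA00 : 0 < A0 := Real.rpow_pos_of_pos (half_pos (aF_pos (κ := k / 2) (by positivity))) _
  set e' : ℝ := (k / 2) ^ 2 * (1 / k) with he'
  -- the choice of J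
  obtain ⟨J, hJ1, hJ⟩ : ∃ J : ℕ, 1 ≤ J ∧
      CZ * (Real.exp (-J) * h1) ≤ A0 * (1 + (J : ℝ)) ^ (-e') / 2 := by
    have t0 : Tendsto (fun J : ℕ => 1 + (J : ℝ)) atTop atTop :=
      tendsto_atTop_add_const_left _ 1 tendsto_natCast_atTop_atTop
    have t1 := ((tendsto_rpow_mul_exp_neg_mul_atTop_nhds_zero e' 1 one_pos).comp t0).const_mul
      (CZ * h1 * Real.exp 1)
    rw [mul_zero] at t1
    obtain ⟨J, hJ, hJ1⟩ := ((t1.eventually (gt_mem_nhds (half_pos hA00))).and
      (eventually_ge_atTop 1)).exists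
    refine ⟨J, hJ1, ?_⟩
    have hp : 0 < (1 + (J : ℝ)) ^ e' := by positivity
    simp only [Function.comp] at hJ
    have e1 : Real.exp (-1 * (1 + (J : ℝ))) = Real.exp (-J) * (Real.exp 1)⁻¹ := by
      rw [← Real.exp_neg, ← Real.exp_add]; congr 1; ring
    rw [e1] at hJ
    have e2 : CZ * h1 * Real.exp 1 * ((1 + (J : ℝ)) ^ e' * (Real.exp (-J) * (Real.exp 1)⁻¹)) =
        CZ * (Real.exp (-J) * h1) * (1 + (J : ℝ)) ^ e' := by
      have := (Real.exp_pos 1).ne'
      field_simp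
    rw [e2] at hJ
    rw [Real.rpow_neg (by positivity), ← div_eq_mul_inv, div_div, le_div_iff₀ (by positivity)]
    nlinarith
  have hJ0 : (0 : ℝ) < J := by exact_mod_cast hJ1
  have hJ1r : (1 : ℝ) ≤ J := by exact_mod_cast hJ1
  -- the functions
  set gl : ℝ → ℂ := fun x => ga 1 (J * x) with hgl
  set hl : ℝ → ℂ := fun ξ => ((J : ℝ)⁻¹ : ℝ) * h (ξ / J) with hhl
  have Hl : WD gl hl := wd_scale H hJ0
  have hnl : ∫ ξ, ‖hl ξ‖ = h1 := norm_scale hJ0
  set g' : ℝ → ℂ := fun x => ((Real.exp (-J) : ℝ) : ℂ) * gl (x - 1) with hg'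
  set h' : ℝ → ℂ := fun ξ => ((Real.exp (-J) : ℝ) : ℂ) *
      Complex.exp (((-(2 * Real.pi * ξ * 1) : ℝ) : ℂ) * Complex.I) * hl ξ with hh'
  have H' : WD g' h' := wd_trans Hl (Real.exp (-J)) 1
  have hn' : ∫ ξ, ‖h' ξ‖ = Real.exp (-J) * h1 := by
    have e1 : ∀ ξ, ‖h' ξ‖ = Real.exp (-J) * ‖hl ξ‖ := fun ξ => by
      simp only [hh']
      rw [norm_mul, norm_mul, Complex.norm_exp_ofReal_mul_I, Complex.norm_real,
        Real.norm_of_nonneg (Real.exp_pos _).le, mul_one]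
    simp_rw [e1]
    rw [integral_const_mul, hnl]
  set gt : ℝ → ℂ := fun x => gl x - g' x with hgt
  set ht : ℝ → ℂ := fun ξ => hl ξ - h' ξ with hht
  have Ht : WD gt ht := wd_sub Hl H'
  have hgls : ContDiff ℝ ∞ gl := (ga_smooth 1).comp (contDiff_const.mul contDiff_id)
  have hgts : ContDiff ℝ ∞ gt :=
    hgls.sub (contDiff_const.mul (hgls.comp (contDiff_id.sub contDiff_const)))
  have hgt1 : ∀ x, 1 ≤ x → gt x = 0 := by
    intro x hx
    simp only [hgt, hg', hgl]
    rw [ga_eq (by positivity), ga_eq (mul_nonneg hJ0.le (by linarith)), ← Complex.ofReal_mul,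
      ← Real.exp_add, ← Complex.ofReal_sub]
    have : -(1 * (J * x)) = -(J : ℝ) + -(1 * (J * (x - 1))) := by ring
    rw [this, sub_self, Complex.ofReal_zero]
  have hgt2 : ∀ x, x ≤ -1 → gt x = 0 := by
    intro x hx
    simp only [hgt, hg', hgl]
    rw [ga_zero (by nlinarith), ga_zero (by nlinarith)]
    simp
  have hgtc : HasCompactSupport gt := by
    refine HasCompactSupport.intro (isCompact_Icc (a := (-1 : ℝ)) (b := 1)) fun x hx => ?_
    rcases le_or_gt x (-1) with h2 | h2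
    · exact hgt2 x h2
    · refine hgt1 x ?_
      by_contra h3
      exact hx ⟨h2.le, (not_le.1 h3).le⟩
  set q : ℝ := A0 * (1 + (J : ℝ)) ^ (-e') with hq
  have hq0 : 0 < q := by positivity
  refine ⟨gt, hgts, hgtc, hgt1, hgt2, q / 8, by positivity, fun N hN => ?_⟩
  have hε : 0 < q / 12 := by positivity
  have hda : Tendsto (fun T => (1 + (J : ℝ)) * dl (N T)) atTop (𝓝 0) := by
    have := hN.delta.const_mul (1 + (J : ℝ))
    rwa [mul_zero] at this
  filter_upwards [HB g' h' H' _ hε N hN, EE_small hk hgts hgtc (fun x hx => hgt1 x (by linarith))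
    hN hε, SS_big hk0 hN (4 + 4 * Real.exp 1) hε, ZV_lower hk hk4 hJ0 hN, hN.two,
    eventually_gt_atTop 0,
    hN.delta.eventually (gt_mem_nhds (show (0 : ℝ) < 1 / 4 by norm_num)),
    hda.eventually (gt_mem_nhds (show (0 : ℝ) < 1 / 4 by norm_num))]
    with T b1 b2 b3 b4 h3 h4 h5 h6
  have hδ := dl_pos h3
  set δ := dl (N T) with hδdef
  have hS := SS_nonneg k N h4.le
  have cZ : Continuous (ZV J (N T)) := ZV_cont h6.le
  have cV := VV_cont gt (N T)
  have cI := II_cont H' hδ h5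
  have cE := EE_cont hgts.continuous hgtc hδ
  -- the identity
  set Bd : ℝ → ℂ := fun t => PP gl δ t - 1 / (1 - sa J δ t) with hBd
  have hid : ∀ t, ZV J (N T) t = VV gt (N T) t + (II h' δ t + (Bd t - EE gt δ t)) := by
    intro t
    have hgc : Continuous gl := hgls.continuous
    have e1 : ZV J (N T) t = II hl δ t - 1 / (1 - sa J δ t) + PP gl δ t :=
      zeta_avg hJ0 Hl hgc (C := Real.exp 1) (fun x => ga_norm one_pos _)
        (fun x hx => by
          simp only [hgl]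
          rw [ga_eq (by positivity), one_mul]) hδ h5 h6.le t
    have hNT : 1 ≤ N T ^ 2 := Nat.one_le_pow _ _ (by omega)
    have hlog2 : 2 ≤ δ * Real.log ((N T ^ 2 : ℕ) : ℝ) := by
      push_cast
      rw [Real.log_pow]
      have := log_dl h3
      push_cast
      rw [hδdef]
      nlinarith
    have e2 : VV gt (N T) t = (∫ ξ, ht ξ * riemannZeta (sp δ t ξ)) + EE gt δ t :=
      smooth_eq Ht (fun x hx => hgt1 x (by linarith)) hδ h5 t hNT hlog2
    have e3 : ∫ ξ, ht ξ * riemannZeta (sp δ t ξ) = II hl δ t - II h' δ t := by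
      unfold II
      rw [← integral_sub (integrable_zeta Hl hδ h5 t) (integrable_zeta H' hδ h5 t)]
      exact integral_congr_ae (Eventually.of_forall fun ξ => by simp only [hht]; ring)
    rw [e1, e2, e3]
    simp only [hBd]
    ring
  have cB : Continuous Bd := by
    have : Bd = fun t => ZV J (N T) t - VV gt (N T) t - II h' δ t + EE gt δ t := by
      funext t
      rw [hid t]
      ring
    rw [this]
    exact ((cZ.sub cV).sub cI).add cE
  have hBb : ∀ t ∈ Set.Icc T (2 * T), ‖Bd t‖ ≤ 4 + 4 * Real.exp 1 := by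
    intro t _
    simp only [hBd]
    refine (norm_sub_le _ _).trans ?_
    have h7 := PP_norm (g := gl) (C := Real.exp 1) (fun x => ga_norm one_pos _) h5 t
    have h8 : ‖1 / (1 - sa J δ t)‖ ≤ 4 := by
      have h9 := Complex.abs_re_le_norm (1 - sa J δ t)
      rw [Complex.sub_re, sa_re, Complex.one_re, abs_of_nonneg (by linarith)] at h9
      rw [norm_div, norm_one, div_le_iff₀ (by linarith)]
      linarith
    linarith
  have n1 := nI_le_const hk0 (a := T) (b := 2 * T) (by linarith) cB hBb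
  have e4 : 2 * T - T = T := by ring
  rw [e4] at n1
  have n2 : nI k T (2 * T) (II h' δ) ≤ nI k (-(2 * T)) (2 * T) (II h' δ) :=
    nI_mono_set hk0 cI (by linarith) le_rfl
  have n3 : nI k T (2 * T) (EE gt δ) ≤ nI k (-(2 * T)) (2 * T) (EE gt δ) :=
    nI_mono_set hk0 cE (by linarith) le_rfl
  have e5 : ZV J (N T) = fun t => VV gt (N T) t + (II h' δ t + (Bd t - EE gt δ t)) := funext hid
  have s1 := nI_add_le hk T (2 * T) cV (addc cI (subc cB cE))
  have s2 := nI_add_le hk T (2 * T) cI (subc cB cE)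
  have s3 : nI k T (2 * T) (fun t => Bd t - EE gt δ t) ≤ nI k T (2 * T) Bd +
      nI k T (2 * T) (EE gt δ) := by
    have := nI_add_le hk T (2 * T) cB cE.neg
    have e6 := nI_neg (p := k) (a := T) (b := 2 * T) (EE gt δ)
    have e7 : (fun t => Bd t + (-EE gt δ) t) = fun t => Bd t - EE gt δ t := by
      funext t; simp [sub_eq_add_neg]
    have e8 : (-EE gt δ) = fun t => -EE gt δ t := rfl
    rw [e7, e8, e6] at this
    exact this
  rw [e5] at b4
  have b1' : (CZ * (∫ ξ, ‖h' ξ‖) + q / 12) * SS k N T ≤ (q / 2 + q / 12) * SS k N T := by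
    refine mul_le_mul_of_nonneg_right ?_ hS
    rw [hn']
    linarith
  have b4' : q * SS k N T ≤ nI k T (2 * T) (fun t => VV gt (N T) t +
      (II h' δ t + (Bd t - EE gt δ t))) := b4
  nlinarith

lemma wsum_bound (b : ℝ) {P : ℝ → ℂ} (hP : Continuous P) : ∃ p0 : ℝ, 0 ≤ p0 ∧
    ∀ N : ℕ, 2 ≤ N → ∀ t, ‖wsum b P N t‖ ≤ p0 * (N : ℝ) ^ b := by
  obtain ⟨p, hp⟩ := (isCompact_Icc (a := (0 : ℝ)) (b := b)).exists_bound_of_continuousOn
    hP.continuousOn
  refine ⟨max p 0, le_max_right _ _, fun N hN t => ?_⟩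
  have hN0 : (0 : ℝ) < N := by exact_mod_cast (by omega : 0 < N)
  have hl : 0 < Real.log (N : ℝ) := Real.log_pos (by exact_mod_cast (by omega : 1 < N))
  unfold wsum
  have h1 : ∀ n ∈ Finset.Icc 1 ⌊(N : ℝ) ^ b⌋₊, ‖P (Real.log n / Real.log N) *
      (n : ℂ) ^ (-(1 / 2 + t * Complex.I) : ℂ)‖ ≤ max p 0 := by
    intro n hn
    obtain ⟨hn1, hn2⟩ := Finset.mem_Icc.1 hn
    have hn1r : (1 : ℝ) ≤ n := by exact_mod_cast hn1
    have h3 : (n : ℝ) ≤ (N : ℝ) ^ b :=
      (Nat.cast_le.2 hn2).trans (Nat.floor_le (Real.rpow_nonneg hN0.le _))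
    have h4 : Real.log n ≤ b * Real.log N := by
      rw [← Real.log_rpow hN0]
      exact Real.log_le_log (by linarith) h3
    rw [norm_mul]
    have h2 : ‖(n : ℂ) ^ (-(1 / 2 + t * Complex.I) : ℂ)‖ ≤ 1 := by
      rw [← Complex.ofReal_natCast, Complex.norm_cpow_eq_rpow_re_of_pos (by linarith)]
      exact Real.rpow_le_one_of_one_le_of_nonpos hn1r (by simp)
    have h5 : ‖P (Real.log n / Real.log N)‖ ≤ max p 0 :=
      (hp _ ⟨div_nonneg (Real.log_nonneg hn1r) hl.le, by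
        rw [div_le_iff₀ hl]; exact h4⟩).trans (le_max_left _ _)
    calc _ ≤ max p 0 * 1 := mul_le_mul h5 h2 (norm_nonneg _) (le_max_right _ _)
      _ = _ := mul_one _
  refine (norm_sum_le _ _).trans ((Finset.sum_le_sum h1).trans ?_)
  rw [Finset.sum_const, Nat.card_Icc, Nat.add_sub_cancel, nsmul_eq_mul, mul_comm]
  exact mul_le_mul_of_nonneg_left (Nat.floor_le (Real.rpow_nonneg hN0.le _)) (le_max_right _ _)

lemma wsum_cont (b : ℝ) (P : ℝ → ℂ) (N : ℕ) : Continuous (wsum b P N) := by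
  unfold wsum
  refine continuous_finsetSum _ fun n hn => ?_
  have hn0 : (n : ℂ) ≠ 0 := by
    exact_mod_cast (by have := (Finset.mem_Icc.1 hn).1; omega : n ≠ 0)
  refine continuous_const.mul (Continuous.const_cpow ?_ (Or.inl hn0))
  fun_prop

end Pool.Agent.H7.PV
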